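import Pool.Agent.Lib.Pe46137S.Word

/-!
# Shortest chains
-/

namespace Pool.Agent.Lib.Pe46137S

variable {V : Type}

/-- `l` steps of `R`, up to `Sim R`. -/
def Steps (R : V → V → Prop) : ℕ → V → V → Prop
  | 0, x, y => Sim R x y
  | l + 1, x, y => ∃ w w', Sim R x w ∧ R w w' ∧ Steps R l w' y

variable {R : V → V → Prop}

theorem Steps.sim_left {l : ℕ} {x y z : V} (h : Sim R x y) (h' : Steps R l y z) :
    Steps R l x z := by
  cases l with
  | zero => exact Sim.trans h h'
  | succ l =>
    obtain ⟨w, w', h1, h2, h3⟩ := h'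
    exact ⟨w, w', h.trans h1, h2, h3⟩

theorem Steps.append {a b : ℕ} {x y z : V} (h : Steps R a x y) (h' : Steps R b y z) :
    Steps R (a + b) x z := by
  induction a generalizing x with
  | zero => rw [Nat.zero_add]; exact Steps.sim_left h h'
  | succ a ih =>
    obtain ⟨w, w', h1, h2, h3⟩ := h
    rw [Nat.add_right_comm]
    exact ⟨w, w', h1, h2, ih h3⟩

theorem Steps.single {x y : V} (h : R x y) : Steps R 1 x y :=
  ⟨x, y, Sim.refl x, h, Sim.refl y⟩

theorem Steps.succ (hr : ∀ x, R x x) {l : ℕ} {x y : V} (h : Steps R l x y) :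
    Steps R (l + 1) x y := ⟨x, x, Sim.refl x, hr x, h⟩

theorem Steps.exists_of_reach {x y : V} (h : Relation.ReflTransGen R x y) :
    ∃ l, Steps R l x y := by
  induction h with
  | refl => exact ⟨0, Sim.refl x⟩
  | tail _ h' ih =>
    obtain ⟨l, hl⟩ := ih
    exact ⟨l + 1, hl.append (Steps.single h')⟩

/-- The vertices of a chain. -/
theorem Steps.exists_fun {l : ℕ} {x y : V} (h : Steps R l x y) : ∃ u v : ℕ → V,
    (∀ p < l, R (u p) (v p)) ∧ (∀ p, p + 1 < l → Sim R (v p) (u (p + 1))) ∧
    (0 < l → Sim R x (u 0) ∧ Sim R (v (l - 1)) y) := by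
  induction l generalizing x with
  | zero => exact ⟨fun _ => x, fun _ => x, fun p hp => absurd hp (by omega),
      fun p hp => absurd hp (by omega), fun h0 => absurd h0 (by omega)⟩
  | succ l ih =>
    obtain ⟨w, w', h1, h2, h3⟩ := h
    obtain ⟨u, v, hu1, hu2, hu3⟩ := ih h3
    refine ⟨fun p => Nat.casesOn p w u, fun p => Nat.casesOn p w' v, ?_, ?_, ?_⟩
    · intro p hp
      cases p with
      | zero => exact h2
      | succ p => exact hu1 p (by omega)
    · intro p hp
      cases p with
      | zero => exact (hu3 (by omega)).1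
      | succ p => exact hu2 p (by omega)
    · intro _
      refine ⟨h1, ?_⟩
      cases l with
      | zero => exact h3
      | succ l => exact (hu3 (by omega)).2

/-- The initial part of a chain. -/
theorem steps_init {l : ℕ} {x : V} {u v : ℕ → V} (h1 : ∀ p < l, R (u p) (v p))
    (h2 : ∀ p, p + 1 < l → Sim R (v p) (u (p + 1))) (h3 : Sim R x (u 0)) (p : ℕ) (hp : p < l) :
    Steps R p x (u p) := by
  induction p with
  | zero => exact h3
  | succ p ih =>
    have e1 : Steps R (p + 1) x (v p) := (ih (by omega)).append (Steps.single (h1 p (by omega)))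
    have e2 : Steps R 0 (v p) (u (p + 1)) := h2 p hp
    exact e1.append e2

/-- The final part of a chain. -/
theorem steps_final {l : ℕ} {y : V} {u v : ℕ → V} (h1 : ∀ p < l, R (u p) (v p))
    (h2 : ∀ p, p + 1 < l → Sim R (v p) (u (p + 1))) (h3 : Sim R (v (l - 1)) y) (m : ℕ) (hm : m < l) :
    Steps R m (v (l - 1 - m)) y := by
  induction m with
  | zero => exact h3
  | succ m ih =>
    have e0 := ih (by omega)
    have e1 : Sim R (v (l - 1 - (m + 1))) (u (l - 1 - m)) := by
      have := h2 (l - 1 - (m + 1)) (by omega)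
      rwa [show l - 1 - (m + 1) + 1 = l - 1 - m by omega] at this
    exact ⟨_, _, e1, h1 _ (by omega), e0⟩

/-- A shortest chain: no step can be reversed, and there are no shortcuts. -/
theorem exists_shortest (hr : ∀ x, R x x) {x y : V} (h : Relation.ReflTransGen R x y) :
    ∃ (l : ℕ) (u v : ℕ → V), (∀ p < l, R (u p) (v p)) ∧
      (∀ p, p + 1 < l → Sim R (v p) (u (p + 1))) ∧ (l = 0 → Sim R x y) ∧
      (0 < l → Sim R x (u 0) ∧ Sim R (v (l - 1)) y) ∧ (∀ p < l, ¬ R (v p) (u p)) ∧
      (∀ p q, p < q → q < l → ¬ R (u p) (v q)) ∧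
      (∀ p q, p + 3 ≤ q → q < l → ∀ a b, (a = u p ∨ a = v p) → (b = u q ∨ b = v q) →
        ¬ R a b) := by
  classical
  have hex := Steps.exists_of_reach h
  obtain ⟨l, hl⟩ : ∃ l, l = Nat.find hex := ⟨_, rfl⟩
  have hs : Steps R l x y := hl ▸ Nat.find_spec hex
  have hmin : ∀ m, Steps R m x y → l ≤ m := fun m hm => hl ▸ Nat.find_min' hex hm
  obtain ⟨u, v, hu1, hu2, hu3⟩ := hs.exists_fun
  have init : ∀ p < l, Steps R p x (u p) := fun p hp =>
    steps_init hu1 hu2 (hu3 (by omega)).1 p hp
  have final : ∀ p < l, Steps R (l - 1 - p) (v p) y := fun p hp => by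
    have := steps_final hu1 hu2 (hu3 (by omega)).2 (l - 1 - p) (by omega)
    rwa [show l - 1 - (l - 1 - p) = p by omega] at this
  refine ⟨l, u, v, hu1, hu2, fun h0 => by subst h0; exact hs, hu3, ?_, ?_, ?_⟩
  · intro p hp hR
    have e1 : Steps R 0 (u p) (v p) := Sim.of (hu1 p hp) hR
    have := hmin _ (((init p hp).append e1).append (final p hp))
    omega
  · intro p q hpq hq hR
    have := hmin _ (((init p (by omega)).append (Steps.single hR)).append (final q hq))
    omega
  · intro p q hpq hq a b ha hb hR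
    have e1 : Steps R (p + 1) x a := by
      rcases ha with rfl | rfl
      · exact (init p (by omega)).succ hr
      · exact (init p (by omega)).append (Steps.single (hu1 p (by omega)))
    have e2 : Steps R (l - q) b y := by
      rcases hb with rfl | rfl
      · have := (Steps.single (hu1 q hq)).append (final q hq)
        rwa [show 1 + (l - 1 - q) = l - q by omega] at this
      · have := (final q hq).succ hr
        rwa [show l - 1 - q + 1 = l - q by omega] at this
    have := hmin _ ((e1.append (Steps.single hR)).append e2)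
    omega

end Pool.Agent.Lib.Pe46137S
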