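import Mathlib

/-!
# Definitions: first-order logic with symmetric transitive closure of tuples, length of a formula,
# digraphs with few one-way arcs, nearly Eulerian digraphs, total imbalance
-/

namespace Pool.Agent.Lib.Pe46137S

/-! ### Logic -/

/-- Formulas of first-order logic with symmetric transitive closure of tuples, over the set `ρ` of
binary relation symbols.  Variables are natural numbers.  The formula `stc m b φ i j` binds the
variables `b, ..., b + m - 1` (first tuple) and `b + m, ..., b + 2 * m - 1` (second tuple) of `φ`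
and applies the closure to the tuples `i` and `j` of variables. -/
inductive Fml (ρ : Type) : Type
  | rel (r : ρ) (i j : ℕ) : Fml ρ
  | eq (i j : ℕ) : Fml ρ
  | neg (φ : Fml ρ) : Fml ρ
  | and (φ ψ : Fml ρ) : Fml ρ
  | ex (i : ℕ) (φ : Fml ρ) : Fml ρ
  | stc (m b : ℕ) (φ : Fml ρ) (i j : Fin m → ℕ) : Fml ρ

/-- The assignment `a` with the values of the variables `b, ..., b + m - 1` replaced by `p`. -/
def setBlock {V : Type} {m : ℕ} (a : ℕ → V) (b : ℕ) (p : Fin m → V) : ℕ → V := fun n =>
  if h : b ≤ n ∧ n < b + m then p ⟨n - b, by omega⟩ else a n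

/-- Satisfaction of a formula under an assignment.  The closure `stc m b φ i j` holds if the tuples
of values of `i` and of `j` are joined by a chain in which any two consecutive tuples, in one of
the two orders, satisfy `φ`. -/
def Sat {ρ V : Type} (R : ρ → V → V → Prop) : Fml ρ → (ℕ → V) → Prop
  | .rel r i j, a => R r (a i) (a j)
  | .eq i j, a => a i = a j
  | .neg φ, a => ¬ Sat R φ a
  | .and φ ψ, a => Sat R φ a ∧ Sat R ψ a
  | .ex i φ, a => ∃ v, Sat R φ (Function.update a i v)
  | .stc m b φ i j, a => Relation.ReflTransGen
      (fun p q : Fin m → V => Sat R φ (setBlock (setBlock a b p) (b + m) q) ∨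
        Sat R φ (setBlock (setBlock a b q) (b + m) p)) (fun k => a (i k)) (fun k => a (j k))

/-- The length of a formula: the number of its atoms, connectives, quantifiers and closures, where
a closure of `m`-tuples counts `2 * m + 1`. -/
def Fml.length {ρ : Type} : Fml ρ → ℕ
  | .rel _ _ _ => 1
  | .eq _ _ => 1
  | .neg φ => φ.length + 1
  | .and φ ψ => φ.length + ψ.length + 1
  | .ex _ φ => φ.length + 1
  | .stc m _ φ _ _ => φ.length + (2 * m + 1)

/-- The vocabulary of ordered digraphs. -/
inductive Voc
  | arc
  | lt

/-- Every arc atom and every closure of the formula lies under an even number (if the first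
argument is `true`) or an odd number (if it is `false`) of negations. -/
def Fml.Pol : Bool → Fml Voc → Prop
  | b, .rel .arc _ _ => b = true
  | _, .rel .lt _ _ => True
  | _, .eq _ _ => True
  | b, .neg φ => φ.Pol !b
  | b, .and φ ψ => φ.Pol b ∧ ψ.Pol b
  | b, .ex _ φ => φ.Pol b
  | b, .stc _ _ φ _ _ => b = true ∧ φ.Pol b

/-- Every arc atom and every closure of the formula lies under an even number of negations. -/
def Fml.ArcPositive (φ : Fml Voc) : Prop := φ.Pol true

/-- An ordered digraph as a structure. -/
def str {V : Type} [LinearOrder V] (E : V → V → Prop) : Voc → V → V → Prop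
  | .arc => E
  | .lt => fun x y => x < y

/-! ### Digraphs -/

variable {V : Type}

/-- `y` is reachable from `x`. -/
def Reach (E : V → V → Prop) : V → V → Prop := Relation.ReflTransGen E

/-- The vertices are equal or joined by an arc. -/
def Touch (E : V → V → Prop) (x y : V) : Prop := x = y ∨ E x y ∨ E y x

/-- Some end of the arc `e` is equal to, or joined by an arc to, some end of the arc `f`. -/
def Near (E : V → V → Prop) (e f : V × V) : Prop :=
  Touch E e.1 f.1 ∨ Touch E e.1 f.2 ∨ Touch E e.2 f.1 ∨ Touch E e.2 f.2

/-- Among any `k + 1` one-way arcs, two are near each other. -/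
def FewOneWay (k : ℕ) (E : V → V → Prop) : Prop :=
  ∀ f : Fin (k + 1) → V × V, (∀ i, E (f i).1 (f i).2 ∧ ¬ E (f i).2 (f i).1) →
    ∃ i j, i ≠ j ∧ Near E (f i) (f j)

/-- No arc leaves the set `S`. -/
def SinkSet (E : V → V → Prop) (S : Set V) : Prop := ∀ x ∈ S, ∀ y, E x y → y ∈ S

/-- The strong component of a vertex. -/
def strong (E : V → V → Prop) (v : V) : Set V := {w | Reach E v w ∧ Reach E w v}

/-- The out-degree of `w` inside `C`. -/
noncomputable def outIn (E : V → V → Prop) (C : Set V) (w : V) : ℕ := {y | y ∈ C ∧ E w y}.ncard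

/-- The in-degree of `w` inside `C`. -/
noncomputable def inIn (E : V → V → Prop) (C : Set V) (w : V) : ℕ := {x | x ∈ C ∧ E x w}.ncard

/-- At most `k` arcs enter a set of vertices that no arc leaves, and the differences of out-degree
and in-degree inside a strong component have sum of absolute values at most `k`. -/
def NearlyEulerian (k : ℕ) (E : V → V → Prop) : Prop :=
  (∀ S : Set V, SinkSet E S → {e : V × V | e.1 ∉ S ∧ e.2 ∈ S ∧ E e.1 e.2}.ncard ≤ k) ∧
  ∀ v, ∑ᶠ w ∈ strong E v, ((outIn E (strong E v) w : ℤ) - inIn E (strong E v) w).natAbs ≤ k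

/-- The sum of the absolute values of the differences of out-degree and in-degree. -/
noncomputable def imbalance (E : V → V → Prop) : ℕ :=
  ∑ᶠ v, ((outIn E Set.univ v : ℤ) - inIn E Set.univ v).natAbs

/-- The relation of the digraph with arc set `G`. -/
def rel {n : ℕ} (G : Set (Fin n × Fin n)) (x y : Fin n) : Prop := (x, y) ∈ G

/-! ### The operator -/

/-- The equivalence relation generated by the pairs that are related in both directions. -/
def Sim (R : V → V → Prop) : V → V → Prop :=
  Relation.ReflTransGen fun x y => R x y ∧ R y x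

/-- One round. -/
def Phi (R : V → V → Prop) (x y : V) : Prop := ∃ w w', R x w ∧ Sim R w w' ∧ R w' y

/-- Several rounds. -/
def iter (R : V → V → Prop) : ℕ → V → V → Prop
  | 0 => R
  | j + 1 => Phi (iter R j)

end Pool.Agent.Lib.Pe46137S
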