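import Pool.Agent.Lib.Pe46137S.Chain

/-!
# Digraphs with few one-way arcs
-/

namespace Pool.Agent.Lib.Pe46137S

variable {V : Type}

theorem Touch.symm {E : V → V → Prop} {a b : V} (h : Touch E a b) : Touch E b a := by
  rcases h with h | h | h
  · exact Or.inl h.symm
  · exact Or.inr (Or.inr h)
  · exact Or.inr (Or.inl h)

theorem Near.symm {E : V → V → Prop} {e f : V × V} (h : Near E e f) : Near E f e := by
  rcases h with h | h | h | h
  · exact Or.inl h.symm
  · exact Or.inr (Or.inr (Or.inl h.symm))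
  · exact Or.inr (Or.inl h.symm)
  · exact Or.inr (Or.inr (Or.inr h.symm))

theorem Near.exists {E : V → V → Prop} {e f : V × V} (h : Near E e f) :
    ∃ a b, (a = e.1 ∨ a = e.2) ∧ (b = f.1 ∨ b = f.2) ∧ Touch E a b := by
  rcases h with h | h | h | h
  · exact ⟨_, _, Or.inl rfl, Or.inl rfl, h⟩
  · exact ⟨_, _, Or.inl rfl, Or.inr rfl, h⟩
  · exact ⟨_, _, Or.inr rfl, Or.inl rfl, h⟩
  · exact ⟨_, _, Or.inr rfl, Or.inr rfl, h⟩

/-- On a digraph in which among any `k + 1` one-way arcs two are near each other, the rounds reach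
everything after `3 * log k + 6` steps. -/
theorem few_one_way {k : ℕ} {E : V → V → Prop} (h : FewOneWay k E) {x y : V}
    (hxy : Reach E x y) : iter (fun x y => x = y ∨ E x y) (3 * Nat.log 2 k + 6) x y := by
  obtain ⟨R, hR⟩ : ∃ R : V → V → Prop, R = fun x y => x = y ∨ E x y := ⟨_, rfl⟩
  rw [← hR]
  have hr : ∀ x, R x x := fun x => by rw [hR]; exact Or.inl rfl
  have hRE : ∀ {a b}, E a b → R a b := fun {a b} hab => by rw [hR]; exact Or.inr hab
  have hreach : Relation.ReflTransGen R x y := by
    unfold Reach at hxy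
    induction hxy with
    | refl => exact Relation.ReflTransGen.refl
    | tail _ h' ih => exact ih.tail (hRE h')
  obtain ⟨l, u, v, h1, h2, h3, h4, h5, h6, h7⟩ := exists_shortest hr hreach
  rcases Nat.eq_zero_or_pos l with hl | hl
  · exact iter_le hr (show 1 ≤ 3 * Nat.log 2 k + 6 by omega) (Phi.of_sim hr (h3 hl))
  -- all steps are one-way arcs
  have hone : ∀ p < l, E (u p) (v p) ∧ ¬ E (v p) (u p) := by
    intro p hp
    refine ⟨?_, fun he => h5 p hp (hRE he)⟩
    have := h1 p hp
    rw [hR] at this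
    rcases this with h0 | h0
    · exact absurd (h0 ▸ hr _) (h5 p hp)
    · exact h0
  -- the bound for the maximum of `k` and `1`
  have hlog : Nat.log 2 (max k 1) = Nat.log 2 k := by
    rcases Nat.eq_zero_or_pos k with h0 | h0
    · rw [h0]; simp
    · rw [max_eq_left h0]
  rw [← hlog]
  refine word_lemma hr (le_max_right _ _) hl u v h1 h2
    (fun p q => Near E (u p, v p) (u q, v q)) ?_ ?_ (h4 hl).1 (h4 hl).2
  · intro p q hpq hq hn
    obtain ⟨a, b, ha, hb, hab⟩ := hn.exists
    have hno := h7 p q hpq hq a b ha hb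
    have hba : R b a := by
      rcases hab with h0 | h0 | h0
      · exact absurd (h0 ▸ hr _) hno
      · exact absurd (hRE h0) hno
      · exact hRE h0
    have e1 : iter R 0 (u q) b := by
      rcases hb with rfl | rfl
      · exact hr _
      · exact h1 q hq
    have e2 : iter R 0 a (v p) := by
      rcases ha with rfl | rfl
      · exact h1 p (by omega)
      · exact hr _
    exact iter_comp (iter_comp e1 hba) (iter_succ_of hr 0 e2)
  · intro I hI hc
    have hc' : k + 1 ≤ I.card := by omega
    obtain ⟨i, j, hij, hn⟩ := h (fun i => (u (I.orderEmbOfFin rfl (Fin.castLE hc' i)),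
      v (I.orderEmbOfFin rfl (Fin.castLE hc' i)))) fun i =>
        hone _ (hI _ (I.orderEmbOfFin_mem rfl _))
    have hne : I.orderEmbOfFin rfl (Fin.castLE hc' i) ≠ I.orderEmbOfFin rfl (Fin.castLE hc' j) :=
      fun he => hij (Fin.castLE_injective hc' ((I.orderEmbOfFin rfl).injective he))
    rcases lt_or_gt_of_ne hne with hlt | hlt
    · exact ⟨_, I.orderEmbOfFin_mem rfl _, _, I.orderEmbOfFin_mem rfl _, hlt, hn⟩
    · exact ⟨_, I.orderEmbOfFin_mem rfl _, _, I.orderEmbOfFin_mem rfl _, hlt, hn.symm⟩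

end Pool.Agent.Lib.Pe46137S
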