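import Pool.Agent.Lib.Pe46137S.Defs

/-!
# Derived connectives
-/

namespace Pool.Agent.Lib.Pe46137S

variable {ρ V : Type} {R : ρ → V → V → Prop}

/-- Disjunction. -/
def Fml.or (φ ψ : Fml ρ) : Fml ρ := .neg (.and (.neg φ) (.neg ψ))

/-- Implication. -/
def Fml.imp (φ ψ : Fml ρ) : Fml ρ := .neg (.and φ (.neg ψ))

/-- Universal quantification. -/
def Fml.all (i : ℕ) (φ : Fml ρ) : Fml ρ := .neg (.ex i (.neg φ))

@[simp] theorem sat_rel (r : ρ) (i j : ℕ) (a : ℕ → V) :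
    Sat R (.rel r i j) a ↔ R r (a i) (a j) := Iff.rfl

@[simp] theorem sat_eq (i j : ℕ) (a : ℕ → V) : Sat R (.eq i j) a ↔ a i = a j := Iff.rfl

@[simp] theorem sat_neg (φ : Fml ρ) (a : ℕ → V) : Sat R (.neg φ) a ↔ ¬ Sat R φ a := Iff.rfl

@[simp] theorem sat_and (φ ψ : Fml ρ) (a : ℕ → V) :
    Sat R (.and φ ψ) a ↔ Sat R φ a ∧ Sat R ψ a := Iff.rfl

@[simp] theorem sat_ex (i : ℕ) (φ : Fml ρ) (a : ℕ → V) :
    Sat R (.ex i φ) a ↔ ∃ v, Sat R φ (Function.update a i v) := Iff.rfl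

@[simp] theorem sat_or (φ ψ : Fml ρ) (a : ℕ → V) :
    Sat R (.or φ ψ) a ↔ Sat R φ a ∨ Sat R ψ a := by
  simp only [Fml.or, sat_neg, sat_and]
  tauto

@[simp] theorem sat_imp (φ ψ : Fml ρ) (a : ℕ → V) :
    Sat R (.imp φ ψ) a ↔ (Sat R φ a → Sat R ψ a) := by
  simp only [Fml.imp, sat_neg, sat_and]
  tauto

@[simp] theorem sat_all (i : ℕ) (φ : Fml ρ) (a : ℕ → V) :
    Sat R (.all i φ) a ↔ ∀ v, Sat R φ (Function.update a i v) := by
  simp only [Fml.all, sat_neg, sat_ex]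
  push Not
  rfl

theorem sat_stc (m b : ℕ) (φ : Fml ρ) (i j : Fin m → ℕ) (a : ℕ → V) :
    Sat R (.stc m b φ i j) a ↔ Relation.ReflTransGen
      (fun p q : Fin m → V => Sat R φ (setBlock (setBlock a b p) (b + m) q) ∨
        Sat R φ (setBlock (setBlock a b q) (b + m) p)) (fun k => a (i k)) (fun k => a (j k)) :=
  Iff.rfl

@[simp] theorem length_rel (r : ρ) (i j : ℕ) : (Fml.rel r i j).length = 1 := rfl

@[simp] theorem length_eq (i j : ℕ) : (Fml.eq i j : Fml ρ).length = 1 := rfl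

@[simp] theorem length_neg (φ : Fml ρ) : (Fml.neg φ).length = φ.length + 1 := rfl

@[simp] theorem length_and (φ ψ : Fml ρ) : (Fml.and φ ψ).length = φ.length + ψ.length + 1 := rfl

@[simp] theorem length_ex (i : ℕ) (φ : Fml ρ) : (Fml.ex i φ).length = φ.length + 1 := rfl

@[simp] theorem length_or (φ ψ : Fml ρ) : (Fml.or φ ψ).length = φ.length + ψ.length + 4 := by
  simp only [Fml.or, length_neg, length_and]
  omega

@[simp] theorem length_imp (φ ψ : Fml ρ) : (Fml.imp φ ψ).length = φ.length + ψ.length + 3 := by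
  simp only [Fml.imp, length_neg, length_and]
  omega

@[simp] theorem length_all (i : ℕ) (φ : Fml ρ) : (Fml.all i φ).length = φ.length + 3 := by
  simp only [Fml.all, length_neg, length_ex]

@[simp] theorem length_stc (m b : ℕ) (φ : Fml ρ) (i j : Fin m → ℕ) :
    (Fml.stc m b φ i j).length = φ.length + (2 * m + 1) := rfl

/-- The formula `φ` with free variables `0, 1`, at the variables `c, d`, which must be neither `0`
nor `1`. -/
def Fml.at (φ : Fml ρ) (c d : ℕ) : Fml ρ :=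
  .ex 0 (.and (.eq 0 c) (.ex 1 (.and (.eq 1 d) φ)))

theorem sat_at {φ : Fml ρ} {Q : V → V → Prop} (h : ∀ a, Sat R φ a ↔ Q (a 0) (a 1)) {c d : ℕ}
    (hc : c ≠ 0) (hc' : c ≠ 1) (hd : d ≠ 0) (hd' : d ≠ 1) (a : ℕ → V) :
    Sat R (φ.at c d) a ↔ Q (a c) (a d) := by
  simp only [Fml.at, sat_ex, sat_and, sat_eq, h]
  simp [Function.update_apply, hc, hc', hd, hd']

@[simp] theorem length_at (φ : Fml ρ) (c d : ℕ) : (φ.at c d).length = φ.length + 6 := by
  simp only [Fml.at, length_ex, length_and, length_eq]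
  omega

end Pool.Agent.Lib.Pe46137S
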