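import Pool.Agent.Lib.Pe46137S.Op

/-!
# The quotient by an equivalence relation inside mutual reachability

PROOF of `lead_sound`.  Let `T = {a | ReflTransGen (fun a b => S a b ∨ NextClass E S a b) a v}`.  Show: every step of the
symmetric relation in `Lead` stays in `T`, in both directions, i.e. if one of `a, b` is in `T` then both are.  For `S a b` clear (both
directions by symmetry).  For `NextClass E S a b ∧ ¬ S a v`: if `b ∈ T` then `a ∈ T`.  If `a ∈ T`: a chain from `a` to `v`; its
steps in the class of `a` first, then a first step `NextClass E S a' b'` with `S a a'` (there is one, as `¬ S a v`), and the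
first exit of the class is unique (lexicographically first), so `S b b'`, and `b ∈ T`.  (Prove by induction on the chain:
for all `a'` with `ReflTransGen a' v`, for all `a` with `S a a'`, `¬ S a v` and `NextClass a b`: `b ∈ T`.)  As `v ∈ T`, `u ∈ T` (induct
along the closure from the end), and `T` is sound: `S` and `NextClass` are (`S c x`, `E x y`, `S y d`).

PROOF of `lead_complete`.  `Next` classes: by finiteness (lexicographic minimum over finite set) every class that some arc leaves has a
first exit.  Let `A = {a | Reach E a t}`; `V \ A` is a sink set, at most `k` arcs enter it.  For `c ∈ A` not in the class of `t`, some arc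
leaves its class (there is a path to `t`).  Follow `NextClass` from `c`: the classes met are different (each is reachable from
the previous one and not conversely, as `S` is mutual reachability; finite, so it ends): the chain ends in the class of `t` (as long
as it stays in `A`), or in a class in `A` whose first exit `(x, y)` has `y ∉ A`; call `x` (the vertex `x`, in `A`) the exit vertex of
`c`; `(x, y)` is one of the at most `k` arcs entering `V \ A`.  So: for `c ∈ A`: `Lead c t`, or `Lead c x` for an exit vertex `x`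
(when the goal is `v` with `¬ S a v` for all classes `a` met before; use `head` steps; `Lead` to any vertex of a class met).
Induction on the number `m` of exit arcs `(x, y)` (`x ∈ A`, `y ∉ A`, `FirstExit E S x x y`, say) with `Reach E c x`: `t` is reached
from `c` by a chain with `2 * m + 1` steps of `Q = Lead ∨ E`.  If `Lead c t` done with one step.  Otherwise `Lead c x` for an exit vertex
`x`; as `x ∈ A` is not in the class of `t` (its first exit leaves `A`... note the class of `t` itself could have exits; then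
`Lead c t` holds anyway, choose the class of `t` first), there is an arc `x' → y'` inside `A` with `S x x'`, `¬ S x' y'`;
`Lead c x'` (same class), `E x' y'`, and from `y'` the exit arc `(x, y)` is not reachable (`Reach y' x` would put `y'` in the class),
so at most `m - 1` exit arcs are reachable from `y'`.  So `2 * k + 1 ≤ 2 ^ (log k + 3)` steps are enough: `iter_of_chain` of Op.lean
(padding with the reflexive relation).
-/

namespace Pool.Agent.Lib.Pe46137S

variable {V : Type} [LinearOrder V]

/-- `(x, y)` is the lexicographically first arc that leaves the class of `c`. -/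
def FirstExit (E S : V → V → Prop) (c x y : V) : Prop :=
  S c x ∧ E x y ∧ ¬ S x y ∧
    ∀ x' y', S c x' → E x' y' → ¬ S x' y' → x < x' ∨ (x = x' ∧ (y = y' ∨ y < y'))

/-- `d` is in the class in which the first arc leaving the class of `c` ends. -/
def NextClass (E S : V → V → Prop) (c d : V) : Prop := ∃ x y, FirstExit E S c x y ∧ S y d

/-- The class of `v` is met by following the first exits from the class of `u`; written as a
symmetric closure. -/
def Lead (E S : V → V → Prop) (u v : V) : Prop :=
  Relation.ReflTransGen (fun a b => (S a b ∨ NextClass E S a b ∧ ¬ S a v) ∨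
    (S b a ∨ NextClass E S b a ∧ ¬ S b v)) u v

namespace QuotAux

theorem firstExit_congr {E S : V → V → Prop} (hS : Equivalence S) {c c' x y : V} (h : S c c')
    (hf : FirstExit E S c' x y) : FirstExit E S c x y :=
  ⟨hS.trans h hf.1, hf.2.1, hf.2.2.1, fun x' y' h1 h2 h3 => hf.2.2.2 x' y' (hS.trans (hS.symm h) h1) h2 h3⟩

theorem firstExit_unique {E S : V → V → Prop} {c x y x' y' : V} (h : FirstExit E S c x y)
    (h' : FirstExit E S c x' y') : x = x' ∧ y = y' := by
  have h1 := h.2.2.2 x' y' h'.1 h'.2.1 h'.2.2.1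
  have h2 := h'.2.2.2 x y h.1 h.2.1 h.2.2.1
  rcases h1 with h1 | ⟨h1, h3⟩
  · rcases h2 with h2 | ⟨h2, _⟩
    · exact absurd h1 (lt_asymm h2)
    · exact absurd h1 (by rw [h2]; exact lt_irrefl _)
  · rcases h2 with h2 | ⟨_, h4⟩
    · exact absurd h2 (by rw [h1]; exact lt_irrefl _)
    · rcases h3 with h3 | h3
      · exact ⟨h1, h3⟩
      · rcases h4 with h4 | h4
        · exact ⟨h1, h4.symm⟩
        · exact absurd h3 (lt_asymm h4)

/-- the steps without the restriction -/
def St (E S : V → V → Prop) (a b : V) : Prop := S a b ∨ NextClass E S a b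

theorem back {E S : V → V → Prop} (hS : Equivalence S) {v b' : V}
    (h : Relation.ReflTransGen (St E S) b' v) :
    ∀ b, S b b' → ¬ S b v → ∀ a, NextClass E S b a → Relation.ReflTransGen (St E S) a v := by
  induction h using Relation.ReflTransGen.head_induction_on with
  | refl => exact fun b h1 h2 => absurd h1 h2
  | @head b' c hbc hcv ih =>
    intro b hb hv a ha
    rcases hbc with hbc | hbc
    · exact ih b (hS.trans hb hbc) hv a ha
    · obtain ⟨x, y, h1, h2⟩ := hbc
      obtain ⟨x', y', h1', h2'⟩ := ha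
      obtain ⟨_, rfl⟩ := firstExit_unique h1' (firstExit_congr hS hb h1)
      exact Relation.ReflTransGen.head (Or.inl (hS.trans (hS.symm h2') h2)) hcv

theorem reach_of_st {E S : V → V → Prop} (hSE : ∀ x y, S x y → Reach E x y) {a b : V}
    (h : St E S a b) : Reach E a b := by
  rcases h with h | ⟨x, y, h1, h2⟩
  · exact hSE _ _ h
  · exact ((hSE _ _ h1.1).tail h1.2.1).trans (hSE _ _ h2)

theorem Lead_congr {E S : V → V → Prop} (hS : Equivalence S) {u v v' : V} (h : S v v')
    (hl : Lead E S u v) : Lead E S u v' := by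
  unfold Lead at *
  have key : ∀ a b, ((S a b ∨ NextClass E S a b ∧ ¬ S a v) ∨
      (S b a ∨ NextClass E S b a ∧ ¬ S b v)) → ((S a b ∨ NextClass E S a b ∧ ¬ S a v') ∨
      (S b a ∨ NextClass E S b a ∧ ¬ S b v')) := by
    have h1 : ∀ a, ¬ S a v → ¬ S a v' := fun a h2 h3 => h2 (hS.trans h3 (hS.symm h))
    rintro a b ((h2 | ⟨h2, h3⟩) | (h2 | ⟨h2, h3⟩))
    · exact Or.inl (Or.inl h2)
    · exact Or.inl (Or.inr ⟨h2, h1 _ h3⟩)
    · exact Or.inr (Or.inl h2)
    · exact Or.inr (Or.inr ⟨h2, h1 _ h3⟩)
  have h2 : Relation.ReflTransGen (fun a b => (S a b ∨ NextClass E S a b ∧ ¬ S a v') ∨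
      (S b a ∨ NextClass E S b a ∧ ¬ S b v')) u v := Relation.ReflTransGen.mono key _ _ hl
  exact h2.tail (Or.inl (Or.inl h))

theorem Lead_refl (E S : V → V → Prop) (u : V) : Lead E S u u := Relation.ReflTransGen.refl

omit [LinearOrder V] in
theorem exists_exit {E S : V → V → Prop} (hS : Equivalence S) {a t : V} (h : Reach E a t) :
    ∀ c, S c a → ¬ S c t → ∃ x y, S c x ∧ E x y ∧ ¬ S x y ∧ Reach E y t := by
  unfold Reach at h
  induction h using Relation.ReflTransGen.head_induction_on with
  | refl => exact fun c h1 h2 => absurd h1 h2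
  | @head a b hab hbt ih =>
    intro c hc ht
    by_cases hs : S a b
    · exact ih c (hS.trans hc hs) ht
    · exact ⟨a, b, hc, hab, hs, hbt⟩

theorem exists_firstExit [Finite V] {E S : V → V → Prop} {c : V}
    (h : ∃ x y, S c x ∧ E x y ∧ ¬ S x y) : ∃ x y, FirstExit E S c x y := by
  obtain ⟨x0, y0, h1, h2, h3⟩ := h
  have hwf : WellFounded (fun a b : V => a < b) := wellFounded_lt
  obtain ⟨x, ⟨hx1, y1, hy1⟩, hx2⟩ := hwf.has_min {x | S c x ∧ ∃ y, E x y ∧ ¬ S x y} ⟨x0, h1, y0, h2, h3⟩
  obtain ⟨y, ⟨hy1, hy2⟩, hy3⟩ := hwf.has_min {y | E x y ∧ ¬ S x y} ⟨y1, hy1⟩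
  refine ⟨x, y, hx1, hy1, hy2, fun x' y' h4 h5 h6 => ?_⟩
  have h7 : ¬ x' < x := hx2 x' ⟨h4, y', h5, h6⟩
  rcases lt_or_eq_of_le (not_lt.1 h7) with h8 | h8
  · exact Or.inl h8
  · subst h8
    have h9 : ¬ y' < y := hy3 y' ⟨h5, h6⟩
    rcases lt_or_eq_of_le (not_lt.1 h9) with h10 | h10
    · exact Or.inr ⟨rfl, Or.inr h10⟩
    · exact Or.inr ⟨rfl, Or.inl h10⟩

/-- a chain of `n` steps -/
def Steps (Q : V → V → Prop) (n : ℕ) (x y : V) : Prop :=
  ∃ f : ℕ → V, f 0 = x ∧ f n = y ∧ ∀ i < n, Q (f i) (f (i + 1))

omit [LinearOrder V] in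
theorem Steps.cons {Q : V → V → Prop} {n : ℕ} {x y z : V} (h : Q x y) (hs : Steps Q n y z) :
    Steps Q (n + 1) x z := by
  obtain ⟨f, h0, h1, h2⟩ := hs
  refine ⟨fun i => if i = 0 then x else f (i - 1), by simp, by simp [h1], fun i hi => ?_⟩
  simp only
  rcases Nat.eq_zero_or_pos i with h3 | h3
  · subst h3
    simpa [h0] using h
  · rw [if_neg (by omega), if_neg (by omega)]
    have := h2 (i - 1) (by omega)
    have e : i - 1 + 1 = i + 1 - 1 := by omega
    rwa [e] at this

/-- following the first exits -/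
theorem follow [Finite V] {E : V → V → Prop} {S : V → V → Prop} (hS : ∀ x y, S x y ↔ Reach E x y ∧ Reach E y x)
    (hSe : Equivalence S) {t : V} (N : ℕ) : ∀ c, {z | Reach E c z}.ncard ≤ N → Reach E c t →
    Lead E S c t ∨ ∃ x y, Lead E S c x ∧ Reach E c x ∧ Reach E x t ∧ ¬ S x t ∧ E x y ∧ ¬ Reach E y t := by
  induction N with
  | zero =>
    intro c hc _
    exfalso
    have h1 : {z | Reach E c z} = ∅ := by
      rw [← Set.ncard_eq_zero]
      omega
    have h2 : c ∈ {z | Reach E c z} := Relation.ReflTransGen.refl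
    rw [h1] at h2
    exact h2
  | succ N ih =>
    intro c hc hct
    by_cases hst : S c t
    · exact Or.inl (Relation.ReflTransGen.single (Or.inl (Or.inl hst)))
    obtain ⟨x', y', h1, h2, h3, _⟩ := exists_exit hSe hct c (hSe.refl c) hst
    obtain ⟨x, y, hf⟩ := exists_firstExit (E := E) (S := S) (c := c) ⟨x', y', h1, h2, h3⟩
    have hcx := hf.1
    have hxc := (hS _ _).1 hcx
    have hcy : Reach E c y := hxc.1.tail hf.2.1
    have hyc : ¬ Reach E y c := by
      intro h
      apply hf.2.2.1
      rw [hS]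
      exact ⟨Relation.ReflTransGen.single hf.2.1, h.trans hxc.1⟩
    by_cases hy : Reach E y t
    · have hlt : {z | Reach E y z}.ncard < {z | Reach E c z}.ncard := by
        apply Set.ncard_lt_ncard _ (Set.toFinite _)
        refine ⟨fun z hz => hcy.trans hz, fun h => ?_⟩
        exact hyc (h (show c ∈ {z | Reach E c z} from Relation.ReflTransGen.refl))
      rcases ih y (by omega) hy with h | ⟨x0, y0, h4, h5, h6, h7, h8, h9⟩
      · refine Or.inl (Relation.ReflTransGen.head (Or.inl (Or.inr ⟨?_, hst⟩)) h)
        exact ⟨x, y, hf, hSe.refl y⟩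
      · refine Or.inr ⟨x0, y0, Relation.ReflTransGen.head (Or.inl (Or.inr ⟨?_, ?_⟩)) h4, hcy.trans h5,
          h6, h7, h8, h9⟩
        · exact ⟨x, y, hf, hSe.refl y⟩
        · intro h10
          exact hyc (h5.trans ((hS _ _).1 h10).2)
    · refine Or.inr ⟨x, y, Relation.ReflTransGen.single (Or.inl (Or.inl hcx)), hxc.1, hxc.2.trans hct,
        fun h => hst (hSe.trans hcx h), hf.2.1, hy⟩

/-- the induction on the number of arcs that can be reached and leave the set of ancestors -/
theorem steps [Finite V] {E : V → V → Prop} {S : V → V → Prop} (hS : ∀ x y, S x y ↔ Reach E x y ∧ Reach E y x)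
    (hSe : Equivalence S) {t : V} (m : ℕ) : ∀ c,
    {e : V × V | Reach E e.1 t ∧ ¬ Reach E e.2 t ∧ E e.1 e.2 ∧ Reach E c e.1}.ncard ≤ m → Reach E c t →
    ∃ n ≤ 2 * m + 1, Steps (fun u v => Lead E S u v ∨ E u v) n c t := by
  induction m with
  | zero =>
    intro c hc hct
    rcases follow hS hSe _ c le_rfl hct with h | ⟨x, y, _, h2, h3, _, h5, h6⟩
    · exact ⟨1, by omega, fun i => if i = 0 then c else t, by simp, by simp, fun i hi => by
        have : i = 0 := by omega
        subst this
        simpa using Or.inl h⟩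
    · exfalso
      have h7 : (x, y) ∈ {e : V × V | Reach E e.1 t ∧ ¬ Reach E e.2 t ∧ E e.1 e.2 ∧ Reach E c e.1} :=
        ⟨h3, h6, h5, h2⟩
      have h8 : {e : V × V | Reach E e.1 t ∧ ¬ Reach E e.2 t ∧ E e.1 e.2 ∧ Reach E c e.1} = ∅ := by
        rw [← Set.ncard_eq_zero (Set.toFinite _)]
        omega
      rw [h8] at h7
      exact h7
  | succ m ih =>
    intro c hc hct
    rcases follow hS hSe _ c le_rfl hct with h | ⟨x, y, h1, h2, h3, h4, h5, h6⟩
    · exact ⟨1, by omega, fun i => if i = 0 then c else t, by simp, by simp, fun i hi => by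
        have : i = 0 := by omega
        subst this
        simpa using Or.inl h⟩
    · obtain ⟨x', y', g1, g2, g3, g4⟩ := exists_exit hSe h3 x (hSe.refl x) h4
      have hxx' := (hS _ _).1 g1
      have hcx' : Reach E c x' := h2.trans hxx'.1
      have hcy' : Reach E c y' := hcx'.tail g2
      have hlt : {e : V × V | Reach E e.1 t ∧ ¬ Reach E e.2 t ∧ E e.1 e.2 ∧ Reach E y' e.1}.ncard <
          {e : V × V | Reach E e.1 t ∧ ¬ Reach E e.2 t ∧ E e.1 e.2 ∧ Reach E c e.1}.ncard := by
        apply Set.ncard_lt_ncard _ (Set.toFinite _)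
        refine ⟨fun e he => ⟨he.1, he.2.1, he.2.2.1, hcy'.trans he.2.2.2⟩, fun h => ?_⟩
        have h7 : (x, y) ∈ {e : V × V | Reach E e.1 t ∧ ¬ Reach E e.2 t ∧ E e.1 e.2 ∧ Reach E c e.1} :=
          ⟨h3, h6, h5, h2⟩
        have h8 := (h h7).2.2.2
        apply g3
        rw [hS]
        exact ⟨Relation.ReflTransGen.single g2, Relation.ReflTransGen.trans h8 hxx'.1⟩
      obtain ⟨n, hn, hst⟩ := ih y' (by omega) g4
      exact ⟨n + 1 + 1, by omega, Steps.cons (Or.inl (Lead_congr hSe g1 h1)) (Steps.cons (Or.inr g2) hst)⟩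

end QuotAux

open QuotAux

/-- Following the first exits is sound. -/
theorem lead_sound {E S : V → V → Prop} (hS : Equivalence S) (hSE : ∀ x y, S x y → Reach E x y)
    {u v : V} (h : Lead E S u v) : Reach E u v := by
  have key : Relation.ReflTransGen (St E S) u v := by
    unfold Lead at h
    induction h using Relation.ReflTransGen.head_induction_on with
    | refl => exact Relation.ReflTransGen.refl
    | @head a b hab _ ih =>
      rcases hab with (h | ⟨h, _⟩) | (h | ⟨h, hv⟩)
      · exact Relation.ReflTransGen.head (Or.inl h) ih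
      · exact Relation.ReflTransGen.head (Or.inr h) ih
      · exact Relation.ReflTransGen.head (Or.inl (hS.symm h)) ih
      · exact back hS ih b (hS.refl b) hv a h
  clear h
  induction key with
  | refl => exact Relation.ReflTransGen.refl
  | tail _ h ih => exact Relation.ReflTransGen.trans ih (reach_of_st hSE h)

/-- If `S` is mutual reachability and at most `k` arcs enter any sink set, then
`2 * k + 1` steps of `Lead` and `E` are enough. -/
theorem lead_complete [Finite V] {E : V → V → Prop} {k : ℕ}
    (hk : ∀ S : Set V, SinkSet E S → {e : V × V | e.1 ∉ S ∧ e.2 ∈ S ∧ E e.1 e.2}.ncard ≤ k)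
    {S : V → V → Prop} (hS : ∀ x y, S x y ↔ Reach E x y ∧ Reach E y x) {s t : V}
    (hst : Reach E s t) :
    iter (fun u v => Lead E S u v ∨ E u v) (Nat.log 2 k + 3) s t := by
  have hSe : Equivalence S := by
    refine ⟨fun x => ?_, fun {x y} h => ?_, fun {x y z} h h' => ?_⟩
    · rw [hS]
      exact ⟨Relation.ReflTransGen.refl, Relation.ReflTransGen.refl⟩
    · rw [hS] at h ⊢
      exact ⟨h.2, h.1⟩
    · rw [hS] at h h' ⊢
      exact ⟨Relation.ReflTransGen.trans h.1 h'.1, Relation.ReflTransGen.trans h'.2 h.2⟩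
  have h1 := hk {a | ¬ Reach E a t} (fun x hx y hxy hy => hx (Relation.ReflTransGen.head hxy hy))
  have h2 : {e : V × V | Reach E e.1 t ∧ ¬ Reach E e.2 t ∧ E e.1 e.2 ∧ Reach E s e.1}.ncard ≤ k := by
    refine (Set.ncard_le_ncard ?_ (Set.toFinite _)).trans h1
    intro e he
    exact ⟨fun h => h he.1, he.2.1, he.2.2.1⟩
  obtain ⟨n, hn, f, hf0, hf1, hf2⟩ := steps hS hSe k s h2 hst
  rw [← hf0, ← hf1]
  refine iter_of_chain (R := fun u v => Lead E S u v ∨ E u v) (fun x => Or.inl (Lead_refl E S x)) _ f n ?_ hf2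
  have h3 : k < 2 ^ (Nat.log 2 k + 1) := Nat.lt_pow_succ_log_self (by norm_num) k
  have h4 : (2 : ℕ) ^ (Nat.log 2 k + 3) = 4 * 2 ^ (Nat.log 2 k + 1) := by ring
  omega

end Pool.Agent.Lib.Pe46137S
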