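import Pool.Agent.Lib.Pe46137S.FmlBasic
import Pool.Agent.Lib.Pe46137S.Quot

/-!
# Formula for following the first exits of classes

PROOF of `lead_formula`.  `ε.at c d` (FmlBasic.lean, `sat_at`, `length_at`) says `S` at variables `c, d` not in `{0, 1}`.  Let variables
`2, 3` hold the values of `0, 1` (`.ex 2 (.and (.eq 2 0) (.ex 3 (.and (.eq 3 1) ..)))`).  `FirstExit` at variables `c, x, y` with auxiliary
`x', y'` is written with `.all`, `.imp`, `.or`, `.at` and arcs and `<`; `NextClass` at `c, d`: `.ex x (.ex y ..)`.  `Lead`: `.stc 1 4 θ ![2] ![3]`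
with variables `4` and `5` for the two vertices, `θ = .or (ε.at 4 5) (.and nextclass(4, 5) (.neg (ε.at 4 3)))`; transport
`Fin 1 → V ≃ V`.  `ψ = .or (that) (.rel .arc 0 1)`.  Give `ψ` as an explicit function of `ε` (a `def`), its length is
`m * ε.length + m'` with explicit numerals (`simp` with the length lemmas), take `c = m + m'`.
-/

namespace Pool.Agent.Lib.Pe46137S

namespace FmlLeadAux

theorem rtg_one {V : Type} (r : V → V → Prop) (f g : Fin 1 → V) :
    Relation.ReflTransGen (fun p q : Fin 1 → V => r (p 0) (q 0)) f g ↔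
      Relation.ReflTransGen r (f 0) (g 0) := by
  constructor
  · intro h
    exact Relation.ReflTransGen.lift (fun p : Fin 1 → V => p 0) (fun _ _ h => h) _ _ h
  · intro h
    have h1 := Relation.ReflTransGen.lift (r := r) (p := fun p q : Fin 1 → V => r (p 0) (q 0))
      (fun x : V => fun _ : Fin 1 => x) (fun _ _ h => h) _ _ h
    have e : ∀ f : Fin 1 → V, (fun _ : Fin 1 => f 0) = f := by
      intro f
      funext k
      rw [Subsingleton.elim k 0]
    have h2 : Relation.ReflTransGen (fun p q : Fin 1 → V => r (p 0) (q 0))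
      (fun _ => f 0) (fun _ => g 0) := h1
    rw [e, e] at h2
    exact h2

/-- The first exit. -/
def fe (ε : Fml Voc) : Fml Voc :=
  .and (ε.at 4 6) (.and (.rel .arc 6 7) (.and (.neg (ε.at 6 7))
    (.all 8 (.all 9 (.imp (ε.at 4 8) (.imp (.rel .arc 8 9) (.imp (.neg (ε.at 8 9))
      (.or (.rel .lt 6 8) (.and (.eq 6 8) (.or (.eq 7 9) (.rel .lt 7 9)))))))))))

/-- The next class. -/
def nc (ε : Fml Voc) : Fml Voc := .ex 6 (.ex 7 (.and (fe ε) (ε.at 7 5)))

/-- The step. -/
def th (ε : Fml Voc) : Fml Voc := .or (ε.at 4 5) (.and (nc ε) (.neg (ε.at 4 3)))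

/-- The formula. -/
def ps (ε : Fml Voc) : Fml Voc :=
  .or (.ex 2 (.and (.eq 2 0) (.ex 3 (.and (.eq 3 1) (.stc 1 4 (th ε) ![2] ![3]))))) (.rel .arc 0 1)

variable {V : Type} [LinearOrder V] {E S : V → V → Prop} {ε : Fml Voc}

theorem sat_fe (h : ∀ a : ℕ → V, Sat (str E) ε a ↔ S (a 0) (a 1)) (a : ℕ → V) :
    Sat (str E) (fe ε) a ↔ FirstExit E S (a 4) (a 6) (a 7) := by
  have h1 : ∀ {c d : ℕ} (_ : c ≠ 0) (_ : c ≠ 1) (_ : d ≠ 0) (_ : d ≠ 1) (a : ℕ → V),
    Sat (str E) (ε.at c d) a ↔ S (a c) (a d) := fun hc hc' hd hd' a => sat_at h hc hc' hd hd' a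
  unfold fe FirstExit
  simp only [sat_and, sat_rel, sat_neg, sat_all, sat_imp, sat_or, sat_eq, str]
  rw [h1 (by decide) (by decide) (by decide) (by decide),
    h1 (by decide) (by decide) (by decide) (by decide)]
  simp only [h1 (c := 4) (d := 8) (by decide) (by decide) (by decide) (by decide),
    h1 (c := 8) (d := 9) (by decide) (by decide) (by decide) (by decide)]
  simp

theorem sat_nc (h : ∀ a : ℕ → V, Sat (str E) ε a ↔ S (a 0) (a 1)) (a : ℕ → V) :
    Sat (str E) (nc ε) a ↔ NextClass E S (a 4) (a 5) := by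
  unfold nc NextClass
  simp only [sat_and, sat_ex, sat_fe h,
    sat_at h (c := 7) (d := 5) (by decide) (by decide) (by decide) (by decide)]
  simp

theorem sat_th (h : ∀ a : ℕ → V, Sat (str E) ε a ↔ S (a 0) (a 1)) (a : ℕ → V) :
    Sat (str E) (th ε) a ↔ (S (a 4) (a 5) ∨ NextClass E S (a 4) (a 5) ∧ ¬ S (a 4) (a 3)) := by
  unfold th
  simp only [sat_and, sat_or, sat_neg, sat_nc h,
    sat_at h (c := 4) (d := 5) (by decide) (by decide) (by decide) (by decide),
    sat_at h (c := 4) (d := 3) (by decide) (by decide) (by decide) (by decide)]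

theorem sat_step (h : ∀ a : ℕ → V, Sat (str E) ε a ↔ S (a 0) (a 1)) (a : ℕ → V)
    (p q : Fin 1 → V) :
    Sat (str E) (th ε) (setBlock (setBlock a 4 p) (4 + 1) q) ↔
      (S (p 0) (q 0) ∨ NextClass E S (p 0) (q 0) ∧ ¬ S (p 0) (a 3)) := by
  rw [sat_th h]
  simp [setBlock]

theorem sat_ps (h : ∀ a : ℕ → V, Sat (str E) ε a ↔ S (a 0) (a 1)) (a : ℕ → V) :
    Sat (str E) (ps ε) a ↔ (Lead E S (a 0) (a 1) ∨ E (a 0) (a 1)) := by
  unfold ps Lead
  rw [sat_or]
  apply or_congr
  · simp only [sat_ex, sat_and, sat_eq, sat_stc, sat_step h]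
    have key : ∀ u v : V, (Relation.ReflTransGen (fun p q : Fin 1 → V =>
        (S (p 0) (q 0) ∨ NextClass E S (p 0) (q 0) ∧
          ¬ S (p 0) (Function.update (Function.update a 2 u) 3 v 3)) ∨
        (S (q 0) (p 0) ∨ NextClass E S (q 0) (p 0) ∧
          ¬ S (q 0) (Function.update (Function.update a 2 u) 3 v 3)))
        (fun k => Function.update (Function.update a 2 u) 3 v (![2] k))
        (fun k => Function.update (Function.update a 2 u) 3 v (![3] k))) ↔
        Relation.ReflTransGen (fun x y => (S x y ∨ NextClass E S x y ∧ ¬ S x v) ∨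
          (S y x ∨ NextClass E S y x ∧ ¬ S y v)) u v := by
      intro u v
      have e1 : Function.update (Function.update a 2 u) 3 v 3 = v := by simp
      have e2 : Function.update (Function.update a 2 u) 3 v 2 = u := by simp
      rw [e1, rtg_one (fun x y : V => (S x y ∨ NextClass E S x y ∧ ¬ S x v) ∨
          (S y x ∨ NextClass E S y x ∧ ¬ S y v))]
      have e3 : Function.update (Function.update a 2 u) 3 v ((![2] : Fin 1 → ℕ) 0) = u := e2
      have e4 : Function.update (Function.update a 2 u) 3 v ((![3] : Fin 1 → ℕ) 0) = v := e1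
      rw [e3, e4]
    simp only [key]
    simp
  · rfl

theorem length_ps (ε : Fml Voc) : (ps ε).length ≤ 200 * (ε.length + 1) := by
  simp only [ps, th, nc, fe, length_or, length_ex, length_and, length_eq, length_stc, length_at,
    length_neg, length_rel, length_all, length_imp]
  omega

end FmlLeadAux

open FmlLeadAux

theorem lead_formula : ∃ c : ℕ, ∀ ε : Fml Voc, ∃ ψ : Fml Voc, ψ.length ≤ c * (ε.length + 1) ∧
    ∀ (V : Type) [LinearOrder V] (E S : V → V → Prop),
      (∀ a : ℕ → V, Sat (str E) ε a ↔ S (a 0) (a 1)) →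
      ∀ a : ℕ → V, Sat (str E) ψ a ↔ (Lead E S (a 0) (a 1) ∨ E (a 0) (a 1)) := by
  refine ⟨200, fun ε => ⟨ps ε, length_ps ε, fun V _ E S h a => sat_ps h a⟩⟩

end Pool.Agent.Lib.Pe46137S
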