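import Pool.Agent.Lib.Pe46137S.TrailDefs

/-!
# Basic properties of trails

PROOFS.  `follows_right_unique`: `f.1 = e.2 = f'.1` and `outRank E y z = outRank E y z'` with both `E y z`, `E y z'` gives `z = z'`
(if `z < z'` the set `{z'' | z'' < z ∧ ..}` is a proper subset of the other one, containing not `z`; finite).  Likewise
`follows_left_unique` with `inRank`.  `onTrail_sound`: induction along the closure (`Follows E e f` has `e.2 = f.1` and arcs).
`ncard_start_le`: the ranks `outRank E x z` of the out-neighbours `z` of `x` are exactly `0, ..., outdeg - 1`, each once, and the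
ranks `inRank E x w` of the in-neighbours are exactly `0, ..., indeg - 1`; an arc `(x, z)` with `outRank E x z < indeg` follows the
arc `(w, x)` with that `inRank`; so the arcs not following any arc have `indeg ≤ outRank < outdeg` and the rank is injective.
`exists_start`: `Follows E` is a partial injection of the finite set `A`; take `B` = set of all `b` with
`ReflTransGen (fun a b => Follows E a b ∧ a ∈ A ∧ b ∈ A) b e`, finite, contains `e`.  If some `b ∈ B` follows no arc of `A`: second case.
Otherwise choose for every `b ∈ B` a predecessor `pre b ∈ A`, then `pre b ∈ B`; `pre` is injective on `B` (follows_right_unique),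
so it is a bijection of `B` and `e = pre b` for some `b ∈ B`, i.e. `Follows E e b`, and with `ReflTransGen b e` we get a
closed trail: if `b = e`, `e' = e`; else the last step of `b ... e' → e` gives `e'` with `Follows E e' e`, `e →* e'`.
-/

namespace Pool.Agent.Lib.Pe46137S

variable {V : Type} [Finite V] [LinearOrder V] {E : V → V → Prop}

omit [Finite V] in
private theorem rank_mono (P : V → Prop) {z z' : V} (h : z < z') :
    {y | y < z ∧ P y} ⊆ {y | y < z' ∧ P y} := fun _ hy => ⟨hy.1.trans h, hy.2⟩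

private theorem rank_lt (P : V → Prop) {z z' : V} (h : z < z') (hz : P z) :
    {y | y < z ∧ P y}.ncard < {y | y < z' ∧ P y}.ncard := by
  apply Set.ncard_lt_ncard _ (Set.toFinite _)
  refine ⟨rank_mono P h, fun hsub => ?_⟩
  exact lt_irrefl z (hsub (show z ∈ {y | y < z' ∧ P y} from ⟨h, hz⟩)).1

private theorem rank_inj (P : V → Prop) {z z' : V} (hz : P z) (hz' : P z')
    (h : {y | y < z ∧ P y}.ncard = {y | y < z' ∧ P y}.ncard) : z = z' := by
  rcases lt_trichotomy z z' with hlt | heq | hlt
  · exact absurd h (rank_lt P hlt hz).ne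
  · exact heq
  · exact absurd h.symm (rank_lt P hlt hz').ne

private theorem rank_lt_card (P : V → Prop) {z : V} (hz : P z) :
    {y | y < z ∧ P y}.ncard < {y | P y}.ncard := by
  apply Set.ncard_lt_ncard _ (Set.toFinite _)
  refine ⟨fun y hy => hy.2, fun hsub => ?_⟩
  exact lt_irrefl z (hsub (show z ∈ {y | P y} from hz)).1

private theorem rank_surj (P : V → Prop) {i : ℕ} (hi : i < {y | P y}.ncard) :
    ∃ z, P z ∧ {y | y < z ∧ P y}.ncard = i := by
  have h1 : (fun z => {y | y < z ∧ P y}.ncard) '' {y | P y} = Set.Iio {y | P y}.ncard := by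
    apply Set.eq_of_subset_of_ncard_le _ _ (Set.finite_Iio _)
    · rintro _ ⟨z, hz, rfl⟩
      exact rank_lt_card P hz
    · have hi : Set.InjOn (fun z => {y | y < z ∧ P y}.ncard) {y | P y} :=
        fun z hz z' hz' h => rank_inj P hz hz' h
      rw [hi.ncard_image, Set.ncard_eq_toFinset_card' (Set.Iio _)]
      simp
  have h2 : i ∈ (fun z => {y | y < z ∧ P y}.ncard) '' {y | P y} := by
    rw [h1]
    exact hi
  obtain ⟨z, hz, h3⟩ := h2
  exact ⟨z, hz, h3⟩

theorem follows_right_unique {e f f' : V × V} (h : Follows E e f) (h' : Follows E e f') :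
    f = f' := by
  obtain ⟨h1, _, h3, h4⟩ := h
  obtain ⟨h1', _, h3', h4'⟩ := h'
  obtain ⟨y, z⟩ := f
  obtain ⟨y', z'⟩ := f'
  simp only at h1 h3 h4 h1' h3' h4'
  subst h1
  subst h1'
  rw [rank_inj (fun z => E e.2 z) h3 h3' (h4.symm.trans h4')]

theorem follows_left_unique {e e' f : V × V} (h : Follows E e f) (h' : Follows E e' f) :
    e = e' := by
  obtain ⟨h1, h2, _, h4⟩ := h
  obtain ⟨h1', h2', _, h4'⟩ := h'
  obtain ⟨w, y⟩ := e
  obtain ⟨w', y'⟩ := e'
  simp only at h1 h2 h4 h1' h2' h4'
  subst h1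
  subst h1'
  rw [rank_inj (fun w => E w f.1) h2 h2' (h4.trans h4'.symm)]

omit [Finite V] in
theorem onTrail_of_arc {x y : V} (h : E x y) : OnTrail E x y :=
  Or.inr ⟨y, x, h, h, Relation.ReflTransGen.refl⟩

omit [Finite V] in
theorem onTrail_sound {x y : V} (h : OnTrail E x y) : Reach E x y := by
  rcases h with rfl | ⟨w, z, hw, _, h⟩
  · exact Relation.ReflTransGen.refl
  · have key : ∀ f : V × V, Relation.ReflTransGen (Follows E) (x, w) f → Reach E x f.2 := by
      intro f hf
      induction hf with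
      | refl => exact Relation.ReflTransGen.single hw
      | tail _ hgf ih =>
        obtain ⟨h1, _, h3, _⟩ := hgf
        rw [h1] at ih
        exact Relation.ReflTransGen.tail ih h3
    exact key _ h

/-- The arcs leaving `x` that follow no arc are at most as many as the surplus of the out-degree
of `x` over its in-degree. -/
theorem ncard_start_le (x : V) :
    {z | E x z ∧ ¬ ∃ w, Follows E (w, x) (x, z)}.ncard ≤
      {z | E x z}.ncard - {w | E w x}.ncard := by
  have h1 : {z | E x z ∧ ¬ ∃ w, Follows E (w, x) (x, z)}.ncard ≤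
      (Set.Ico {w | E w x}.ncard {z | E x z}.ncard).ncard := by
    apply Set.ncard_le_ncard_of_injOn (fun z => outRank E x z) _ _ (Set.finite_Ico _ _)
    · rintro z ⟨hz, hno⟩
      refine ⟨?_, rank_lt_card (fun z => E x z) hz⟩
      by_contra hlt
      rw [not_le] at hlt
      obtain ⟨w, hw, hr⟩ := rank_surj (fun w => E w x) hlt
      exact hno ⟨w, rfl, hw, hz, hr⟩
    · rintro z ⟨hz, _⟩ z' ⟨hz', _⟩ h
      exact rank_inj (fun z => E x z) hz hz' h
  refine h1.trans (le_of_eq ?_)
  rw [Set.ncard_eq_toFinset_card' (Set.Ico _ _)]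
  simp

/-- Going back from an arc of a set `A` of arcs, one returns to it, or reaches an arc of `A` that
follows no arc of `A`; all arcs met belong to `A`. -/
theorem exists_start (A : Set (V × V)) {e : V × V} (he : e ∈ A) :
    (∃ e' ∈ A, Follows E e' e ∧
      Relation.ReflTransGen (fun a b => Follows E a b ∧ a ∈ A ∧ b ∈ A) e e') ∨
    ∃ b ∈ A, (∀ a ∈ A, ¬ Follows E a b) ∧
      Relation.ReflTransGen (fun a b => Follows E a b ∧ a ∈ A ∧ b ∈ A) b e := by
  classical
  by_cases hstart : ∃ b ∈ A, (∀ a ∈ A, ¬ Follows E a b) ∧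
      Relation.ReflTransGen (fun a b => Follows E a b ∧ a ∈ A ∧ b ∈ A) b e
  · exact Or.inr hstart
  left
  set B : Set (V × V) := {b | b ∈ A ∧
    Relation.ReflTransGen (fun a b => Follows E a b ∧ a ∈ A ∧ b ∈ A) b e} with hB
  have hpre : ∀ b : V × V, ∃ a : V × V, b ∈ B → a ∈ A ∧ Follows E a b := by
    intro b
    by_cases hb : b ∈ B
    · have : ¬ ∀ a ∈ A, ¬ Follows E a b := fun h => hstart ⟨b, hb.1, h, hb.2⟩
      push Not at this
      obtain ⟨a, ha, hab⟩ := this
      exact ⟨a, fun _ => ⟨ha, hab⟩⟩
    · exact ⟨b, fun h => absurd h hb⟩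
  choose pre hpre using hpre
  have hmaps : Set.MapsTo pre B B := by
    intro b hb
    obtain ⟨h1, h2⟩ := hpre b hb
    exact ⟨h1, Relation.ReflTransGen.head ⟨h2, h1, hb.1⟩ hb.2⟩
  have hinj : Set.InjOn pre B := by
    intro b hb b' hb' h
    have h1 := (hpre b hb).2
    have h2 := (hpre b' hb').2
    rw [← h] at h2
    exact follows_right_unique h1 h2
  have hsurj : Set.SurjOn pre B B := by
    have h1 : pre '' B = B := by
      apply Set.eq_of_subset_of_ncard_le _ _ (Set.toFinite _)
      · rintro _ ⟨b, hb, rfl⟩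
        exact hmaps hb
      · rw [hinj.ncard_image]
    intro b hb
    rw [h1]
    exact hb
  obtain ⟨b, hb, hbe⟩ := hsurj (show e ∈ B from ⟨he, Relation.ReflTransGen.refl⟩)
  have hfb : Follows E e b := hbe ▸ (hpre b hb).2
  rcases Relation.ReflTransGen.cases_tail hb.2 with h | ⟨c, hbc, hce⟩
  · rw [← h] at hfb
    exact ⟨e, he, hfb, Relation.ReflTransGen.refl⟩
  · exact ⟨c, hce.2.1, hce.1, Relation.ReflTransGen.head ⟨hfb, he, hb.1⟩ hbc⟩

end Pool.Agent.Lib.Pe46137S
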