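import Pool.Agent.Lib.Pe46137S.FmlBasic
import Pool.Agent.Lib.Pe46137S.TrailBasic

/-!
# Formula for the pairing of in-neighbours and out-neighbours

PROOF of `follows_formula`.  Let `x = a 4, y = a 5, y' = a 6, z = a 7`.  `Follows` says `y = y'`, `E x y`, `E y z` and
`inRank E y x = outRank E y z`.  The last condition: the pair `(x, z)` is reached by the walk `(p, q) → (p⁺, q⁺)` starting at
`(p0, q0)`, where `p0` is the first in-neighbour and `q0` the first out-neighbour of `y`, `p⁺` the next in-neighbour and `q⁺` the next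
out-neighbour.  As `(p, q) → (p⁺, q⁺)` changes both ranks by one, the difference of the ranks is constant along the symmetric
closure; conversely from `(x, z)` with equal ranks go down to `(p0, q0)` by induction on the rank.  So
`ψ = .and (.eq 5 6) (.and E45 (.and E67 (.ex 8 (.ex 9 (.and first-in(8) (.and first-out(9) (.stc 2 10 step ![8, 9] ![4, 7]))))))`,
variables `10, 11` (first pair), `12, 13` (second pair), auxiliary variable `14`; step = `E 10 5, E 12 5, 10 < 12`, no in-neighbour `14` of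
`5` strictly between; `E 5 11, E 5 13, 11 < 13`, no out-neighbour `14` strictly between.  (If the ranks are to be equal and both
`E x y`, `E y z`, then first in- and out-neighbours exist by finiteness.)
-/

namespace Pool.Agent.Lib.Pe46137S

namespace FmlPairAux

variable {V : Type} [LinearOrder V]

/-- The next element with the property `P`. -/
def Nx (P : V → Prop) (p p' : V) : Prop := P p ∧ P p' ∧ p < p' ∧ ¬ ∃ r, P r ∧ p < r ∧ r < p'

/-- The first element with the property `P`. -/
def Fst (P : V → Prop) (p : V) : Prop := P p ∧ ¬ ∃ r, P r ∧ r < p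

/-- The rank. -/
noncomputable def rk (P : V → Prop) (x : V) : ℕ := {y | y < x ∧ P y}.ncard

theorem rk_fst [Finite V] {P : V → Prop} {p : V} (h : Fst P p) : rk P p = 0 := by
  unfold rk
  rw [Set.ncard_eq_zero (Set.toFinite _), Set.eq_empty_iff_forall_notMem]
  rintro r ⟨hr, hPr⟩
  exact h.2 ⟨r, hPr, hr⟩

theorem fst_of_rk [Finite V] {P : V → Prop} {p : V} (hp : P p) (h : rk P p = 0) : Fst P p := by
  unfold rk at h
  rw [Set.ncard_eq_zero (Set.toFinite _), Set.eq_empty_iff_forall_notMem] at h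
  refine ⟨hp, ?_⟩
  rintro ⟨r, hPr, hr⟩
  exact h r ⟨hr, hPr⟩

theorem rk_nx [Finite V] {P : V → Prop} {p p' : V} (h : Nx P p p') : rk P p' = rk P p + 1 := by
  obtain ⟨h1, _, h3, h4⟩ := h
  have e : {y | y < p' ∧ P y} = insert p {y | y < p ∧ P y} := by
    ext y
    simp only [Set.mem_ofPred_eq, Set.mem_insert_iff]
    constructor
    · rintro ⟨h5, h6⟩
      rcases lt_trichotomy y p with h7 | h7 | h7
      · exact Or.inr ⟨h7, h6⟩
      · exact Or.inl h7
      · exact absurd ⟨y, h6, h7, h5⟩ h4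
    · rintro (rfl | ⟨h5, h6⟩)
      · exact ⟨h3, h1⟩
      · exact ⟨h5.trans h3, h6⟩
  unfold rk
  rw [e, Set.ncard_insert_of_notMem _ (Set.toFinite _)]
  rintro ⟨h5, _⟩
  exact lt_irrefl _ h5

theorem exists_prev [Finite V] {P : V → Prop} {x : V} (hx : P x) {n : ℕ} (h : rk P x = n + 1) :
    ∃ p, Nx P p x ∧ rk P p = n := by
  have hne : ({y | y < x ∧ P y} : Set V).Nonempty := by
    rw [← Set.ncard_pos (Set.toFinite _)]
    change 0 < rk P x
    omega
  obtain ⟨p, ⟨hp1, hp2⟩, hp3⟩ := Set.exists_max_image {y | y < x ∧ P y} id (Set.toFinite _) hne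
  have hN : Nx P p x := by
    refine ⟨hp2, hx, hp1, ?_⟩
    rintro ⟨r, h1, h2, h3⟩
    exact absurd (hp3 r ⟨h3, h1⟩) (not_le.2 h2)
  refine ⟨p, hN, ?_⟩
  have := rk_nx hN
  omega

/-- A step. -/
def TT (P R : V → Prop) (p q : Fin 2 → V) : Prop := Nx P (p 0) (q 0) ∧ Nx R (p 1) (q 1)

theorem complete [Finite V] {P R : V → Prop} (n : ℕ) : ∀ g : Fin 2 → V, P (g 0) → R (g 1) →
    rk P (g 0) = n → rk R (g 1) = n → ∃ f : Fin 2 → V, Fst P (f 0) ∧ Fst R (f 1) ∧
      Relation.ReflTransGen (fun p q => TT P R p q ∨ TT P R q p) f g := by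
  induction n with
  | zero =>
    intro g h1 h2 h3 h4
    exact ⟨g, fst_of_rk h1 h3, fst_of_rk h2 h4, Relation.ReflTransGen.refl⟩
  | succ n ih =>
    intro g h1 h2 h3 h4
    obtain ⟨p, hp1, hp2⟩ := exists_prev h1 h3
    obtain ⟨q, hq1, hq2⟩ := exists_prev h2 h4
    obtain ⟨f, hf1, hf2, hf3⟩ := ih ![p, q] hp1.1 hq1.1 hp2 hq2
    exact ⟨f, hf1, hf2, hf3.tail (Or.inl ⟨hp1, hq1⟩)⟩

theorem sound [Finite V] {P R : V → Prop} {f g : Fin 2 → V} (h1 : Fst P (f 0)) (h2 : Fst R (f 1))
    (h : Relation.ReflTransGen (fun p q => TT P R p q ∨ TT P R q p) f g) :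
    rk P (g 0) = rk R (g 1) := by
  induction h with
  | refl => rw [rk_fst h1, rk_fst h2]
  | tail _ h ih =>
    rcases h with h | h
    · rw [rk_nx h.1, rk_nx h.2, ih]
    · rw [rk_nx h.1, rk_nx h.2] at ih
      omega

/-- The first in-neighbour of `5`. -/
def fi (i : ℕ) : Fml Voc :=
  .and (.rel .arc i 5) (.neg (.ex 14 (.and (.rel .arc 14 5) (.rel .lt 14 i))))

/-- The first out-neighbour of `5`. -/
def fo (i : ℕ) : Fml Voc :=
  .and (.rel .arc 5 i) (.neg (.ex 14 (.and (.rel .arc 5 14) (.rel .lt 14 i))))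

/-- The next in-neighbour of `5`. -/
def ni (i j : ℕ) : Fml Voc :=
  .and (.rel .arc i 5) (.and (.rel .arc j 5) (.and (.rel .lt i j)
    (.neg (.ex 14 (.and (.rel .arc 14 5) (.and (.rel .lt i 14) (.rel .lt 14 j)))))))

/-- The next out-neighbour of `5`. -/
def no (i j : ℕ) : Fml Voc :=
  .and (.rel .arc 5 i) (.and (.rel .arc 5 j) (.and (.rel .lt i j)
    (.neg (.ex 14 (.and (.rel .arc 5 14) (.and (.rel .lt i 14) (.rel .lt 14 j)))))))

theorem sat_fi (E : V → V → Prop) (i : ℕ) (hi : i ≠ 14) (a : ℕ → V) :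
    Sat (str E) (fi i) a ↔ Fst (fun r => E r (a 5)) (a i) := by
  simp only [fi, sat_and, sat_rel, sat_neg, sat_ex, str, Fst]
  simp [hi]

theorem sat_fo (E : V → V → Prop) (i : ℕ) (hi : i ≠ 14) (a : ℕ → V) :
    Sat (str E) (fo i) a ↔ Fst (fun r => E (a 5) r) (a i) := by
  simp only [fo, sat_and, sat_rel, sat_neg, sat_ex, str, Fst]
  simp [hi]

theorem sat_ni (E : V → V → Prop) (i j : ℕ) (hi : i ≠ 14) (hj : j ≠ 14) (a : ℕ → V) :
    Sat (str E) (ni i j) a ↔ Nx (fun r => E r (a 5)) (a i) (a j) := by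
  simp only [ni, sat_and, sat_rel, sat_neg, sat_ex, str, Nx]
  simp [hi, hj]

theorem sat_no (E : V → V → Prop) (i j : ℕ) (hi : i ≠ 14) (hj : j ≠ 14) (a : ℕ → V) :
    Sat (str E) (no i j) a ↔ Nx (fun r => E (a 5) r) (a i) (a j) := by
  simp only [no, sat_and, sat_rel, sat_neg, sat_ex, str, Nx]
  simp [hi, hj]

/-- The formula. -/
def fol : Fml Voc :=
  .and (.eq 5 6) (.and (.rel .arc 4 5) (.and (.rel .arc 6 7) (.ex 8 (.ex 9
    (.and (fi 8) (.and (fo 9) (.stc 2 10 (.and (ni 10 12) (no 11 13)) ![8, 9] ![4, 7])))))))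

theorem sat_step (E : V → V → Prop) (a : ℕ → V) (p q : Fin 2 → V) :
    (Sat (str E) (ni 10 12) (setBlock (setBlock a 10 p) (10 + 2) q) ∧
      Sat (str E) (no 11 13) (setBlock (setBlock a 10 p) (10 + 2) q)) ↔
      TT (fun r => E r (a 5)) (fun r => E (a 5) r) p q := by
  rw [sat_ni E 10 12 (by decide) (by decide), sat_no E 11 13 (by decide) (by decide)]
  simp [setBlock, TT]

end FmlPairAux

open FmlPairAux

/-- Some formula says that the arc `(6, 7)` follows the arc `(4, 5)`. -/
theorem follows_formula : ∃ ψ : Fml Voc, ∀ (V : Type) [Finite V] [LinearOrder V]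
    (E : V → V → Prop) (a : ℕ → V),
    Sat (str E) ψ a ↔ Follows E (a 4, a 5) (a 6, a 7) := by
  refine ⟨fol, fun V _ _ E a => ?_⟩
  unfold fol Follows
  simp only [sat_and, sat_eq, sat_rel, sat_ex, sat_stc, str]
  constructor
  · rintro ⟨h1, h2, h3, p, q, h4, h5, h6⟩
    refine ⟨h1, h2, h3, ?_⟩
    rw [sat_fi E 8 (by decide)] at h4
    rw [sat_fo E 9 (by decide)] at h5
    simp only [sat_step] at h6
    have h7 := sound (P := fun r => E r (a 5)) (R := fun r => E (a 5) r)
      (f := fun k => Function.update (Function.update a 8 p) 9 q (![8, 9] k))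
      (g := fun k => Function.update (Function.update a 8 p) 9 q (![4, 7] k))
      (by simpa [Function.update_apply] using h4) (by simpa [Function.update_apply] using h5)
      (by simpa [Function.update_apply] using h6)
    simp only [Function.update_apply] at h7
    rw [← h1]
    simpa [rk, inRank, outRank] using h7
  · rintro ⟨h1, h2, h3, h4⟩
    refine ⟨h1, h2, h3, ?_⟩
    rw [← h1] at h3 h4
    obtain ⟨f, hf1, hf2, hf3⟩ := complete (P := fun r => E r (a 5)) (R := fun r => E (a 5) r)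
      (rk (fun r => E r (a 5)) (a 4)) ![a 4, a 7] h2 h3 rfl h4.symm
    refine ⟨f 0, f 1, ?_, ?_, ?_⟩
    · rw [sat_fi E 8 (by decide)]
      simpa [Function.update_apply] using hf1
    · rw [sat_fo E 9 (by decide)]
      simpa [Function.update_apply] using hf2
    · simp only [sat_step]
      have e1 : (fun k : Fin 2 => Function.update (Function.update a 8 (f 0)) 9 (f 1) (![8, 9] k)) = f := by
        funext k
        fin_cases k <;> simp
      have e2 : (fun k : Fin 2 => Function.update (Function.update a 8 (f 0)) 9 (f 1) (![4, 7] k)) =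
          ![a 4, a 7] := by
        funext k
        fin_cases k <;> simp
      rw [e1, e2]
      simpa [Function.update_apply] using hf3

end Pool.Agent.Lib.Pe46137S
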