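import Pool.Agent.Lib.Pe46137S.Defs

/-!
# Basic properties of the operator
-/

namespace Pool.Agent.Lib.Pe46137S

variable {V : Type} {R R' : V → V → Prop}

theorem Sim.refl (x : V) : Sim R x x := Relation.ReflTransGen.refl

theorem Sim.symm {x y : V} (h : Sim R x y) : Sim R y x := by
  unfold Sim at *
  induction h with
  | refl => exact Relation.ReflTransGen.refl
  | tail _ h ih => exact Relation.ReflTransGen.head ⟨h.2, h.1⟩ ih

theorem Sim.trans {x y z : V} (h : Sim R x y) (h' : Sim R y z) : Sim R x z :=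
  Relation.ReflTransGen.trans h h'

theorem Sim.of {x y : V} (h : R x y) (h' : R y x) : Sim R x y :=
  Relation.ReflTransGen.single ⟨h, h'⟩

theorem Sim.mono (h : ∀ x y, R x y → R' x y) {x y : V} (hs : Sim R x y) : Sim R' x y := by
  unfold Sim at *
  induction hs with
  | refl => exact Relation.ReflTransGen.refl
  | tail _ h' ih => exact ih.tail ⟨h _ _ h'.1, h _ _ h'.2⟩

theorem Phi.mono (h : ∀ x y, R x y → R' x y) {x y : V} (hs : Phi R x y) : Phi R' x y := by
  obtain ⟨w, w', h1, h2, h3⟩ := hs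
  exact ⟨w, w', h _ _ h1, h2.mono h, h _ _ h3⟩

theorem Phi.of_comp {x y z : V} (h : R x y) (h' : R y z) : Phi R x z :=
  ⟨y, y, h, Sim.refl y, h'⟩

theorem Phi.of (hr : ∀ x, R x x) {x y : V} (h : R x y) : Phi R x y :=
  Phi.of_comp h (hr y)

theorem Phi.of_sim (hr : ∀ x, R x x) {x y : V} (h : Sim R x y) : Phi R x y :=
  ⟨x, y, hr x, h, hr y⟩

theorem Phi.refl (hr : ∀ x, R x x) (x : V) : Phi R x x := Phi.of hr (hr x)

theorem iter_refl (hr : ∀ x, R x x) (j : ℕ) (x : V) : iter R j x x := by
  induction j with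
  | zero => exact hr x
  | succ j ih =>
    exact ⟨x, x, ih, Sim.refl x, ih⟩

theorem iter_succ_of (hr : ∀ x, R x x) (j : ℕ) {x y : V} (h : iter R j x y) :
    iter R (j + 1) x y := Phi.of (iter_refl hr j) h

theorem iter_le (hr : ∀ x, R x x) {i j : ℕ} (hij : i ≤ j) {x y : V} (h : iter R i x y) :
    iter R j x y := by
  induction hij with
  | refl => exact h
  | step _ ih => exact iter_succ_of hr _ ih

theorem iter_mono (h : ∀ x y, R x y → R' x y) (j : ℕ) {x y : V} (hs : iter R j x y) :
    iter R' j x y := by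
  induction j generalizing x y with
  | zero => exact h _ _ hs
  | succ j ih => exact Phi.mono (fun _ _ h => ih h) hs

theorem iter_comp {j : ℕ} {x y z : V} (h : iter R j x y) (h' : iter R j y z) :
    iter R (j + 1) x z := Phi.of_comp h h'

theorem iter_iter (i j : ℕ) : iter (iter R i) j = iter R (i + j) := by
  induction j with
  | zero => rfl
  | succ j ih => rw [← Nat.add_assoc]; change Phi _ = Phi _; rw [ih]

/-- `2 ^ j` steps. -/
theorem iter_of_chain (hr : ∀ x, R x x) (j : ℕ) (f : ℕ → V) (m : ℕ) (hm : m ≤ 2 ^ j)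
    (h : ∀ i < m, R (f i) (f (i + 1))) : iter R j (f 0) (f m) := by
  induction j generalizing f m with
  | zero =>
    have : m ≤ 1 := by simpa using hm
    interval_cases m
    · exact hr _
    · exact h 0 (by omega)
  | succ j ih =>
    rcases Nat.lt_or_ge (2 ^ j) m with h1 | h1
    · refine iter_comp (y := f (2 ^ j)) (ih f _ le_rfl fun i hi => h i (by omega)) ?_
      have := ih (fun i => f (2 ^ j + i)) (m - 2 ^ j) (by rw [pow_succ] at hm; omega)
        fun i hi => h (2 ^ j + i) (by omega)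
      simpa [Nat.add_sub_cancel' h1.le] using this
    · exact iter_succ_of hr j (ih f m h1 h)

theorem Sim.sound {Q : V → V → Prop} (hQr : ∀ x, Q x x) (hQ : ∀ x y z, Q x y → Q y z → Q x z)
    (h : ∀ x y, R x y → Q x y) {x y : V} (hs : Sim R x y) : Q x y := by
  unfold Sim at hs
  induction hs with
  | refl => exact hQr x
  | tail _ h' ih => exact hQ _ _ _ ih (h _ _ h'.1)

theorem iter_sound {Q : V → V → Prop} (hQr : ∀ x, Q x x) (hQ : ∀ x y z, Q x y → Q y z → Q x z)
    (h : ∀ x y, R x y → Q x y) (j : ℕ) {x y : V} (hs : iter R j x y) : Q x y := by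
  induction j generalizing x y with
  | zero => exact h _ _ hs
  | succ j ih =>
    obtain ⟨w, w', h1, h2, h3⟩ := hs
    exact hQ _ _ _ (ih h1) (hQ _ _ _ (Sim.sound hQr hQ (fun _ _ h => ih h) h2) (ih h3))

end Pool.Agent.Lib.Pe46137S
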