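import Pool.Agent.Lib.Pe46137S.FmlBasic
import Pool.Agent.Lib.Pe46137S.Op

/-!
# Formulas for the operator, and for the generated equivalence relation

The operator needs only one occurrence of the formula.  The nodes of the closure are pairs: `(y, x)`
is the start, `(x, w)` the middle vertex `w`, `(y, y)` the end (`x` and `y` are different here).
-/

namespace Pool.Agent.Lib.Pe46137S

variable {ρ V : Type} {R : ρ → V → V → Prop}

/-- `(4, 5) = (2, w)` and `(6, 7) = (2, w')`. -/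
def midmid : Fml ρ := .and (.eq 4 2) (.eq 6 2)

/-- The step relation between the pairs of variables `(4, 5)` and `(6, 7)`, where the variables
`2, 3` hold `x, y`. -/
def phiStep (φ : Fml ρ) : Fml ρ :=
  .and (.or (.and (.eq 4 3) (.and (.eq 5 2) (.eq 6 2)))
      (.or midmid (.and (.eq 4 2) (.and (.eq 6 3) (.eq 7 3)))))
    (.all 0 (.all 1 (.imp (.or (.and (.eq 0 5) (.eq 1 7))
      (.and midmid (.and (.eq 0 7) (.eq 1 5)))) φ)))

/-- The formula for the operator. -/
def Fml.phi (φ : Fml ρ) : Fml ρ :=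
  .or (.eq 0 1) (.ex 2 (.and (.eq 2 0) (.ex 3 (.and (.eq 3 1)
    (.stc 2 4 (phiStep φ) ![3, 2] ![3, 3])))))

theorem length_phi (φ : Fml ρ) : φ.phi.length ≤ φ.length + 100 := by
  simp only [Fml.phi, phiStep, midmid, length_or, length_eq, length_ex, length_and, length_stc,
    length_all, length_imp]
  omega

private theorem sat_phiStep {φ : Fml ρ} {Q : V → V → Prop}
    (h : ∀ a, Sat R φ a ↔ Q (a 0) (a 1)) (B : ℕ → V) :
    Sat R (phiStep φ) B ↔
      ((B 4 = B 3 ∧ B 5 = B 2 ∧ B 6 = B 2) ∨ ((B 4 = B 2 ∧ B 6 = B 2) ∨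
        (B 4 = B 2 ∧ B 6 = B 3 ∧ B 7 = B 3))) ∧
      ∀ c d, ((c = B 5 ∧ d = B 7) ∨ ((B 4 = B 2 ∧ B 6 = B 2) ∧ c = B 7 ∧ d = B 5)) → Q c d := by
  simp only [phiStep, midmid, sat_and, sat_or, sat_eq, sat_all, sat_imp, h]
  simp [Function.update_apply]

private theorem step_iff {φ : Fml ρ} {Q : V → V → Prop}
    (h : ∀ a, Sat R φ a ↔ Q (a 0) (a 1)) (b : ℕ → V) (p q : Fin 2 → V) :
    Sat R (phiStep φ) (setBlock (setBlock b 4 p) (4 + 2) q) ↔
      ((p 0 = b 3 ∧ p 1 = b 2 ∧ q 0 = b 2) ∨ ((p 0 = b 2 ∧ q 0 = b 2) ∨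
        (p 0 = b 2 ∧ q 0 = b 3 ∧ q 1 = b 3))) ∧
      ∀ c d, ((c = p 1 ∧ d = q 1) ∨ ((p 0 = b 2 ∧ q 0 = b 2) ∧ c = q 1 ∧ d = p 1)) → Q c d := by
  rw [sat_phiStep h]
  have e2 : setBlock (setBlock b 4 p) (4 + 2) q 2 = b 2 := by simp [setBlock]
  have e3 : setBlock (setBlock b 4 p) (4 + 2) q 3 = b 3 := by simp [setBlock]
  have e4 : setBlock (setBlock b 4 p) (4 + 2) q 4 = p 0 := by simp [setBlock]
  have e5 : setBlock (setBlock b 4 p) (4 + 2) q 5 = p 1 := by simp [setBlock]
  have e6 : setBlock (setBlock b 4 p) (4 + 2) q 6 = q 0 := by simp [setBlock]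
  have e7 : setBlock (setBlock b 4 p) (4 + 2) q 7 = q 1 := by simp [setBlock]
  rw [e2, e3, e4, e5, e6, e7]

private theorem stc_iff {φ : Fml ρ} {Q : V → V → Prop}
    (h : ∀ a, Sat R φ a ↔ Q (a 0) (a 1)) (b : ℕ → V) (hne : b 2 ≠ b 3) :
    Sat R (.stc 2 4 (phiStep φ) ![3, 2] ![3, 3]) b ↔ Phi Q (b 2) (b 3) := by
  rw [sat_stc]
  constructor
  · intro hc
    by_contra hP
    have inv : ∀ p : Fin 2 → V, Relation.ReflTransGen
        (fun p q : Fin 2 → V => Sat R (phiStep φ) (setBlock (setBlock b 4 p) (4 + 2) q) ∨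
          Sat R (phiStep φ) (setBlock (setBlock b 4 q) (4 + 2) p))
        (fun k => b ((![3, 2] : Fin 2 → ℕ) k)) p →
        (p 0 = b 3 ∧ p 1 = b 2) ∨ (p 0 = b 2 ∧ ∃ w, Q (b 2) w ∧ Sim Q w (p 1)) := by
      intro p hp
      induction hp with
      | refl => left; simp
      | @tail p q _ hpq ih =>
        rw [step_iff h, step_iff h] at hpq
        rcases ih with ⟨h0, h1⟩ | ⟨h0, w, hw, hs⟩
        · rcases hpq with ⟨h2, h3⟩ | ⟨h2, h3⟩
          · rcases h2 with ⟨_, _, h4⟩ | ⟨h4, _⟩ | ⟨h4, _⟩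
            · right
              refine ⟨h4, q 1, ?_, Relation.ReflTransGen.refl⟩
              exact h3 _ _ (Or.inl ⟨h1.symm, rfl⟩)
            · exact absurd (h4.symm.trans h0) hne
            · exact absurd (h4.symm.trans h0) hne
          · rcases h2 with ⟨_, _, h4⟩ | ⟨_, h4⟩ | ⟨_, _, h4⟩
            · exact absurd (h4.symm.trans h0) hne
            · exact absurd (h4.symm.trans h0) hne
            · exact absurd (h1.symm.trans h4) hne
        · rcases hpq with ⟨h2, h3⟩ | ⟨h2, h3⟩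
          · rcases h2 with ⟨h4, _⟩ | ⟨_, h4⟩ | ⟨_, h4, h5⟩
            · exact absurd (h0.symm.trans h4) hne
            · right
              refine ⟨h4, w, hw, Relation.ReflTransGen.tail hs ⟨h3 _ _ (Or.inl ⟨rfl, rfl⟩),
                h3 _ _ (Or.inr ⟨⟨h0, h4⟩, rfl, rfl⟩)⟩⟩
            · exfalso
              refine hP ⟨w, p 1, hw, hs, ?_⟩
              exact h3 _ _ (Or.inl ⟨rfl, h5.symm⟩)
          · rcases h2 with ⟨h4, h5, _⟩ | ⟨h4, _⟩ | ⟨_, h4, _⟩
            · left
              exact ⟨h4, h5⟩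
            · right
              refine ⟨h4, w, hw, Relation.ReflTransGen.tail hs
                ⟨h3 _ _ (Or.inr ⟨⟨h4, h0⟩, rfl, rfl⟩), h3 _ _ (Or.inl ⟨rfl, rfl⟩)⟩⟩
            · exact absurd (h0.symm.trans h4) hne
    rcases inv _ hc with ⟨_, h1⟩ | ⟨h0, _⟩
    · simp at h1
      exact hne h1.symm
    · simp at h0
      exact hne h0.symm
  · rintro ⟨w, w', hw, hs, hw'⟩
    have s1 : Relation.ReflTransGen
        (fun p q : Fin 2 → V => Sat R (phiStep φ) (setBlock (setBlock b 4 p) (4 + 2) q) ∨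
          Sat R (phiStep φ) (setBlock (setBlock b 4 q) (4 + 2) p))
        (fun k => b ((![3, 2] : Fin 2 → ℕ) k)) ![b 2, w] := by
      refine Relation.ReflTransGen.single (Or.inl ?_)
      rw [step_iff h]
      refine ⟨Or.inl ⟨by simp, by simp, by simp⟩, ?_⟩
      rintro c d (⟨h1, h2⟩ | ⟨⟨h1, _⟩, _⟩)
      · simp at h1 h2
        rw [h1, h2]
        exact hw
      · simp at h1
        exact absurd h1.symm hne
    have s2 : Relation.ReflTransGen
        (fun p q : Fin 2 → V => Sat R (phiStep φ) (setBlock (setBlock b 4 p) (4 + 2) q) ∨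
          Sat R (phiStep φ) (setBlock (setBlock b 4 q) (4 + 2) p)) ![b 2, w] ![b 2, w'] := by
      refine Relation.ReflTransGen.lift (fun v => (![b 2, v] : Fin 2 → V)) ?_ _ _ hs
      rintro u v ⟨huv, hvu⟩
      refine Or.inl ?_
      rw [step_iff h]
      refine ⟨Or.inr (Or.inl ⟨by simp, by simp⟩), ?_⟩
      rintro c d (⟨h1, h2⟩ | ⟨_, h1, h2⟩)
      · simp at h1 h2
        rw [h1, h2]
        exact huv
      · simp at h1 h2
        rw [h1, h2]
        exact hvu
    refine s1.trans (s2.tail (Or.inl ?_))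
    rw [step_iff h]
    refine ⟨Or.inr (Or.inr ⟨by simp, by simp, by simp⟩), ?_⟩
    rintro c d (⟨h1, h2⟩ | ⟨⟨_, h1⟩, _⟩)
    · simp at h1 h2
      rw [h1, h2]
      exact hw'
    · simp at h1
      exact absurd h1.symm hne

theorem sat_phi {φ : Fml ρ} {Q : V → V → Prop} (hQ : ∀ x, Q x x)
    (h : ∀ a, Sat R φ a ↔ Q (a 0) (a 1)) (a : ℕ → V) :
    Sat R φ.phi a ↔ Phi Q (a 0) (a 1) := by
  rw [Fml.phi, sat_or, sat_eq]
  by_cases hne : a 0 = a 1
  · simp only [hne, true_or, true_iff]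
    exact ⟨a 1, a 1, hQ _, Relation.ReflTransGen.refl, hQ _⟩
  · simp only [hne, false_or]
    constructor
    · intro hs
      rw [sat_ex] at hs
      obtain ⟨v, hs⟩ := hs
      rw [sat_and, sat_eq, sat_ex] at hs
      obtain ⟨hv, u, hs⟩ := hs
      rw [sat_and, sat_eq] at hs
      obtain ⟨hu, hs⟩ := hs
      simp [Function.update_apply] at hv hu
      rw [stc_iff h _ (by simp [Function.update_apply, hv, hu, hne])] at hs
      simpa [Function.update_apply, hv, hu] using hs
    · intro hP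
      rw [sat_ex]
      refine ⟨a 0, ?_⟩
      rw [sat_and, sat_eq, sat_ex]
      refine ⟨by simp [Function.update_apply], a 1, ?_⟩
      rw [sat_and, sat_eq]
      refine ⟨by simp [Function.update_apply], ?_⟩
      rw [stc_iff h _ (by simp [Function.update_apply, hne])]
      simpa [Function.update_apply] using hP

/-- The formula for the generated equivalence relation. -/
def Fml.sim (φ : Fml ρ) : Fml ρ :=
  .ex 2 (.and (.eq 2 0) (.ex 3 (.and (.eq 3 1)
    (.stc 1 4 (.and (φ.at 4 5) (φ.at 5 4)) ![2] ![3]))))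

theorem length_sim (φ : Fml ρ) : φ.sim.length ≤ 2 * φ.length + 100 := by
  simp only [Fml.sim, length_eq, length_ex, length_and, length_stc, length_at]
  omega

private theorem stc_iff' {φ : Fml ρ} {Q : V → V → Prop}
    (h : ∀ a, Sat R φ a ↔ Q (a 0) (a 1)) (b : ℕ → V) :
    Sat R (.stc 1 4 (.and (φ.at 4 5) (φ.at 5 4)) ![2] ![3]) b ↔ Sim Q (b 2) (b 3) := by
  rw [sat_stc]
  have key : ∀ p q : Fin 1 → V,
      Sat R (.and (φ.at 4 5) (φ.at 5 4)) (setBlock (setBlock b 4 p) (4 + 1) q) ↔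
        (Q (p 0) (q 0) ∧ Q (q 0) (p 0)) := by
    intro p q
    rw [sat_and, sat_at h (by norm_num) (by norm_num) (by norm_num) (by norm_num),
      sat_at h (by norm_num) (by norm_num) (by norm_num) (by norm_num)]
    have e4 : setBlock (setBlock b 4 p) (4 + 1) q 4 = p 0 := by simp [setBlock]
    have e5 : setBlock (setBlock b 4 p) (4 + 1) q 5 = q 0 := by simp [setBlock]
    rw [e4, e5]
  constructor
  · intro hc
    have : Sim Q ((fun p : Fin 1 → V => p 0) (fun k => b ((![2] : Fin 1 → ℕ) k)))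
        ((fun p : Fin 1 → V => p 0) (fun k => b ((![3] : Fin 1 → ℕ) k))) := by
      refine Relation.ReflTransGen.lift (fun p : Fin 1 → V => p 0) ?_ _ _ hc
      intro p q hpq
      rcases hpq with hpq | hpq
      · exact (key p q).mp hpq
      · exact ((key q p).mp hpq).symm
    simpa using this
  · intro hs
    have : Relation.ReflTransGen
      (fun p q : Fin 1 → V =>
        Sat R (.and (φ.at 4 5) (φ.at 5 4)) (setBlock (setBlock b 4 p) (4 + 1) q) ∨
        Sat R (.and (φ.at 4 5) (φ.at 5 4)) (setBlock (setBlock b 4 q) (4 + 1) p))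
      (fun _ => b 2) (fun _ => b 3) := by
      refine Relation.ReflTransGen.lift (fun v : V => (fun _ => v : Fin 1 → V)) ?_ _ _ hs
      intro u v huv
      exact Or.inl ((key _ _).mpr huv)
    have e1 : (fun k => b ((![2] : Fin 1 → ℕ) k)) = fun _ => b 2 := by
      funext k
      fin_cases k
      rfl
    have e2 : (fun k => b ((![3] : Fin 1 → ℕ) k)) = fun _ => b 3 := by
      funext k
      fin_cases k
      rfl
    rw [e1, e2]
    exact this

theorem sat_sim {φ : Fml ρ} {Q : V → V → Prop} (h : ∀ a, Sat R φ a ↔ Q (a 0) (a 1)) (a : ℕ → V) :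
    Sat R φ.sim a ↔ Sim Q (a 0) (a 1) := by
  rw [Fml.sim]
  constructor
  · intro hs
    rw [sat_ex] at hs
    obtain ⟨v, hs⟩ := hs
    rw [sat_and, sat_eq, sat_ex] at hs
    obtain ⟨hv, u, hs⟩ := hs
    rw [sat_and, sat_eq] at hs
    obtain ⟨hu, hs⟩ := hs
    simp [Function.update_apply] at hv hu
    rw [stc_iff' h] at hs
    simpa [Function.update_apply, hv, hu] using hs
  · intro hP
    rw [sat_ex]
    refine ⟨a 0, ?_⟩
    rw [sat_and, sat_eq, sat_ex]
    refine ⟨by simp [Function.update_apply], a 1, ?_⟩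
    rw [sat_and, sat_eq]
    refine ⟨by simp [Function.update_apply], ?_⟩
    rw [stc_iff' h]
    simpa [Function.update_apply] using hP

end Pool.Agent.Lib.Pe46137S
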