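import Pool.Agent.Lib.Pe46137S.FmlPair

/-!
# Formula for the relation of being on a trail

PROOF of `functional_closure`.  From right to left: cut the chain at the first `f` (induction with `head_induction_on`: if `e = f`,
refl; else the step `N e b ∧ e ≠ f`, and `b →* f`).  From left to right: let `T = {a | ReflTransGen N a f}`.  `f ∈ T`; if `N a b`,
`a ≠ f`, then `a ∈ T ↔ b ∈ T` (`→`: the chain from `a ≠ f` to `f` starts with the step to `b` because `N` is functional).  So all
elements of the chain ending in `f` are in `T` (`head_induction_on`).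

PROOF of `trail_formula`.  `ψ = .or (.eq 0 1) (.ex 2 (.ex 3 (.and (arc 0 2) (.and (arc 3 1) (.stc 2 4 θ ![0, 2] ![3, 1])))))` with
`θ = .and φ (.neg (.and (.eq 4 3) (.eq 5 1)))`, `φ` of `follows_formula`; by `functional_closure` with `N = Follows E` (transport along
`Fin 2 → V ≃ V × V`) and `f = (a 3, a 1)`.
-/

namespace Pool.Agent.Lib.Pe46137S

/-- Directed closure of a functional relation as a symmetric closure: the step that leaves the
target is deleted. -/
theorem functional_closure {A : Type} {N : A → A → Prop} (hN : ∀ a b b', N a b → N a b' → b = b')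
    (e f : A) : Relation.ReflTransGen (fun a b => (N a b ∧ a ≠ f) ∨ (N b a ∧ b ≠ f)) e f ↔
      Relation.ReflTransGen N e f := by
  constructor
  · intro h
    induction h using Relation.ReflTransGen.head_induction_on with
    | refl => exact Relation.ReflTransGen.refl
    | head h' _ ih =>
      rcases h' with ⟨h1, _⟩ | ⟨h1, h2⟩
      · exact Relation.ReflTransGen.head h1 ih
      · rcases ih.cases_head with h3 | ⟨c, h3, h4⟩
        · exact absurd h3 h2
        · rwa [hN _ _ _ h1 h3]
  · intro h
    induction h using Relation.ReflTransGen.head_induction_on with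
    | refl => exact Relation.ReflTransGen.refl
    | @head a c h' _ ih =>
      by_cases ha : a = f
      · rw [ha]
      · exact Relation.ReflTransGen.head (Or.inl ⟨h', ha⟩) ih

namespace FmlTrailAux

theorem step_formula : ∃ θ : Fml Voc, ∀ (V : Type) [Finite V] [LinearOrder V]
    (E : V → V → Prop) (a : ℕ → V), Sat (str E) θ a ↔
      (Follows E (a 4, a 5) (a 6, a 7) ∧ (a 4, a 5) ≠ (a 3, a 1)) := by
  obtain ⟨φ, hφ⟩ := follows_formula
  refine ⟨.and φ (.neg (.and (.eq 4 3) (.eq 5 1))), ?_⟩
  intro V _ _ E a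
  rw [sat_and, sat_neg, sat_and, sat_eq, sat_eq, hφ, Ne, Prod.mk.injEq]

end FmlTrailAux

theorem trail_formula : ∃ ψ : Fml Voc, ∀ (V : Type) [Finite V] [LinearOrder V]
    (E : V → V → Prop) (a : ℕ → V), Sat (str E) ψ a ↔ OnTrail E (a 0) (a 1) := by
  obtain ⟨θ, hθ⟩ := FmlTrailAux.step_formula
  refine ⟨.or (.eq 0 1) (.ex 2 (.ex 3 (.and (.rel .arc 0 2) (.and (.rel .arc 3 1)
    (.stc 2 4 θ ![0, 2] ![3, 1]))))), ?_⟩
  intro V _ _ E a
  simp only [sat_or, sat_eq, sat_ex, sat_and, sat_rel, sat_stc]
  unfold OnTrail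
  apply or_congr Iff.rfl
  apply exists_congr
  intro w
  apply exists_congr
  intro z
  set b : ℕ → V := Function.update (Function.update a 2 w) 3 z with hb
  have b0 : b 0 = a 0 := by simp [hb]
  have b1 : b 1 = a 1 := by simp [hb]
  have b2 : b 2 = w := by simp [hb]
  have b3 : b 3 = z := by simp [hb]
  rw [b0, b1, b2, b3]
  apply and_congr Iff.rfl
  apply and_congr Iff.rfl
  rw [← functional_closure (N := Follows E) (fun _ _ _ h h' => follows_right_unique h h')
    (a 0, w) (z, a 1)]
  have hsat : ∀ p q : Fin 2 → V, Sat (str E) θ (setBlock (setBlock b 4 p) (4 + 2) q) ↔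
      (Follows E (p 0, p 1) (q 0, q 1) ∧ (p 0, p 1) ≠ (z, a 1)) := by
    intro p q
    rw [hθ]
    have c4 : setBlock (setBlock b 4 p) (4 + 2) q 4 = p 0 := by simp [setBlock]
    have c5 : setBlock (setBlock b 4 p) (4 + 2) q 5 = p 1 := by simp [setBlock]
    have c6 : setBlock (setBlock b 4 p) (4 + 2) q 6 = q 0 := by simp [setBlock]
    have c7 : setBlock (setBlock b 4 p) (4 + 2) q 7 = q 1 := by simp [setBlock]
    have c3 : setBlock (setBlock b 4 p) (4 + 2) q 3 = z := by simp [setBlock, b3]
    have c1 : setBlock (setBlock b 4 p) (4 + 2) q 1 = a 1 := by simp [setBlock, b1]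
    rw [c4, c5, c6, c7, c3, c1]
  have e0 : (fun k : Fin 2 => b (![0, 2] k)) = ![a 0, w] := by
    funext k
    fin_cases k
    · exact b0
    · exact b2
  have e1 : (fun k : Fin 2 => b (![3, 1] k)) = ![z, a 1] := by
    funext k
    fin_cases k
    · exact b3
    · exact b1
  rw [e0, e1]
  constructor
  · intro h
    exact Relation.ReflTransGen.lift (r := fun p q : Fin 2 → V =>
      Sat (str E) θ (setBlock (setBlock b 4 p) (4 + 2) q) ∨
      Sat (str E) θ (setBlock (setBlock b 4 q) (4 + 2) p))
      (p := fun e f => (Follows E e f ∧ e ≠ (z, a 1)) ∨ (Follows E f e ∧ f ≠ (z, a 1)))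
      (fun p => (p 0, p 1)) (by
        intro p q hpq
        rw [hsat, hsat] at hpq
        exact hpq) _ _ h
  · intro h
    exact Relation.ReflTransGen.lift (p := fun p q : Fin 2 → V =>
      Sat (str E) θ (setBlock (setBlock b 4 p) (4 + 2) q) ∨
      Sat (str E) θ (setBlock (setBlock b 4 q) (4 + 2) p))
      (r := fun e f => (Follows E e f ∧ e ≠ (z, a 1)) ∨ (Follows E f e ∧ f ≠ (z, a 1)))
      (fun e : V × V => ![e.1, e.2]) (by
        intro e f hef
        show Sat (str E) θ (setBlock (setBlock b 4 ![e.1, e.2]) (4 + 2) ![f.1, f.2]) ∨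
          Sat (str E) θ (setBlock (setBlock b 4 ![f.1, f.2]) (4 + 2) ![e.1, e.2])
        rw [hsat, hsat]
        exact hef) _ _ h

end Pool.Agent.Lib.Pe46137S
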