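import Pool.Agent.Lib.Pe46137S.Defs

/-!
# Total imbalance

PROOF of `nearly_of_imbalance`. Let `b v = outdegree - indegree` and `I = ∑ |b v| ≤ k`. For a sink set
`S` the number of arcs entering `S` is `- ∑_{v ∈ S} b v` (arcs inside `S` cancel, no arc leaves).
With `∑_V b = 0` it is at most `I / 2` (or simply at most `I`, which is enough here). For a strong
component `S` the arcs entering `S` enter the sink set `{w | Reach v w}`, the arcs leaving `S` enter
the sink set `{w | Reach v w} \ S`; for `w ∈ S`, `|outIn - inIn|` (inside) is at most `|b w|` plus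
the number of arcs between `w` and the complement of `S`. So the sum is at most
`I + (entering) + (leaving)`, at most `3 * k` even with the crude bound.
-/

namespace Pool.Agent.Lib.Pe46137S

variable {V : Type}

open Classical in
/-- the indicator of a proposition -/
private noncomputable def ind (P : Prop) : ℤ := if P then 1 else 0

private theorem ind_nonneg (P : Prop) : 0 ≤ ind P := by
  unfold ind
  split_ifs <;> norm_num

private theorem ind_of {P : Prop} (h : P) : ind P = 1 := by simp [ind, h]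

private theorem ind_of_not {P : Prop} (h : ¬ P) : ind P = 0 := by simp [ind, h]

private theorem ncard_eq [Fintype V] (P : V → Prop) :
    (({y | P y}.ncard : ℕ) : ℤ) = ∑ y, ind (P y) := by
  classical
  rw [Set.ncard_eq_toFinset_card', Set.toFinset_setOf, Finset.card_filter]
  push_cast
  refine Finset.sum_congr rfl fun y _ => ?_
  by_cases h : P y <;> simp [ind, h]

private theorem ncard_eq2 [Fintype V] (P : V → V → Prop) :
    (({e : V × V | P e.1 e.2}.ncard : ℕ) : ℤ) = ∑ x, ∑ y, ind (P x y) := by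
  classical
  rw [Set.ncard_eq_toFinset_card', Set.toFinset_setOf, Finset.card_filter]
  push_cast
  rw [Fintype.sum_prod_type]
  refine Finset.sum_congr rfl fun x _ => Finset.sum_congr rfl fun y _ => ?_
  by_cases h : P x y <;> simp [ind, h]

private theorem enter_le [Fintype V] {E : V → V → Prop} {S : Set V} (hS : SinkSet E S) :
    (({e : V × V | e.1 ∉ S ∧ e.2 ∈ S ∧ E e.1 e.2}.ncard : ℕ) : ℤ) ≤
      ∑ v, |(outIn E Set.univ v : ℤ) - inIn E Set.univ v| := by
  classical
  have h1 : (({e : V × V | e.1 ∉ S ∧ e.2 ∈ S ∧ E e.1 e.2}.ncard : ℕ) : ℤ) =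
      - ∑ v, ind (v ∈ S) * ((outIn E Set.univ v : ℤ) - inIn E Set.univ v) := by
    rw [ncard_eq2 (fun x y => x ∉ S ∧ y ∈ S ∧ E x y)]
    have e1 : ∀ v, (outIn E Set.univ v : ℤ) = ∑ y, ind (E v y) := by
      intro v
      unfold outIn
      rw [ncard_eq (fun y => y ∈ Set.univ ∧ E v y)]
      simp
    have e2 : ∀ v, (inIn E Set.univ v : ℤ) = ∑ x, ind (E x v) := by
      intro v
      unfold inIn
      rw [ncard_eq (fun y => y ∈ Set.univ ∧ E y v)]
      simp
    simp only [e1, e2, mul_sub, Finset.sum_sub_distrib, Finset.mul_sum]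
    rw [Finset.sum_comm (f := fun v x => ind (v ∈ S) * ind (E x v)),
      ← Finset.sum_sub_distrib, ← Finset.sum_neg_distrib]
    refine Finset.sum_congr rfl fun x _ => ?_
    rw [← Finset.sum_sub_distrib, ← Finset.sum_neg_distrib]
    refine Finset.sum_congr rfl fun y _ => ?_
    have := hS x
    by_cases hx : x ∈ S <;> by_cases hy : y ∈ S <;> by_cases hE : E x y <;>
      simp [ind, hx, hy, hE]
    exact hy (this hx y hE)
  rw [h1, ← Finset.sum_neg_distrib]
  refine Finset.sum_le_sum fun v _ => ?_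
  by_cases hv : v ∈ S
  · rw [ind_of hv, one_mul]
    exact neg_le_abs _
  · rw [ind_of_not hv, zero_mul, neg_zero]
    exact abs_nonneg _

private theorem split_le [Fintype V] {E : V → V → Prop} (S : Set V) :
    ∑ᶠ w ∈ S, ((outIn E S w : ℤ) - inIn E S w).natAbs ≤
      ((∑ v, |(outIn E Set.univ v : ℤ) - inIn E Set.univ v|) +
      (({e : V × V | e.1 ∉ S ∧ e.2 ∈ S ∧ E e.1 e.2}.ncard : ℕ) : ℤ) +
      (({e : V × V | e.1 ∈ S ∧ e.2 ∉ S ∧ E e.1 e.2}.ncard : ℕ) : ℤ)).toNat := by
  classical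
  rw [← Int.ofNat_le, Int.toNat_of_nonneg (by positivity)]
  rw [finsum_mem_eq_finite_toFinset_sum _ (Set.toFinite S)]
  rw [ncard_eq2 (fun x y => x ∉ S ∧ y ∈ S ∧ E x y), ncard_eq2 (fun x y => x ∈ S ∧ y ∉ S ∧ E x y)]
  rw [Finset.sum_comm]
  rw [← Finset.sum_add_distrib, ← Finset.sum_add_distrib]
  have hsub : (Set.toFinite S).toFinset ⊆ Finset.univ := Finset.subset_univ _
  push_cast
  refine le_trans ?_ (Finset.sum_le_sum_of_subset_of_nonneg hsub ?_)
  · refine Finset.sum_le_sum fun w hw => ?_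
    rw [Set.Finite.mem_toFinset] at hw
    have e1 : (outIn E Set.univ w : ℤ) = outIn E S w + ∑ y, ind (w ∈ S ∧ y ∉ S ∧ E w y) := by
      unfold outIn
      rw [ncard_eq (fun y => y ∈ Set.univ ∧ E w y), ncard_eq (fun y => y ∈ S ∧ E w y),
        ← Finset.sum_add_distrib]
      refine Finset.sum_congr rfl fun y _ => ?_
      by_cases hy : y ∈ S <;> by_cases hE : E w y <;> simp [ind, hw, hy, hE]
    have e2 : (inIn E Set.univ w : ℤ) = inIn E S w + ∑ x, ind (x ∉ S ∧ w ∈ S ∧ E x w) := by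
      unfold inIn
      rw [ncard_eq (fun y => y ∈ Set.univ ∧ E y w), ncard_eq (fun y => y ∈ S ∧ E y w),
        ← Finset.sum_add_distrib]
      refine Finset.sum_congr rfl fun y _ => ?_
      by_cases hy : y ∈ S <;> by_cases hE : E y w <;> simp [ind, hw, hy, hE]
    have n1 : (0 : ℤ) ≤ ∑ y, ind (w ∈ S ∧ y ∉ S ∧ E w y) :=
      Finset.sum_nonneg fun y _ => ind_nonneg _
    have n2 : (0 : ℤ) ≤ ∑ x, ind (x ∉ S ∧ w ∈ S ∧ E x w) :=
      Finset.sum_nonneg fun y _ => ind_nonneg _
    rw [e1, e2]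
    rcases abs_cases ((outIn E S w : ℤ) - inIn E S w) with ⟨h1, _⟩ | ⟨h1, _⟩ <;>
    rcases abs_cases ((outIn E S w : ℤ) + (∑ y, ind (w ∈ S ∧ y ∉ S ∧ E w y)) -
      (inIn E S w + ∑ x, ind (x ∉ S ∧ w ∈ S ∧ E x w))) with ⟨h2, _⟩ | ⟨h2, _⟩ <;>
    rw [h1, h2] <;> linarith
  · intro w _ _
    refine add_nonneg (add_nonneg (abs_nonneg _) ?_) ?_
    · exact Finset.sum_nonneg fun y _ => ind_nonneg _
    · exact Finset.sum_nonneg fun y _ => ind_nonneg _

theorem nearly_of_imbalance [Finite V] {k : ℕ} {E : V → V → Prop} (h : imbalance E ≤ k) :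
    NearlyEulerian (3 * k) E := by
  classical
  have : Fintype V := Fintype.ofFinite V
  have hI : ∑ v, |(outIn E Set.univ v : ℤ) - inIn E Set.univ v| ≤ k := by
    unfold imbalance at h
    rw [finsum_eq_sum_of_fintype] at h
    have h2 : ((∑ v, ((outIn E Set.univ v : ℤ) - inIn E Set.univ v).natAbs : ℕ) : ℤ) ≤ k := by
      exact_mod_cast h
    push_cast at h2
    exact h2
  have hent : ∀ S : Set V, SinkSet E S → {e : V × V | e.1 ∉ S ∧ e.2 ∈ S ∧ E e.1 e.2}.ncard ≤ k := by
    intro S hS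
    have := (enter_le hS).trans hI
    exact_mod_cast this
  refine ⟨fun S hS => (hent S hS).trans (by omega), fun v => ?_⟩
  refine (split_le (strong E v)).trans ?_
  have hT : SinkSet E {w | Reach E v w} := by
    intro x hx y hxy
    exact Relation.ReflTransGen.tail hx hxy
  have hT' : SinkSet E {w | Reach E v w ∧ ¬ Reach E w v} := by
    rintro x ⟨hx, hx'⟩ y hxy
    refine ⟨Relation.ReflTransGen.tail hx hxy, fun hy => hx' ?_⟩
    exact Relation.ReflTransGen.head hxy hy
  have h1 : {e : V × V | e.1 ∉ strong E v ∧ e.2 ∈ strong E v ∧ E e.1 e.2}.ncard ≤ k := by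
    refine le_trans (Set.ncard_le_ncard ?_ (Set.toFinite _)) (hent _ hT)
    rintro ⟨x, y⟩ ⟨hx, hy, hE⟩
    refine ⟨fun hx' => hx ⟨hx', Relation.ReflTransGen.head hE hy.2⟩, hy.1, hE⟩
  have h2 : {e : V × V | e.1 ∈ strong E v ∧ e.2 ∉ strong E v ∧ E e.1 e.2}.ncard ≤ k := by
    refine le_trans (Set.ncard_le_ncard ?_ (Set.toFinite _)) (hent _ hT')
    rintro ⟨x, y⟩ ⟨hx, hy, hE⟩
    refine ⟨fun hx' => hx'.2 hx.2, ⟨Relation.ReflTransGen.tail hx.1 hE, fun hy' => hy ?_⟩, hE⟩
    exact ⟨Relation.ReflTransGen.tail hx.1 hE, hy'⟩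
  have h3 : (({e : V × V | e.1 ∉ strong E v ∧ e.2 ∈ strong E v ∧ E e.1 e.2}.ncard : ℕ) : ℤ) ≤ k := by
    exact_mod_cast h1
  have h4 : (({e : V × V | e.1 ∈ strong E v ∧ e.2 ∉ strong E v ∧ E e.1 e.2}.ncard : ℕ) : ℤ) ≤ k := by
    exact_mod_cast h2
  rw [Int.toNat_le]
  push_cast
  linarith

theorem FewOneWay.mono {k k' : ℕ} (hk : k ≤ k') {E : V → V → Prop} (h : FewOneWay k E) :
    FewOneWay k' E := by
  intro f hf
  obtain ⟨i, j, hij, h'⟩ := h (fun i => f (Fin.castLE (by omega) i)) fun i => hf _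
  exact ⟨_, _, fun he => hij (Fin.castLE_injective _ he), h'⟩

theorem NearlyEulerian.mono {k k' : ℕ} (hk : k ≤ k') {E : V → V → Prop}
    (h : NearlyEulerian k E) : NearlyEulerian k' E :=
  ⟨fun S hS => (h.1 S hS).trans hk, fun v => (h.2 v).trans hk⟩

end Pool.Agent.Lib.Pe46137S
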