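import Pool.Agent.Lib.Pe46137S.NetUp

/-!
# A network has at least as many states as the digraphs have vertices

PROOF. Copy the proof of `card_le_states` in `Pool/Agent/Lib/Pe46137/Cost.lean`, with
`G = {(a, b) | a ≠ b, pos b ≤ pos a + 1}` (a directed path through all vertices from `s` to `t`
and all arcs going back; `pos` is the position on the path) and `Gj` = `G` without the arc from
position `j` to position `j + 1`.  In all these digraphs any two vertices are joined by an arc, so
any two one-way arcs are near each other and the digraphs satisfy `FewOneWay k` for `1 ≤ k`.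
-/

namespace Pool.Agent.Lib.Pe46137S

open Pool.Agent.Lib.Pe46137

theorem card_le_states_few {n k : ℕ} (hk : 1 ≤ k) {W : Type} [Fintype W] {s t : Fin n}
    (hst : s ≠ t) (N : SwitchingNetwork (Fin n × Fin n) W)
    (hN : N.DecidesOn {G | FewOneWay k (rel G)} s t) : n ≤ Fintype.card W := by
  classical
  have hn : 2 ≤ n := by
    by_contra hc
    exact hst (Fin.ext (by have := s.2; have := t.2; omega))
  obtain ⟨ρ, hρ0, hρ1⟩ := exists_perm (a := (⟨0, by omega⟩ : Fin n)) (b := ⟨n - 1, by omega⟩)
    (s := s) (t := t) (by intro h; have := congrArg Fin.val h; simp at this; omega) hst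
  have hs : ((ρ.symm s : Fin n) : ℕ) = 0 := by rw [← hρ0, Equiv.symm_apply_apply]
  have ht : ((ρ.symm t : Fin n) : ℕ) = n - 1 := by rw [← hρ1, Equiv.symm_apply_apply]
  set G : Set (Fin n × Fin n) := {e | ((ρ.symm e.2 : Fin n) : ℕ) ≤ (ρ.symm e.1 : Fin n) + 1}
    with hG
  set Gj : ℕ → Set (Fin n × Fin n) := fun j => {e | e ∈ G ∧
    ¬ (((ρ.symm e.1 : Fin n) : ℕ) = j ∧ ((ρ.symm e.2 : Fin n) : ℕ) = j + 1)} with hGj
  have hnear : ∀ H : Set (Fin n × Fin n),
      (∀ a b : Fin n, ((ρ.symm a : Fin n) : ℕ) ≤ (ρ.symm b : Fin n) → (b, a) ∈ H) →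
      FewOneWay k (rel H) := by
    intro H hH f _
    refine ⟨⟨0, by omega⟩, ⟨1, by omega⟩, by intro h; simpa using congrArg Fin.val h, Or.inl ?_⟩
    rcases Nat.le_total ((ρ.symm (f ⟨0, by omega⟩).1 : Fin n) : ℕ)
      (ρ.symm (f ⟨1, by omega⟩).1 : Fin n) with h1 | h1
    · exact Or.inr (Or.inr (hH _ _ h1))
    · exact Or.inr (Or.inl (hH _ _ h1))
  have hGs : FewOneWay k (rel G) := hnear G fun a b hab => by
    show ((ρ.symm a : Fin n) : ℕ) ≤ (ρ.symm b : Fin n) + 1
    omega
  have hGjs : ∀ j, FewOneWay k (rel (Gj j)) := fun j => hnear (Gj j) fun a b hab => by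
    refine ⟨?_, ?_⟩
    · show ((ρ.symm a : Fin n) : ℕ) ≤ (ρ.symm b : Fin n) + 1
      omega
    · rintro ⟨h1, h2⟩
      have h1' : ((ρ.symm b : Fin n) : ℕ) = j := h1
      have h2' : ((ρ.symm a : Fin n) : ℕ) = j + 1 := h2
      omega
  have hGr : Reachable G s t := by
    have key : ∀ k (hk : k < n), Reachable G s (ρ ⟨k, hk⟩) := by
      intro k
      induction k with
      | zero => intro hk; rw [hρ0]; exact Relation.ReflTransGen.refl
      | succ k ih =>
        intro hk
        refine (ih (by omega)).tail ?_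
        simp [hG]
    rw [← hρ1]
    exact key _ _
  have hGjr : ∀ j < n - 1, ¬ Reachable (Gj j) s t := by
    intro j hj h
    have key : ∀ v, Reachable (Gj j) s v → ((ρ.symm v : Fin n) : ℕ) ≤ j := by
      intro v hv
      induction hv with
      | refl => rw [hs]; omega
      | tail _ h ih =>
        have h1 : _ ≤ _ + 1 := h.1
        have h2 := h.2
        simp only at h1 h2
        omega
    have := key t h
    rw [ht] at this
    omega
  set A : W → Finset ℕ := fun v =>
    (Finset.range (n - 1)).filter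
      (fun j => ¬ Relation.EqvGen (N.Closed (Gj j) (Gj j)ᶜ) N.source v) with hA
  have hstep : ∀ v w, N.Closed G Gᶜ v w → (A v).card ≤ (A w).card + 1 ∧
      (A w).card ≤ (A v).card + 1 := by
    intro v w hvw
    have hex : ∃ j₀, ∀ j, j ≠ j₀ → N.Closed (Gj j) (Gj j)ᶜ v w := by
      rcases hvw with h | ⟨e, he, h⟩ | ⟨e, he, h⟩
      · exact ⟨0, fun j _ => Or.inl h⟩
      · exact ⟨((ρ.symm e.1 : Fin n) : ℕ), fun j hj =>
          Or.inr (Or.inl ⟨e, ⟨he, fun h' => hj h'.1.symm⟩, h⟩)⟩
      · exact ⟨0, fun j _ => Or.inr (Or.inr ⟨e, fun h' => he h'.1, h⟩)⟩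
    obtain ⟨j₀, hj₀⟩ := hex
    have h1 : ∀ j, j ≠ j₀ → (j ∈ A v ↔ j ∈ A w) := by
      intro j hj
      simp only [hA, Finset.mem_filter]
      rw [eqv_iff (hj₀ j hj)]
    constructor
    · refine le_trans (Finset.card_le_card (t := insert j₀ (A w)) fun j hj => ?_)
        (Finset.card_insert_le _ _)
      by_cases h : j = j₀
      · rw [h]; exact Finset.mem_insert_self _ _
      · exact Finset.mem_insert_of_mem ((h1 j h).mp hj)
    · refine le_trans (Finset.card_le_card (t := insert j₀ (A v)) fun j hj => ?_)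
        (Finset.card_insert_le _ _)
      by_cases h : j = j₀
      · rw [h]; exact Finset.mem_insert_self _ _
      · exact Finset.mem_insert_of_mem ((h1 j h).mpr hj)
  have hAs : A N.source = ∅ := by
    simp only [hA]
    rw [Finset.filter_eq_empty_iff]
    intro j _ h
    exact h (Relation.EqvGen.refl _)
  have hAt : A N.sink = Finset.range (n - 1) := by
    simp only [hA]
    rw [Finset.filter_eq_self]
    intro j hj h
    exact hGjr j (Finset.mem_range.mp hj) ((hN (Gj j) (hGjs j)).mp h)
  have hval : ∀ k < n, ∃ v, (A v).card = k := by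
    intro k hk
    refine intermediate (fun v => (A v).card) hstep ((hN G hGs).mpr hGr) k ?_ ?_
    · rw [hAs]; simp
    · rw [hAt, Finset.card_range]; omega
  have : Nonempty W := ⟨N.source⟩
  choose! f hf using hval
  have hinj : Set.InjOn f (Finset.range n : Finset ℕ) := by
    intro a ha b hb hab
    have ha' : a < n := by simpa using ha
    have hb' : b < n := by simpa using hb
    rw [← hf a ha', ← hf b hb', hab]
  have := Finset.card_le_card_of_injOn (s := Finset.range n) (t := (Finset.univ : Finset W)) f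
    (fun _ _ => Finset.mem_univ _) hinj
  rwa [Finset.card_range, Finset.card_univ] at this

end Pool.Agent.Lib.Pe46137S
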