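import Pool.Agent.Lib.Pe46137S.NetBound
import Pool.Agent.Lib.Pe46137S.NetSmall

/-!
# The two-sided bound for monotone networks

PROOF of the lower bound. Let `S` be the cost.  Always `n ≤ S` (`card_le_states_few`, `cost_spec`)
and `S ≥ 2`.  Put `d = min (Nat.log 2 (2 * k)) (Nat.log 2 n / 8)`.  If `d < 8` then `log (k + 1)` or
`log n` (hence both, as `k ≤ n`) is bounded.  If `8 ≤ d` then `n ^ d ≤ S ^ 20` (`low_bound`) and
`d ≥ c * log (k + 1)`.
-/

namespace Pool.Agent.Lib.Pe46137S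

open Pool.Agent.Lib.Pe46137

theorem net_two_sided : ∃ c C : ℝ, 0 < c ∧ ∀ (n k : ℕ) (s t : Fin n), s ≠ t → 1 ≤ k → k ≤ n →
    c * (Real.logb 2 n * Real.logb 2 (k + 1)) ≤
      Real.logb 2 (cost {G | FewOneWay k (rel G)} s t Set.univ) ∧
    Real.logb 2 (cost {G | FewOneWay k (rel G)} s t Set.univ) ≤
      C * (Real.logb 2 n * Real.logb 2 (k + 1)) := by
  refine ⟨1 / 200, 64, by norm_num, fun n k s t hst hk hkn => ?_⟩
  have hn : 2 ≤ n := by
    by_contra hc
    exact hst (Fin.ext (by have := s.2; have := t.2; omega))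
  obtain ⟨S, hS⟩ : ∃ S, S = cost {G : Set (Fin n × Fin n) | FewOneWay k (rel G)} s t Set.univ :=
    ⟨_, rfl⟩
  have hspec := cost_spec (𝒢 := {G : Set (Fin n × Fin n) | FewOneWay k (rel G)}) s t Set.univ
  rw [← hS] at hspec ⊢
  obtain ⟨N, hN, hA⟩ := hspec
  have hnS : n ≤ S := by
    have := card_le_states_few hk hst N hN
    rwa [Fintype.card_fin] at this
  have hnR : (2:ℝ) ≤ n := by exact_mod_cast hn
  have hnSR : (n:ℝ) ≤ S := by exact_mod_cast hnS
  have hkR : (1:ℝ) ≤ k := by exact_mod_cast hk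
  have hknR : (k:ℝ) ≤ n := by exact_mod_cast hkn
  have hSpos : (0:ℝ) < S := by linarith
  have hlogn : 1 ≤ Real.logb 2 n := by
    rw [Real.le_logb_iff_rpow_le (by norm_num) (by linarith), Real.rpow_one]
    exact hnR
  have hlogk : 1 ≤ Real.logb 2 ((k:ℝ) + 1) := by
    rw [Real.le_logb_iff_rpow_le (by norm_num) (by linarith), Real.rpow_one]
    linarith
  have hlogS : Real.logb 2 n ≤ Real.logb 2 S :=
    Real.logb_le_logb_of_le (by norm_num) (by linarith) hnSR
  have hlogS0 : 0 ≤ Real.logb 2 S := by linarith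
  constructor
  · -- lower bound
    have key : ∀ M : ℕ, (k:ℝ) + 1 ≤ 2 ^ M → Real.logb 2 ((k:ℝ) + 1) ≤ M := by
      intro M hM
      rw [Real.logb_le_iff_le_rpow (by norm_num) (by linarith), Real.rpow_natCast]
      exact hM
    have small : ∀ M : ℕ, (k:ℝ) + 1 ≤ 2 ^ M → M ≤ 200 →
        1 / 200 * (Real.logb 2 n * Real.logb 2 ((k:ℝ) + 1)) ≤ Real.logb 2 S := by
      intro M hM hM2
      have h1 := key M hM
      have h2 : (M:ℝ) ≤ 200 := by exact_mod_cast hM2
      have h3 : Real.logb 2 n * Real.logb 2 ((k:ℝ) + 1) ≤ Real.logb 2 n * 200 :=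
        mul_le_mul_of_nonneg_left (h1.trans h2) (by linarith)
      linarith
    by_cases ha : Nat.log 2 (2 * k) < 8
    · refine small 8 ?_ (by norm_num)
      have h1 : 2 * k < 2 ^ 8 := Nat.lt_pow_of_log_lt (by norm_num) ha
      have h2 : k + 1 ≤ 2 ^ 8 := by omega
      exact_mod_cast h2
    by_cases hb : Nat.log 2 n / 8 < 8
    · refine small 64 ?_ (by norm_num)
      have h1 : n < 2 ^ 64 := Nat.lt_pow_of_log_lt (by norm_num) (by omega)
      have h2 : k + 1 ≤ 2 ^ 64 := by omega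
      exact_mod_cast h2
    rw [not_lt] at ha hb
    obtain ⟨d, hd⟩ : ∃ d, d = min (Nat.log 2 (2 * k)) (Nat.log 2 n / 8) := ⟨_, rfl⟩
    have hd8 : 8 ≤ d := by
      rw [hd]
      exact le_min ha hb
    have hd1 : 2 ^ d ≤ 2 * k := by
      calc 2 ^ d ≤ 2 ^ Nat.log 2 (2 * k) :=
            Nat.pow_le_pow_right (by norm_num) (hd ▸ min_le_left _ _)
        _ ≤ 2 * k := Nat.pow_log_le_self 2 (by omega)
    have hd2 : 2 ^ (8 * d) ≤ n := by
      have h1 : d ≤ Nat.log 2 n / 8 := hd ▸ min_le_right _ _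
      calc 2 ^ (8 * d) ≤ 2 ^ Nat.log 2 n := Nat.pow_le_pow_right (by norm_num) (by omega)
        _ ≤ n := Nat.pow_log_le_self 2 (by omega)
    have hlow := low_bound hd8 hd1 hd2 hst N hN hA
    rw [Fintype.card_fin] at hlow
    have hlow' : (d:ℝ) * Real.logb 2 n ≤ 20 * Real.logb 2 S := by
      have h1 : ((n:ℝ)) ^ d ≤ (S:ℝ) ^ 20 := by exact_mod_cast hlow
      have h2 := Real.logb_le_logb_of_le (b := 2) (by norm_num) (by positivity) h1
      rw [Real.logb_pow, Real.logb_pow] at h2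
      exact_mod_cast h2
    have hkd : Real.logb 2 ((k:ℝ) + 1) ≤ 10 * d := by
      have h1 : (k:ℝ) + 1 ≤ 2 ^ (10 * d) := by
        rcases min_choice (Nat.log 2 (2 * k)) (Nat.log 2 n / 8) with h | h
        · rw [← hd] at h
          have h2 : 2 * k < 2 ^ (Nat.log 2 (2 * k) + 1) := Nat.lt_pow_succ_log_self (by norm_num) _
          have h3 : 2 ^ (Nat.log 2 (2 * k) + 1) ≤ 2 ^ (10 * d) :=
            Nat.pow_le_pow_right (by norm_num) (by omega)
          have h4 : k + 1 ≤ 2 ^ (10 * d) := by omega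
          exact_mod_cast h4
        · rw [← hd] at h
          have h2 : n < 2 ^ (Nat.log 2 n + 1) := Nat.lt_pow_succ_log_self (by norm_num) _
          have h3 : 2 ^ (Nat.log 2 n + 1) ≤ 2 ^ (10 * d) :=
            Nat.pow_le_pow_right (by norm_num) (by omega)
          have h4 : k + 1 ≤ 2 ^ (10 * d) := by omega
          exact_mod_cast h4
      have h5 := key (10 * d) h1
      push_cast at h5
      exact h5
    have h6 : Real.logb 2 n * Real.logb 2 ((k:ℝ) + 1) ≤ Real.logb 2 n * (10 * d) :=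
      mul_le_mul_of_nonneg_left hkd (by linarith)
    nlinarith
  · -- upper bound
    have hup := net_upper (k := k) hn s t
    rw [← hS] at hup
    have h1 : (S:ℝ) ≤ (n:ℝ) ^ (21 * Nat.log 2 k + 43) := by exact_mod_cast hup
    have h2 := Real.logb_le_logb_of_le (b := 2) (by norm_num) hSpos h1
    rw [Real.logb_pow] at h2
    have h3 : (Nat.log 2 k : ℝ) ≤ Real.logb 2 ((k:ℝ) + 1) := by
      rw [Real.le_logb_iff_rpow_le (by norm_num) (by linarith), Real.rpow_natCast]
      have h4 : 2 ^ Nat.log 2 k ≤ k := Nat.pow_log_le_self 2 (by omega)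
      have h5 : ((2:ℝ)) ^ Nat.log 2 k ≤ k := by exact_mod_cast h4
      linarith
    have h6 : ((21 * Nat.log 2 k + 43 : ℕ) : ℝ) ≤ 64 * Real.logb 2 ((k:ℝ) + 1) := by
      push_cast
      linarith
    calc Real.logb 2 S ≤ ((21 * Nat.log 2 k + 43 : ℕ) : ℝ) * Real.logb 2 n := h2
      _ ≤ (64 * Real.logb 2 ((k:ℝ) + 1)) * Real.logb 2 n :=
          mul_le_mul_of_nonneg_right h6 (by linarith)
      _ = 64 * (Real.logb 2 n * Real.logb 2 ((k:ℝ) + 1)) := by ring

end Pool.Agent.Lib.Pe46137S
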