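import Pool.Agent.Lib.Pe46137S.FewOne
import Pool.Agent.Lib.Pe46137N.Calc
import Pool.Agent.Lib.Pe46137.Cost

/-!
# Monotone networks for digraphs with few one-way arcs
-/

namespace Pool.Agent.Lib.Pe46137S

open Pool.Agent.Lib.Pe46137 Pool.Agent.Lib.Pe46137N

theorem NetUpAux.arith {n m : ℕ} (hn : 2 ≤ n) (hm : 2 ≤ m) :
    n * n * (m + ((n + n * n * (m + m)) + m)) + 2 ≤ 6 * n ^ 4 * m := by
  have h1 : 4 * (n ^ 2 * m) ≤ n ^ 4 * m := by
    calc 4 * (n ^ 2 * m) ≤ n ^ 2 * (n ^ 2 * m) := Nat.mul_le_mul_right _ (by nlinarith)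
      _ = n ^ 4 * m := by ring
  have h2 : 4 * n ^ 3 ≤ n ^ 4 * m := by
    calc 4 * n ^ 3 = n ^ 3 * (2 * 2) := by ring
      _ ≤ n ^ 3 * (n * m) := Nat.mul_le_mul_left _ (Nat.mul_le_mul hn hm)
      _ = n ^ 4 * m := by ring
  have h3 : 2 ≤ n ^ 4 * m := by
    have : 1 ≤ n ^ 4 := Nat.one_le_pow _ _ (by omega)
    nlinarith
  have e : n * n * (m + ((n + n * n * (m + m)) + m)) + 2 =
      2 * (n ^ 2 * m) + n ^ 3 + 2 * (n ^ 4 * m) + 2 := by ring
  rw [e]
  have e2 : 6 * n ^ 4 * m = 6 * (n ^ 4 * m) := by ring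
  rw [e2]
  omega

theorem NetUpAux.eqv_iff_sim {V : Type} {R : V → V → Prop} {a b : V} :
    Relation.EqvGen (fun x y => R x y ∧ R y x) a b ↔ Sim R a b := by
  constructor
  · intro h
    induction h with
    | rel x y h => exact Sim.of h.1 h.2
    | refl x => exact Sim.refl x
    | symm x y _ ih => exact ih.symm
    | trans x y z _ _ ih1 ih2 => exact ih1.trans ih2
  · intro h
    unfold Sim at h
    induction h with
    | refl => exact Relation.EqvGen.refl _
    | tail _ h ih => exact ih.trans _ _ _ (Relation.EqvGen.rel _ _ h)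

/-- The rounds are computed by monotone networks. -/
theorem comp_iter {n : ℕ} (hn : 2 ≤ n) (D : Set (Set (Fin n × Fin n))) (j : ℕ) (x y : Fin n) :
    Comp Set.univ D (fun G => iter (fun x y => x = y ∨ rel G x y) j x y) (2 * (6 * n ^ 4) ^ j) := by
  classical
  induction j generalizing x y with
  | zero =>
    rw [pow_zero, mul_one]
    by_cases hxy : x = y
    · exact ((comp_true _ _).mono (by norm_num)).congr fun G _ => by
        simp only [true_iff]
        exact Or.inl hxy
    · exact (comp_lit _ _ (x, y)).congr fun G _ => by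
        constructor
        · intro h
          exact Or.inr h
        · rintro (h | h)
          · exact absurd h hxy
          · exact h
  | succ j ih =>
    set m := 2 * (6 * n ^ 4) ^ j with hm
    have hm2 : 2 ≤ m := by
      have : 0 < (6 * n ^ 4) ^ j := by positivity
      omega
    set Rj : Set (Fin n × Fin n) → Fin n → Fin n → Prop :=
      fun G => iter (fun x y => x = y ∨ rel G x y) j with hRj
    have hc : ∀ a b : Fin n, Comp Set.univ D (fun G => Rj G a b ∧ Rj G b a) (m + m) :=
      fun a b => (ih a b).and (ih b a)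
    have hsim : ∀ a b : Fin n, Comp Set.univ D (fun G => Sim (Rj G) a b) (n + n * n * (m + m)) := by
      intro a b
      have h1 := comp_graph (c := fun a b G => Rj G a b ∧ Rj G b a) hc a b
      rw [Fintype.card_fin] at h1
      exact h1.congr fun G _ => NetUpAux.eqv_iff_sim
    have hp : ∀ i ∈ (Finset.univ : Finset (Fin n × Fin n)), Comp Set.univ D
        (fun G => Rj G x i.1 ∧ (Sim (Rj G) i.1 i.2 ∧ Rj G i.2 y))
        (m + ((n + n * n * (m + m)) + m)) :=
      fun i _ => (ih x i.1).and ((hsim i.1 i.2).and (ih i.2 y))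
    have h2 := comp_exists Finset.univ hp
    rw [Finset.card_univ, Fintype.card_prod, Fintype.card_fin] at h2
    refine (h2.mono ?_).congr ?_
    · have e1 : 2 * (6 * n ^ 4) ^ (j + 1) = 6 * n ^ 4 * m := by
        rw [hm, pow_succ]
        ring
      rw [e1]
      exact NetUpAux.arith hn hm2
    · intro G _
      constructor
      · rintro ⟨i, _, h3, h4, h5⟩
        exact ⟨i.1, i.2, h3, h4, h5⟩
      · rintro ⟨w, w', h3, h4, h5⟩
        exact ⟨(w, w'), Finset.mem_univ _, h3, h4, h5⟩

theorem net_upper {n k : ℕ} (hn : 2 ≤ n) (s t : Fin n) :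
    cost {G | FewOneWay k (rel G)} s t Set.univ ≤ n ^ (21 * Nat.log 2 k + 43) := by
  have h1 : Comp Set.univ {G : Set (Fin n × Fin n) | FewOneWay k (rel G)}
      (fun G => Reachable G s t) (2 * (6 * n ^ 4) ^ (3 * Nat.log 2 k + 6)) := by
    refine (comp_iter hn _ (3 * Nat.log 2 k + 6) s t).congr fun G hG => ?_
    constructor
    · intro h
      exact iter_sound (Q := fun x y => Reachable G x y) (fun x => Relation.ReflTransGen.refl)
        (fun x y z h h' => Relation.ReflTransGen.trans h h')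
        (fun x y h => by
          rcases h with rfl | h
          · exact Relation.ReflTransGen.refl
          · exact Relation.ReflTransGen.single h) _ h
    · intro h
      exact few_one_way hG h
  refine (cost_le_of_comp h1).trans ?_
  have h6 : 6 * n ^ 4 ≤ n ^ 7 := by
    have h7 : 8 ≤ n ^ 3 := by
      calc 8 = 2 ^ 3 := by norm_num
        _ ≤ n ^ 3 := Nat.pow_le_pow_left hn 3
    calc 6 * n ^ 4 ≤ n ^ 3 * n ^ 4 := Nat.mul_le_mul_right _ (by omega)
      _ = n ^ 7 := by ring
  calc 2 * (6 * n ^ 4) ^ (3 * Nat.log 2 k + 6) ≤ n * (n ^ 7) ^ (3 * Nat.log 2 k + 6) :=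
        Nat.mul_le_mul hn (Nat.pow_le_pow_left h6 _)
    _ = n ^ (21 * Nat.log 2 k + 43) := by
        rw [← pow_mul, ← pow_succ']
        congr 1
        ring

end Pool.Agent.Lib.Pe46137S
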