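import Pool.Agent.Lib.Pe46137S.FmlBasic
import Pool.Agent.Lib.Pe46137S.NetUp
import Pool.Agent.Lib.Pe46137S.FmlPhi

/-!
# Formulas that are positive in the arcs are computed by monotone networks
-/

namespace Pool.Agent.Lib.Pe46137S

open Pool.Agent.Lib.Pe46137 Pool.Agent.Lib.Pe46137N

theorem length_pos {ρ : Type} (φ : Fml ρ) : 1 ≤ φ.length := by
  cases φ <;> simp only [Fml.length] <;> omega

theorem reflTransGen_iff_eqvGen {A : Type} {r : A → A → Prop} {a b : A} :
    Relation.ReflTransGen (fun x y => r x y ∨ r y x) a b ↔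
      Relation.EqvGen (fun x y => r x y ∨ r y x) a b := by
  constructor
  · intro h
    induction h with
    | refl => exact Relation.EqvGen.refl _
    | tail _ h ih => exact ih.trans _ _ _ (Relation.EqvGen.rel _ _ h)
  · intro h
    induction h with
    | rel x y h => exact Relation.ReflTransGen.single h
    | refl x => exact Relation.ReflTransGen.refl
    | symm x y _ ih =>
      clear * - ih
      induction ih with
      | refl => exact Relation.ReflTransGen.refl
      | tail _ h ih => exact Relation.ReflTransGen.head h.symm ih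
    | trans x y z _ _ ih1 ih2 => exact ih1.trans ih2

@[simp] theorem pol_neg (φ : Fml Voc) (b : Bool) : (Fml.neg φ).Pol b ↔ φ.Pol !b := Iff.rfl

@[simp] theorem pol_and (φ ψ : Fml Voc) (b : Bool) :
    (Fml.and φ ψ).Pol b ↔ φ.Pol b ∧ ψ.Pol b := Iff.rfl

@[simp] theorem pol_ex (i : ℕ) (φ : Fml Voc) (b : Bool) : (Fml.ex i φ).Pol b ↔ φ.Pol b := Iff.rfl

@[simp] theorem pol_eq (i j : ℕ) (b : Bool) : (Fml.eq i j : Fml Voc).Pol b ↔ True := by
  cases b <;> exact Iff.rfl

@[simp] theorem pol_stc (m c : ℕ) (φ : Fml Voc) (i j : Fin m → ℕ) (b : Bool) :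
    (Fml.stc m c φ i j).Pol b ↔ b = true ∧ φ.Pol b := Iff.rfl

@[simp] theorem pol_or (φ ψ : Fml Voc) (b : Bool) :
    (φ.or ψ).Pol b ↔ φ.Pol b ∧ ψ.Pol b := by
  simp only [Fml.or, pol_neg, pol_and, Bool.not_not]

@[simp] theorem pol_imp (φ ψ : Fml Voc) (b : Bool) :
    (φ.imp ψ).Pol b ↔ φ.Pol (!b) ∧ ψ.Pol b := by
  simp only [Fml.imp, pol_neg, pol_and, Bool.not_not]

@[simp] theorem pol_all (i : ℕ) (φ : Fml Voc) (b : Bool) : (φ.all i).Pol b ↔ φ.Pol b := by
  simp only [Fml.all, pol_neg, pol_ex, Bool.not_not]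

theorem pol_phi {φ : Fml Voc} (h : φ.Pol true) : φ.phi.Pol true := by
  simp only [Fml.phi, phiStep, midmid, pol_or, pol_ex, pol_and, pol_eq, pol_stc, pol_all, pol_imp,
    true_and, and_true]
  exact h

theorem add_le_pow {B x y m n : ℕ} (hB : 2 ≤ B) (hx : x ≤ B ^ m) (hy : y ≤ B ^ n) :
    x + y ≤ B ^ (m + n + 1) := by
  have h1 : 1 ≤ B ^ m := Nat.one_le_pow _ _ (by omega)
  have h2 : 1 ≤ B ^ n := Nat.one_le_pow _ _ (by omega)
  calc x + y ≤ B ^ m + B ^ n := by omega
    _ ≤ B ^ m * B ^ n * 2 := by nlinarith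
    _ ≤ B ^ m * B ^ n * B := Nat.mul_le_mul_left _ hB
    _ = B ^ (m + n + 1) := by rw [pow_succ, pow_add]

theorem comp_decide {E : Type} (M : Set E) (D : Set (Set E)) (P : Prop) :
    Comp M D (fun _ => P) 2 := by
  by_cases h : P
  · exact ((comp_true M D).mono (by norm_num)).congr fun _ _ => by simp [h]
  · exact (comp_false M D).congr fun _ _ => by simp [h]

theorem comp_pol {n : ℕ} (hn : 2 ≤ n) (D : Set (Set (Fin n × Fin n))) (φ : Fml Voc) :
    ∀ (b : Bool), φ.Pol b → ∀ a : ℕ → Fin n,
      Comp Set.univ D (fun G => Sat (str (rel G)) φ a ↔ b = true) ((4 * n) ^ φ.length) := by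
  induction φ with
  | rel r i j =>
    intro b hb a
    refine Comp.mono (m := 2) ?_ (by rw [length_rel, pow_one]; omega)
    cases r with
    | arc =>
      change b = true at hb
      subst hb
      exact (comp_lit Set.univ D (a i, a j)).congr fun G _ => by
        simp only [sat_rel, iff_true]
        rfl
    | lt => exact comp_decide Set.univ D (a i < a j ↔ b = true)
  | eq i j =>
    intro b _ a
    exact (comp_decide Set.univ D (a i = a j ↔ b = true)).mono
      (show 2 ≤ (4 * n) ^ 1 by rw [pow_one]; omega)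
  | neg φ ih =>
    intro b hb a
    refine ((ih (!b) hb a).congr fun G _ => ?_).mono
      (Nat.pow_le_pow_right (by omega) (by rw [length_neg]; omega))
    rw [sat_neg]
    cases b <;> simp
  | and φ ψ ih1 ih2 =>
    intro b hb a
    rw [length_and]
    cases b with
    | true =>
      refine (((ih1 true hb.1 a).and (ih2 true hb.2 a)).congr fun G _ => ?_).mono
        (add_le_pow (by omega) le_rfl le_rfl)
      simp only [sat_and, iff_true]
    | false =>
      refine (((ih1 false hb.1 a).or (ih2 false hb.2 a)).congr fun G _ => ?_).mono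
        (add_le_pow (by omega) le_rfl le_rfl)
      simp only [sat_and, Bool.false_eq_true, iff_false]
      tauto
  | ex i φ ih =>
    intro b hb a
    have hle : n * (4 * n) ^ φ.length + 2 ≤ (4 * n) ^ (Fml.ex i φ).length := by
      rw [length_ex, pow_succ]
      have h1 : 1 ≤ (4 * n) ^ φ.length := Nat.one_le_pow _ _ (by omega)
      nlinarith
    cases b with
    | true =>
      have h := comp_exists (M := Set.univ) (D := D) (Finset.univ : Finset (Fin n))
        (fun v _ => ih true hb (Function.update a i v))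
      rw [Finset.card_univ, Fintype.card_fin] at h
      refine (h.congr fun G _ => ?_).mono hle
      simp only [sat_ex, iff_true, Finset.mem_univ, true_and]
    | false =>
      have h := comp_forall (M := Set.univ) (D := D) (Finset.univ : Finset (Fin n))
        (fun v _ => ih false hb (Function.update a i v))
      rw [Finset.card_univ, Fintype.card_fin] at h
      refine (h.congr fun G _ => ?_).mono (le_trans (by omega) hle)
      simp only [sat_ex, Bool.false_eq_true, iff_false, Finset.mem_univ, true_imp_iff, not_exists]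
  | stc m c φ i j ih =>
    intro b hb a
    obtain ⟨hb1, hb2⟩ := hb
    subst hb1
    have h := comp_graph (M := Set.univ) (D := D) (S := Fin m → Fin n)
      (c := fun p q G => (Sat (str (rel G)) φ (setBlock (setBlock a c p) (c + m) q) ↔ true = true) ∨
        (Sat (str (rel G)) φ (setBlock (setBlock a c q) (c + m) p) ↔ true = true))
      (fun p q => (ih true hb2 _).or (ih true hb2 _)) (fun k => a (i k)) (fun k => a (j k))
    refine (h.congr fun G _ => ?_).mono ?_
    · rw [sat_stc, iff_true_right rfl, reflTransGen_iff_eqvGen]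
      simp only [iff_true]
    · rw [Fintype.card_fun, Fintype.card_fin, Fintype.card_fin, length_stc]
      have h1 : 1 ≤ (4 * n) ^ φ.length := Nat.one_le_pow _ _ (by omega)
      have h2 : 1 ≤ n ^ m := Nat.one_le_pow _ _ (by omega)
      have h3 : n ^ m ≤ (4 * n) ^ m := Nat.pow_le_pow_left (by omega) _
      calc n ^ m + n ^ m * n ^ m * ((4 * n) ^ φ.length + (4 * n) ^ φ.length)
          ≤ n ^ m * n ^ m * (4 * n) ^ φ.length * 3 := by nlinarith
        _ ≤ (4 * n) ^ m * (4 * n) ^ m * (4 * n) ^ φ.length * (4 * n) := by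
          refine Nat.mul_le_mul (Nat.mul_le_mul_right _ (Nat.mul_le_mul h3 h3)) (by omega)
        _ = (4 * n) ^ (φ.length + (2 * m + 1)) := by ring

/-- The monotone cost of reachability is bounded by the length of an arc-positive formula. -/
theorem cost_le_pow_length {n : ℕ} (hn : 2 ≤ n) {D : Set (Set (Fin n × Fin n))} {φ : Fml Voc}
    (hφ : φ.ArcPositive)
    (h : ∀ G ∈ D, ∀ a : ℕ → Fin n, Sat (str (rel G)) φ a ↔ Reach (rel G) (a 0) (a 1))
    (s t : Fin n) : cost D s t Set.univ ≤ n ^ (3 * φ.length) := by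
  have h1 := comp_pol hn D φ true hφ (fun i => if i = 0 then s else t)
  have h2 : Comp Set.univ D (fun G => Reachable G s t) ((4 * n) ^ φ.length) :=
    h1.congr fun G hG => by
      rw [iff_true_right rfl, h G hG]
      exact Iff.rfl
  refine (cost_le_of_comp h2).trans ?_
  rw [pow_mul]
  refine Nat.pow_le_pow_left ?_ _
  calc 4 * n ≤ n * n * n := by nlinarith [Nat.mul_le_mul hn hn]
    _ = n ^ 3 := by ring

/-- The rounds from an arc-positive formula. -/
theorem iter_formula_pos (φ : Fml Voc) (hφ : φ.ArcPositive) (j : ℕ) : ∃ ψ : Fml Voc,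
    ψ.ArcPositive ∧ ψ.length ≤ φ.length + 100 * j ∧
    ∀ (V : Type) (R : Voc → V → V → Prop) (Q : V → V → Prop),
      (∀ x, Q x x) → (∀ a, Sat R φ a ↔ Q (a 0) (a 1)) →
      ∀ a, Sat R ψ a ↔ iter Q j (a 0) (a 1) := by
  induction j with
  | zero => exact ⟨φ, hφ, by simp, fun V R Q _ h a => h a⟩
  | succ j ih =>
    obtain ⟨ψ, h0, h1, h2⟩ := ih
    refine ⟨ψ.phi, pol_phi h0, (length_phi ψ).trans (by omega), fun V R Q hQ h a => ?_⟩
    exact sat_phi (iter_refl hQ j) (h2 V R Q hQ h) a

/-- Short arc-positive formulas for digraphs with few one-way arcs. -/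
theorem positive_formula (k : ℕ) : ∃ φ : Fml Voc, φ.ArcPositive ∧
    φ.length ≤ 700 * (1 + Nat.log 2 (k + 1)) ∧
    ∀ (V : Type) [LinearOrder V] (E : V → V → Prop), FewOneWay k E →
      ∀ a : ℕ → V, Sat (str E) φ a ↔ Reach E (a 0) (a 1) := by
  obtain ⟨φ, h0, h1, h2⟩ := iter_formula_pos (.or (.eq 0 1) (.rel .arc 0 1))
    (by simp only [Fml.ArcPositive, pol_or, pol_eq, true_and]; rfl) (3 * Nat.log 2 k + 6)
  refine ⟨φ, h0, ?_, fun V _ E hE a => ?_⟩
  · have l1 : Nat.log 2 k ≤ Nat.log 2 (k + 1) := Nat.log_mono_right (by omega)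
    rw [length_or, length_eq, length_rel] at h1
    omega
  · rw [h2 V (str E) (fun x y => x = y ∨ E x y) (fun x => Or.inl rfl)
      (fun a => by rw [sat_or]; exact Iff.rfl) a]
    constructor
    · intro h
      refine iter_sound (fun _ => Relation.ReflTransGen.refl)
        (fun _ _ _ h h' => Relation.ReflTransGen.trans h h') (fun x y h => ?_) _ h
      rcases h with rfl | h
      · exact Relation.ReflTransGen.refl
      · exact Relation.ReflTransGen.single h
    · exact few_one_way hE

end Pool.Agent.Lib.Pe46137S
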