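import Pool.Agent.Lib.Pe46137S.Upper
import Pool.Agent.Lib.Pe46137S.Imbalance
import Pool.Agent.Lib.Pe46137S.NetFinal
import Pool.Agent.Lib.Pe46137S.PosFml

/-!
# Assembly
-/

namespace Pool.Agent.Lib.Pe46137S

open Pool.Agent.Lib.Pe46137

theorem short_formula : ∃ C : ℕ, ∀ k : ℕ, ∃ φ : Fml Voc,
    φ.length ≤ C * (1 + Nat.log 2 (k + 1)) ∧
    ∀ (V : Type) [Finite V] [LinearOrder V] (E : V → V → Prop),
      FewOneWay k E ∨ NearlyEulerian k E ∨ imbalance E ≤ k →
        ∀ a : ℕ → V, Sat (str E) φ a ↔ Reach E (a 0) (a 1) := by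
  obtain ⟨C, hC⟩ := upper
  refine ⟨3 * C, fun k => ?_⟩
  obtain ⟨φ, h1, h2⟩ := hC (3 * k)
  refine ⟨φ, h1.trans ?_, fun V _ _ E hE => h2 V E ?_⟩
  · have l2 : Nat.log 2 (3 * k + 1) ≤ Nat.log 2 (k + 1) + 2 := by
      calc Nat.log 2 (3 * k + 1) ≤ Nat.log 2 ((k + 1) * 2 * 2) := Nat.log_mono_right (by omega)
        _ = Nat.log 2 (k + 1) + 2 := by
          rw [Nat.log_mul_base (by norm_num) (by omega), Nat.log_mul_base (by norm_num) (by omega)]
    nlinarith [Nat.zero_le (Nat.log 2 (k + 1)), Nat.zero_le C]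
  · rcases hE with h | h | h
    · exact Or.inl (h.mono (by omega))
    · exact Or.inr (h.mono (by omega))
    · exact Or.inr (nearly_of_imbalance h)

theorem log_le_logb (k : ℕ) : (Nat.log 2 (k + 1) : ℝ) ≤ Real.logb 2 (k + 1) := by
  have h := Real.natLog_le_logb (k + 1) 2
  push_cast at h
  exact h

theorem main : ∃ C : ℝ, 0 < C ∧
    (∀ k : ℕ, ∃ φ : Fml Voc, φ.ArcPositive ∧ (φ.length : ℝ) ≤ C * (1 + Real.logb 2 (k + 1)) ∧
      ∀ (V : Type) [Finite V] [LinearOrder V] (E : V → V → Prop), FewOneWay k E →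
        ∀ a : ℕ → V, Sat (str E) φ a ↔ Reach E (a 0) (a 1)) ∧
    (∀ k : ℕ, ∃ φ : Fml Voc, (φ.length : ℝ) ≤ C * (1 + Real.logb 2 (k + 1)) ∧
      ∀ (V : Type) [Finite V] [LinearOrder V] (E : V → V → Prop),
        FewOneWay k E ∨ NearlyEulerian k E ∨ imbalance E ≤ k →
          ∀ a : ℕ → V, Sat (str E) φ a ↔ Reach E (a 0) (a 1)) ∧
    (∀ n k : ℕ, 2 ≤ n → 1 ≤ k → k ≤ n → ∀ φ : Fml Voc, φ.ArcPositive →
      (∀ E : Fin n → Fin n → Prop, FewOneWay k E →
        ∀ a : ℕ → Fin n, Sat (str E) φ a ↔ Reach E (a 0) (a 1)) →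
      Real.logb 2 (k + 1) ≤ C * φ.length) ∧
    ∀ (n k : ℕ) (s t : Fin n), s ≠ t → 1 ≤ k → k ≤ n →
      Real.logb 2 n * Real.logb 2 (k + 1) ≤
        C * Real.logb 2 (cost {G | FewOneWay k (rel G)} s t Set.univ) ∧
      Real.logb 2 (cost {G | FewOneWay k (rel G)} s t Set.univ) ≤
        C * (Real.logb 2 n * Real.logb 2 (k + 1)) := by
  obtain ⟨C1, h1⟩ := short_formula
  obtain ⟨c, C2, hc, h2⟩ := net_two_sided
  have hlog0 : ∀ k : ℕ, 0 ≤ Real.logb 2 ((k : ℝ) + 1) := fun k =>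
    Real.logb_nonneg (by norm_num) (by linarith [Nat.cast_nonneg (α := ℝ) k])
  have hL0 : ∀ n k : ℕ, 2 ≤ n → 0 ≤ Real.logb 2 n * Real.logb 2 ((k : ℝ) + 1) := fun n k hn =>
    mul_nonneg (Real.logb_nonneg (by norm_num) (by exact_mod_cast (by omega : 1 ≤ n))) (hlog0 k)
  set C : ℝ := 700 + C1 + |C2| + 3 / c with hC
  have hc' : 0 < 3 / c := by positivity
  have hC1 : (0 : ℝ) ≤ C1 := Nat.cast_nonneg _
  have hC2 : 0 ≤ |C2| := abs_nonneg _
  have hCpos : 0 < C := by rw [hC]; linarith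
  have net : ∀ (n k : ℕ) (s t : Fin n), s ≠ t → 1 ≤ k → k ≤ n →
      Real.logb 2 n * Real.logb 2 (k + 1) ≤
        (3 / c / 3) * Real.logb 2 (cost {G | FewOneWay k (rel G)} s t Set.univ) := by
    intro n k s t hst hk hkn
    have h := (h2 n k s t hst hk hkn).1
    have e1 : 3 / c / 3 = c⁻¹ := by field_simp
    rw [e1, inv_mul_eq_div, le_div_iff₀ hc]
    linarith
  refine ⟨C, hCpos, fun k => ?_, fun k => ?_, ?_, ?_⟩
  · obtain ⟨φ, e0, e1, e2⟩ := positive_formula k
    refine ⟨φ, e0, ?_, fun V _ _ E hE a => e2 V E hE a⟩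
    have e3 : (φ.length : ℝ) ≤ 700 * (1 + (Nat.log 2 (k + 1) : ℝ)) := by exact_mod_cast e1
    refine e3.trans ?_
    have := log_le_logb k
    have := hlog0 k
    nlinarith
  · obtain ⟨φ, e1, e2⟩ := h1 k
    refine ⟨φ, ?_, e2⟩
    have e3 : (φ.length : ℝ) ≤ C1 * (1 + (Nat.log 2 (k + 1) : ℝ)) := by exact_mod_cast e1
    refine e3.trans ?_
    have := log_le_logb k
    have := hlog0 k
    nlinarith
  · intro n k hn hk hkn φ hφ h
    obtain ⟨s, t, hst⟩ : ∃ s t : Fin n, s ≠ t :=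
      ⟨⟨0, by omega⟩, ⟨1, by omega⟩, fun he => by simpa using congrArg Fin.val he⟩
    have e1 := cost_le_pow_length hn (D := {G | FewOneWay k (rel G)}) hφ
      (fun G hG a => h (rel G) hG a) s t
    have e2 := net n k s t hst hk hkn
    have hn1 : 1 ≤ Real.logb 2 n := by
      rw [Real.le_logb_iff_rpow_le (by norm_num) (by exact_mod_cast (by omega : 0 < n))]
      norm_num
      exact_mod_cast hn
    have hcost : 0 < cost {G | FewOneWay k (rel G)} s t Set.univ := by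
      obtain ⟨N, -, -⟩ := cost_spec (𝒢 := {G | FewOneWay k (rel G)}) s t Set.univ
      exact Fin.pos N.source
    have e3 : Real.logb 2 (cost {G | FewOneWay k (rel G)} s t Set.univ) ≤
        3 * φ.length * Real.logb 2 n := by
      have : ((cost {G | FewOneWay k (rel G)} s t Set.univ : ℕ) : ℝ) ≤ (n : ℝ) ^ (3 * φ.length) := by
        exact_mod_cast e1
      calc Real.logb 2 (cost {G | FewOneWay k (rel G)} s t Set.univ)
          ≤ Real.logb 2 ((n : ℝ) ^ (3 * φ.length)) :=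
            Real.logb_le_logb_of_le (by norm_num) (by exact_mod_cast hcost) this
        _ = 3 * φ.length * Real.logb 2 n := by rw [Real.logb_pow]; push_cast; ring
    have e4 : Real.logb 2 n * Real.logb 2 (k + 1) ≤ Real.logb 2 n * (3 / c * φ.length) := by
      have : (3 / c / 3) * Real.logb 2 (cost {G | FewOneWay k (rel G)} s t Set.univ) ≤
          (3 / c / 3) * (3 * φ.length * Real.logb 2 n) :=
        mul_le_mul_of_nonneg_left e3 (by positivity)
      refine (e2.trans this).trans (le_of_eq ?_)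
      ring
    have e5 := le_of_mul_le_mul_left e4 (by linarith)
    refine e5.trans (mul_le_mul_of_nonneg_right ?_ (Nat.cast_nonneg _))
    rw [hC]; linarith
  · intro n k s t hst hk hkn
    have hn : 2 ≤ n := by
      have h3 := s.2
      have h4 := t.2
      by_contra hlt
      exact hst (Fin.ext (by omega))
    have e1 := net n k s t hst hk hkn
    have e2 := (h2 n k s t hst hk hkn).2
    have e0 := hL0 n k hn
    have hcost : 0 ≤ Real.logb 2 (cost {G | FewOneWay k (rel G)} s t Set.univ) := by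
      by_contra hneg
      have : (3 / c / 3) * Real.logb 2 (cost {G | FewOneWay k (rel G)} s t Set.univ) < 0 :=
        mul_neg_of_pos_of_neg (by positivity) (lt_of_not_ge hneg)
      linarith
    refine ⟨e1.trans (mul_le_mul_of_nonneg_right ?_ hcost), e2.trans
      (mul_le_mul_of_nonneg_right ?_ e0)⟩
    · rw [hC]; linarith
    · rw [hC]; linarith [le_abs_self C2]

end Pool.Agent.Lib.Pe46137S
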