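import Pool.Agent.Lib.Pe46137S.NetLow

/-!
# Explicit lower bound

PROOF. Take `l = 2 ^ d` (so `l + 1 ≤ 3 * k` as `l ≤ 2 * k` and `1 ≤ k`), and by Bertrand's postulate
a prime `q` with `m < q ≤ 2 * m` for a suitable `m` about `n / (4 * l)`, so that `l * q + 2 ≤ n` and
`q ≥ n / (8 * l)`; `l ≤ n ^ (1 / 8)`.  Then `S ^ 2 ≥ q ^ (d - 1) / (9 * l + 1) ^ d`.
-/

namespace Pool.Agent.Lib.Pe46137S

open Pool.Agent.Lib.Pe46137

theorem NetBoundAux.lt_div {a b : ℕ} (hb : 0 < b) : a < (a / b + 1) * b := by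
  have h1 := Nat.div_add_mod a b
  have h2 := Nat.mod_lt a hb
  calc a = b * (a / b) + a % b := h1.symm
    _ < b * (a / b) + b := by omega
    _ = (a / b + 1) * b := by ring

theorem NetBoundAux.expo (a : ℕ) :
    (2 * a ^ 2 + 37 * a + 166) * 10 ≤ 8 * (a + 8) * (9 * a + 62) := by
  nlinarith [Nat.zero_le a, Nat.zero_le (a ^ 2)]

theorem NetBoundAux.pow_le (a : ℕ) {n : ℕ} (hn : 2 ^ (8 * (a + 8)) ≤ n) :
    2 ^ ((2 * a ^ 2 + 37 * a + 166) * 10) ≤ n ^ (9 * a + 62) := by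
  have h1 : (2:ℕ) ^ ((2 * a ^ 2 + 37 * a + 166) * 10) ≤ 2 ^ (8 * (a + 8) * (9 * a + 62)) :=
    Nat.pow_le_pow_right (by norm_num) (NetBoundAux.expo a)
  rw [pow_mul 2 (8 * (a + 8)) (9 * a + 62)] at h1
  exact h1.trans (Nat.pow_le_pow_left hn _)

theorem low_bound {d k n : ℕ} (hd : 8 ≤ d) (hk : 2 ^ d ≤ 2 * k) (hn : 2 ^ (8 * d) ≤ n)
    {s t : Fin n} (hst : s ≠ t) {W : Type} [Fintype W]
    (N : SwitchingNetwork (Fin n × Fin n) W)
    (hN : N.DecidesOn {G | FewOneWay k (rel G)} s t) (hneg : N.Avoids Set.univ) :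
    n ^ d ≤ (Fintype.card W) ^ 20 := by
  have h2d : 256 ≤ 2 ^ d := by
    calc 256 = 2 ^ 8 := by norm_num
      _ ≤ 2 ^ d := Nat.pow_le_pow_right (by norm_num) hd
  set l := 2 ^ d with hl
  have hn8 : l ^ 8 ≤ n := by
    rw [hl, ← pow_mul, mul_comm]
    exact hn
  have hl2 : l ^ 2 * 256 ≤ n := by
    calc l ^ 2 * 256 ≤ l ^ 2 * l ^ 6 := by
          apply Nat.mul_le_mul_left
          calc 256 ≤ l := h2d
            _ = l ^ 1 := (pow_one l).symm
            _ ≤ l ^ 6 := Nat.pow_le_pow_right (by omega) (by norm_num)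
      _ = l ^ 8 := by ring
      _ ≤ n := hn8
  set m := (n - 2) / (2 * l) with hm
  have hm1 : m * (2 * l) ≤ n - 2 := Nat.div_mul_le_self _ _
  have hm2 : n - 2 < (m + 1) * (2 * l) := by
    exact NetBoundAux.lt_div (by omega)
  have hln : 256 * l ≤ n := by nlinarith
  have hm0 : m ≠ 0 := by
    intro h0
    rw [h0] at hm2
    omega
  obtain ⟨q, hq, hq1, hq2⟩ := Nat.exists_prime_lt_and_le_two_mul m hm0
  have hfq : Fact q.Prime := ⟨hq⟩
  have hqn : l * q + 2 ≤ n := by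
    have h1 : l * q ≤ l * (2 * m) := Nat.mul_le_mul_left _ hq2
    have h3 : l * (2 * m) = m * (2 * l) := by ring
    omega
  have hnq : n ≤ 4 * l * q := by
    have h1 : (m + 1) * (2 * l) ≤ q * (2 * l) := Nat.mul_le_mul_right _ hq1
    have h3 : n ≤ q * (2 * l) + 1 := by omega
    have h4 : 1 ≤ q * (2 * l) := Nat.mul_pos hq.pos (by omega)
    calc n ≤ q * (2 * l) + q * (2 * l) := by omega
      _ = 4 * l * q := by ring
  have hlq : l ≤ q := by
    by_contra hc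
    rw [not_le] at hc
    have h1 : 4 * l * q ≤ 4 * l * l := Nat.mul_le_mul_left _ hc.le
    have h3 : l ^ 2 * 256 ≤ 4 * l * l := hl2.trans (hnq.trans h1)
    nlinarith
  have hlow := low_param (q := q) (l := l) (by omega : 2 ≤ d) le_rfl hlq (by omega) hqn hst N hN hneg
  set S := Fintype.card W with hS
  have hlow' : q ^ (d - 1) ≤ S ^ 2 * (9 * l + 1) ^ d := by exact_mod_cast hlow
  obtain ⟨a, rfl⟩ : ∃ a, d = a + 8 := ⟨d - 8, by omega⟩
  have e1 : a + 8 - 1 = a + 7 := by omega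
  rw [e1] at hlow'
  have h9 : 9 * l + 1 ≤ 2 ^ (a + 12) := by
    have : 2 ^ (a + 12) = 16 * l := by rw [hl]; ring
    omega
  have h4 : 4 * l = 2 ^ (a + 10) := by rw [hl]; ring
  have h5 : n ^ (a + 7) ≤ S ^ 2 * 2 ^ (2 * a ^ 2 + 37 * a + 166) := by
    calc n ^ (a + 7) ≤ (4 * l * q) ^ (a + 7) := Nat.pow_le_pow_left hnq _
      _ = 2 ^ ((a + 10) * (a + 7)) * q ^ (a + 7) := by rw [mul_pow, h4, ← pow_mul]
      _ ≤ 2 ^ ((a + 10) * (a + 7)) * (S ^ 2 * (2 ^ (a + 12)) ^ (a + 8)) := by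
          apply Nat.mul_le_mul_left
          exact hlow'.trans (Nat.mul_le_mul_left _ (Nat.pow_le_pow_left h9 _))
      _ = S ^ 2 * 2 ^ ((a + 10) * (a + 7) + (a + 12) * (a + 8)) := by
          rw [← pow_mul, pow_add]; ring
      _ = S ^ 2 * 2 ^ (2 * a ^ 2 + 37 * a + 166) := by
          congr 2
          ring
  have h6 : n ^ (a + 8) * n ^ (9 * a + 62) ≤ S ^ 20 * n ^ (9 * a + 62) := by
    calc n ^ (a + 8) * n ^ (9 * a + 62) = (n ^ (a + 7)) ^ 10 := by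
          rw [← pow_add, ← pow_mul]
          congr 1
          ring
      _ ≤ (S ^ 2 * 2 ^ (2 * a ^ 2 + 37 * a + 166)) ^ 10 := Nat.pow_le_pow_left h5 _
      _ = S ^ 20 * 2 ^ ((2 * a ^ 2 + 37 * a + 166) * 10) := by
          rw [mul_pow, ← pow_mul, ← pow_mul]
      _ ≤ S ^ 20 * n ^ (9 * a + 62) := Nat.mul_le_mul_left _ (NetBoundAux.pow_le a hn)
  exact Nat.le_of_mul_le_mul_right h6 (Nat.pow_pos (by omega))

end Pool.Agent.Lib.Pe46137S
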