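import Pool.Agent.Lib.Pe46137S.NetUp
import Pool.Agent.Lib.Pe46137.Core
import Pool.Agent.Lib.Pe46137.Family

/-!
# Lower bound for monotone networks: many almost disjoint paths of bounded length

PROOF. `core` of `Pool/Agent/Lib/Pe46137/Core.lean` with `F` = polynomials of degree `< d - 1` over
`ZMod q`, `Q = Fin l × ZMod q` embedded into the vertices different from `s, t`, the path of `f`
being `s → (0, f 0) → (1, f 1) → ... → (l - 1, f (l - 1)) → t` (it has `l + 1 ≤ 3 * k` arcs: among
any `k + 1` of them two are at index distance at most two, hence near each other), `G x` = all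
pairs except those from the side of `s` to the side of `t`, where `x` gives the sides of the points
of `Q` (all other vertices on the side of `t`); one-way arcs of `G x` go from the side of `t` to the
side of `s`, and any two vertices of one side are joined by arcs; `J v x = 1` if `v` is connected to
the source when the contacts of `G x` are closed, `0` otherwise.  See also `LowerX.lean` in
`Pool/Agent/Lib/Pe46137N` (`pathOf`, `walk`, `hat`, `Cross`) and `Pool/Agent/Lib/Pe46137/Dag.lean`.
-/

namespace Pool.Agent.Lib.Pe46137S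

open Pool.Agent.Lib.Pe46137

namespace NetLowAux

open Finset

/-- an injection of the clusters with prescribed ends -/
theorem exists_sigma {l q n : ℕ} [NeZero q] (hn : l * q + 2 ≤ n) {s t : Fin n} (hst : s ≠ t) :
    ∃ σ : Cl l q → Fin n, Function.Injective σ ∧ σ (Sum.inr true) = s ∧ σ (Sum.inr false) = t := by
  classical
  have h1 : Fintype.card (Cl l q) ≤ Fintype.card (Fin n) := by
    rw [card_Cl, Fintype.card_fin]
    exact hn
  obtain ⟨e⟩ := Function.Embedding.nonempty_of_card_le h1
  set e1 : Cl l q → Fin n := fun c => Equiv.swap (e (Sum.inr true)) s (e c) with he1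
  have h2 : Function.Injective e1 := (Equiv.injective _).comp e.injective
  have h3 : e1 (Sum.inr true) = s := Equiv.swap_apply_left _ _
  have h4 : e1 (Sum.inr false) ≠ s := by
    intro h
    have h5 := h2 (h.trans h3.symm)
    exact absurd h5 (by simp)
  refine ⟨fun c => Equiv.swap (e1 (Sum.inr false)) t (e1 c), (Equiv.injective _).comp h2, ?_,
    Equiv.swap_apply_left _ _⟩
  change Equiv.swap (e1 (Sum.inr false)) t (e1 (Sum.inr true)) = s
  rw [h3]
  exact Equiv.swap_apply_of_ne_of_ne (Ne.symm h4) hst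

variable {l q n : ℕ}

/-- the digraph of a path -/
def GP (σ : Cl l q → Fin n) (p : Fin l ↪ Fin l × ZMod q) : Set (Fin n × Fin n) :=
  {a | ∃ i ≤ l, a = (σ (walk p i), σ (walk p (i + 1)))}

theorem GP_few {k : ℕ} (hk : l + 1 ≤ 3 * k) (σ : Cl l q → Fin n) (p : Fin l ↪ Fin l × ZMod q) :
    FewOneWay k (rel (GP σ p)) := by
  intro f hf
  have h1 : ∀ j, ∃ i ≤ l, f j = (σ (walk p i), σ (walk p (i + 1))) := fun j => (hf j).1
  choose a ha hfa using h1
  obtain ⟨i, j, hij, h2⟩ : ∃ i j, i ≠ j ∧ a i / 3 = a j / 3 := by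
    have h3 : Fintype.card (Fin k) < Fintype.card (Fin (k + 1)) := by
      rw [Fintype.card_fin, Fintype.card_fin]
      exact Nat.lt_succ_self k
    obtain ⟨i, j, hij, h⟩ := Fintype.exists_ne_map_eq_of_card_lt
      (fun i : Fin (k + 1) => (⟨a i / 3, by have := ha i; omega⟩ : Fin k)) h3
    exact ⟨i, j, hij, congrArg Fin.val h⟩
  refine ⟨i, j, hij, ?_⟩
  rw [hfa i, hfa j]
  have arc : ∀ b ≤ l, rel (GP σ p) (σ (walk p b)) (σ (walk p (b + 1))) := fun b hb => ⟨b, hb, rfl⟩
  have h4 : a i = a j ∨ a j = a i + 1 ∨ a j = a i + 2 ∨ a i = a j + 1 ∨ a i = a j + 2 := by omega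
  rcases h4 with h | h | h | h | h
  · exact Or.inl (Or.inl (by rw [h]))
  · exact Or.inr (Or.inr (Or.inl (Or.inl (by rw [h]))))
  · refine Or.inr (Or.inr (Or.inl (Or.inr (Or.inl ?_))))
    have h5 := ha j
    rw [h]
    exact arc (a i + 1) (by omega)
  · exact Or.inr (Or.inl (Or.inl (by rw [h])))
  · refine Or.inr (Or.inl (Or.inr (Or.inr ?_)))
    have h5 := ha i
    rw [h]
    exact arc (a j + 1) (by omega)

theorem GP_reach (σ : Cl l q → Fin n) (p : Fin l ↪ Fin l × ZMod q) :
    Reachable (GP σ p) (σ (Sum.inr true)) (σ (Sum.inr false)) := by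
  have key : ∀ i ≤ l + 1, Reachable (GP σ p) (σ (Sum.inr true)) (σ (walk p i)) := by
    intro i
    induction i with
    | zero =>
      intro _
      exact Relation.ReflTransGen.refl
    | succ i ih =>
      intro hi
      exact (ih (by omega)).tail ⟨i, by omega, rfl⟩
  have h := key (l + 1) le_rfl
  rwa [walk_last p le_rfl] at h

open Classical in
/-- the sides of the vertices -/
noncomputable def side (σ : Cl l q → Fin n) (x : Fin l × ZMod q → Bool) (v : Fin n) : Bool :=
  if h : ∃ c, σ c = v then hat x h.choose else false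

theorem side_sigma {σ : Cl l q → Fin n} (hσ : Function.Injective σ) (x : Fin l × ZMod q → Bool)
    (c : Cl l q) : side σ x (σ c) = hat x c := by
  have hv : ∃ c', σ c' = σ c := ⟨c, rfl⟩
  have h1 : side σ x (σ c) = hat x hv.choose := dif_pos hv
  rw [h1, hσ hv.choose_spec]

/-- the digraph of a cut -/
def GX (σ : Cl l q → Fin n) (x : Fin l × ZMod q → Bool) : Set (Fin n × Fin n) :=
  {a | ¬ (side σ x a.1 = true ∧ side σ x a.2 = false)}

theorem GX_touch (σ : Cl l q → Fin n) (x : Fin l × ZMod q → Bool) (u v : Fin n) :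
    Touch (rel (GX σ x)) u v := by
  cases hu : side σ x u with
  | false =>
    refine Or.inr (Or.inl ?_)
    rintro ⟨h, _⟩
    change side σ x u = true at h
    rw [hu] at h
    exact absurd h (by simp)
  | true =>
    refine Or.inr (Or.inr ?_)
    rintro ⟨_, h⟩
    change side σ x u = false at h
    rw [hu] at h
    exact absurd h (by simp)

theorem GX_few {k : ℕ} (hk : 1 ≤ k) (σ : Cl l q → Fin n) (x : Fin l × ZMod q → Bool) :
    FewOneWay k (rel (GX σ x)) := by
  intro f _
  refine ⟨⟨0, by omega⟩, ⟨1, by omega⟩, ?_, Or.inl (GX_touch σ x _ _)⟩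
  intro h
  exact absurd (congrArg Fin.val h) (by simp)

theorem GX_not_reach {σ : Cl l q → Fin n} (hσ : Function.Injective σ)
    (x : Fin l × ZMod q → Bool) : ¬ Reachable (GX σ x) (σ (Sum.inr true)) (σ (Sum.inr false)) := by
  intro h
  have key : ∀ v, Reachable (GX σ x) (σ (Sum.inr true)) v → side σ x v = true := by
    intro v hv
    induction hv with
    | refl =>
      rw [side_sigma hσ]
      rfl
    | @tail b c _ hbc ih =>
      have h1 : ¬ (side σ x b = true ∧ side σ x c = false) := hbc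
      by_contra hc
      exact h1 ⟨ih, by simpa using hc⟩
  have h2 := key _ h
  rw [side_sigma hσ] at h2
  exact absurd h2 (by simp [hat])

end NetLowAux

open NetLowAux in
theorem low_param {d l q k n : ℕ} [Fact q.Prime] (hd : 2 ≤ d) (hl : 2 ^ d ≤ l) (hlq : l ≤ q)
    (hk : l + 1 ≤ 3 * k) (hn : l * q + 2 ≤ n) {s t : Fin n} (hst : s ≠ t) {W : Type} [Fintype W]
    (N : SwitchingNetwork (Fin n × Fin n) W)
    (hN : N.DecidesOn {G | FewOneWay k (rel G)} s t) (hneg : N.Avoids Set.univ) :
    (q : ℝ) ^ (d - 1) ≤ (Fintype.card W : ℝ) ^ 2 * (9 * l + 1) ^ d := by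
  classical
  have hq0 : NeZero q := ⟨(Fact.out : q.Prime).ne_zero⟩
  obtain ⟨σ, hσ, hσs, hσt⟩ := exists_sigma hn hst
  have hk1 : 1 ≤ k := by omega
  have hfin : Finite (Polynomial.degreeLT (ZMod q) (d - 1)) :=
    Finite.of_equiv _ (Polynomial.degreeLTEquiv (ZMod q) (d - 1)).toEquiv.symm
  have hfin' : Fintype (Polynomial.degreeLT (ZMod q) (d - 1)) := Fintype.ofFinite _
  set p : Polynomial.degreeLT (ZMod q) (d - 1) → (Fin l ↪ Fin l × ZMod q) := fun f =>
    pathOf l q f.1 with hp
  set J : W → (Fin l × ZMod q → Bool) → ℝ := fun v x =>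
    if Relation.EqvGen (N.Closed (GX σ x) (GX σ x)ᶜ) N.source v then 1 else 0 with hJ
  have hJstep : ∀ v w x, N.Closed (GX σ x) (GX σ x)ᶜ v w → J v x = J w x := by
    intro v w x h
    have : Relation.EqvGen (N.Closed (GX σ x) (GX σ x)ᶜ) N.source v ↔
        Relation.EqvGen (N.Closed (GX σ x) (GX σ x)ᶜ) N.source w :=
      ⟨fun h' => h'.trans _ _ _ (Relation.EqvGen.rel _ _ h),
        fun h' => h'.trans _ _ _ ((Relation.EqvGen.rel _ _ h).symm _ _)⟩
    simp only [hJ, this]
  have hJsq : ∀ v x, J v x * J v x ≤ 1 := by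
    intro v x
    simp only [hJ]
    split_ifs <;> norm_num
  have hJs : ∀ x, J N.source x = 1 := fun x => if_pos (Relation.EqvGen.refl _)
  have hJt : ∀ x, J N.sink x = 0 := fun x => if_neg (fun h => by
    have h1 := (hN (GX σ x) (GX_few hk1 σ x)).mp h
    rw [← hσs, ← hσt] at h1
    exact GX_not_reach hσ x h1)
  have hstf : ∀ f, Relation.EqvGen (N.Closed (GP σ (p f)) (GP σ (p f))ᶜ) N.source N.sink := by
    intro f
    refine (hN (GP σ (p f)) (GP_few hk σ (p f))).mpr ?_
    have h1 := GP_reach σ (p f)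
    rwa [hσs, hσt] at h1
  have hdis : ∀ f f', f ≠ f' → ∀ S S' : Finset (Fin l), S.map (p f) = S'.map (p f') →
      S.card + 2 ≤ d := by
    intro f f' hne S S' h
    have := family (m := d - 1) hlq f f' hne S S' h
    omega
  have hL : ∀ f (v w : W), N.Closed (GP σ (p f)) (GP σ (p f))ᶜ v w →
      ∃ i ≤ l, ∀ x, ¬ Cross i (fun j => x (p f j)) → J v x = J w x := by
    intro f v w hvw
    rcases hvw with h | ⟨a, ⟨i, hi, rfl⟩, h⟩ | ⟨a, _, h⟩
    · exact ⟨0, Nat.zero_le _, fun x _ => hJstep v w x (Or.inl h)⟩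
    · refine ⟨i, hi, fun x hx => hJstep v w x (Or.inr (Or.inl ⟨_, ?_, h⟩))⟩
      change ¬ (side σ x (σ (walk (p f) i)) = true ∧ side σ x (σ (walk (p f) (i + 1))) = false)
      rw [side_sigma hσ, side_sigma hσ, hat_walk, hat_walk]
      exact hx
    · exact absurd h (hneg a (Set.mem_univ _) v w)
  have hcore := core (W := W) hd hl p hdis J hJsq
    (fun f => N.Closed (GP σ (p f)) (GP σ (p f))ᶜ) hL hJs hJt hstf
  have hcardF : Fintype.card (Polynomial.degreeLT (ZMod q) (d - 1)) = q ^ (d - 1) := by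
    rw [← Nat.card_eq_fintype_card]
    exact card_family
  rw [hcardF] at hcore
  exact_mod_cast hcore

end Pool.Agent.Lib.Pe46137S
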