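import Pool.Agent.Lib.Pe46137S.Word
import Pool.Agent.Lib.Pe46137S.TrailBasic

/-!
# Strong components of nearly Eulerian digraphs

PROOF of `ncard_letters_le`.  Let `S = strong E v`.  An arc `(x, z)` inside `S` that follows no arc inside `S` either follows no arc at
all or follows exactly one arc `(w, x)` with `w ∉ S` (`follows_left_unique`).  The first kind: at most
`∑_{x ∈ S} (outdeg x - indeg x)` truncated (`ncard_start_le`; all out-arcs counted).  The second kind: at most the number of arcs
entering `S` (`follows_right_unique`).  And `outdeg x - indeg x ≤ |outIn x - inIn x| + (number of arcs from x out of S)`.  So the total is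
at most `k + (arcs leaving S) + (arcs entering S) ≤ 3 * k`, where the arcs entering `S` enter the sink set `D = {w | Reach E v w}`
(an arc `(w, x)`, `w ∉ S`, `x ∈ S`: if `w ∈ D` then `w` is in `S`), and the arcs leaving `S` enter the sink set `D \ S`
(it is a sink set, since an arc from `D \ S` into `S` would put its tail into `S`).

PROOF of `strong_sim`.  `R = OnTrail E` (reflexive, sound: `onTrail_sound`).  Let `v, w` in one strong component `S`.  It is enough to
show `iter R J a b` for all `a b ∈ S`, `J = 3 * log (3 * k) + 6` (then both directions, `Sim.of`).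
Choose a chain of `l` steps from `a` to `b` with the least `l`: `R (u p) (v p)`, `Sim R (v p) (u (p + 1))`, `Sim R a (u 0)`,
`Sim R (v (l - 1)) b` (exists: arcs are in `R`, `onTrail_of_arc`).  All `u p`, `v p` are in `S` (between `a` and `b`; R and Sim are
sound).  By minimality `u p ≠ v p` and not `R (v p) (u p)`.  So the step `p` is a trail segment: arcs `(u p, x) →* (z, v p)`.
All arcs met are inside `S` (they lie on a walk from `u p` to `v p`).  Apply `exists_start` with `A` = arcs inside `S` and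
`e = (u p, x)`.  First case: the trail is closed, `Follows e' e`, `e →* e'`, so the trail from `(z, v p)` goes on to `e'` entering `u p`
(linear order on the orbit: `e →* (z, v p)` and `e →* e'`, so `(z, v p) →* e'` or `e' →* (z, v p)`, in the second case
follow on `e' → e`: `(z, v p)` is on the cycle, and comes back; use that a functional relation's closures from one point are
comparable, `Relation.ReflTransGen.total_of_right_unique`), hence if `(z, v p) = e'` then `v p = u p`, contradiction, else
the arc after `(z, v p)` leaves `v p` and reaches `e'` which enters `u p`: `R (v p) (u p)`, contradiction with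
minimality (`Sim R (u p) (v p)`).  Second case: letter of `p` := the arc `b` without predecessor in `A`, `b →* e`.  There are at most
`3 * k` letters (`ncard_letters_le`).  Let `Adj p q` := same letter.  If `p + 3 ≤ q` (even `p < q`) with the same
letter `b`: `b →* e_p →* f_p` (first and last arc of the segment `p`) and `b →* e_q →* f_q`.  Comparable
(`total_of_right_unique`): if `e_p →* f_q` then `R (u p) (v q)`, shortening the chain, contradiction; otherwise `f_q →* e_p`, and
if `f_q = e_p` then also `e_p →* f_q`; so `f_q → g →* e_p`, the arc `g` leaves `v q`, and hence there is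
`h` with `g →* h → e_p` or `g = e_p`: if `g = e_p` then `v q = u p`; else `h` enters `u p`, `R (v q) (u p)`.  In both cases
`R (v q) (u p)` and `u q → v q → u p → v p` gives `iter R 2 (u q) (v p)`.  Finish with `word_lemma` (with `max (3 * k) 1`; if
`k = 0` there are no letters, so `l = 0`, or use `Nat.log 2 0 = Nat.log 2 1`).
-/

namespace Pool.Agent.Lib.Pe46137S

variable {V : Type} [Finite V] [LinearOrder V] {E : V → V → Prop}

namespace StrongAux

theorem nc {α : Type} [Fintype α] (s : Set α) [DecidablePred (· ∈ s)] :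
    s.ncard = (Finset.univ.filter (fun a => a ∈ s)).card := by
  rw [← Set.ncard_coe_finset]
  congr 1
  ext a
  simp

omit [LinearOrder V] in
/-- The arcs leaving a strong component. -/
theorem leave_le {k : ℕ} (h : NearlyEulerian k E) (v : V) :
    {e : V × V | e.1 ∈ strong E v ∧ e.2 ∉ strong E v ∧ E e.1 e.2}.ncard ≤ k := by
  obtain ⟨T, hT⟩ : ∃ T : Set V, T = {y | Reach E v y ∧ y ∉ strong E v} := ⟨_, rfl⟩
  have hsink : SinkSet E T := by
    intro x hx y hxy
    rw [hT] at hx ⊢
    have h1 : Reach E v y := hx.1.tail hxy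
    refine ⟨h1, fun hy => hx.2 ⟨hx.1, ?_⟩⟩
    exact Relation.ReflTransGen.head hxy hy.2
  refine le_trans (Set.ncard_le_ncard ?_ (Set.toFinite _)) (h.1 T hsink)
  rintro ⟨x, y⟩ ⟨h1, h2, h3⟩
  refine ⟨?_, ?_, h3⟩
  · rw [hT]
    exact fun hx => hx.2 h1
  · rw [hT]
    exact ⟨h1.1.tail h3, h2⟩

omit [LinearOrder V] in
/-- The arcs entering a strong component. -/
theorem enter_le {k : ℕ} (h : NearlyEulerian k E) (v : V) :
    {e : V × V | e.1 ∉ strong E v ∧ e.2 ∈ strong E v ∧ E e.1 e.2}.ncard ≤ k := by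
  obtain ⟨T, hT⟩ : ∃ T : Set V, T = {y | Reach E v y} := ⟨_, rfl⟩
  have hsink : SinkSet E T := by
    intro x hx y hxy
    rw [hT] at hx ⊢
    exact Relation.ReflTransGen.tail hx hxy
  refine le_trans (Set.ncard_le_ncard ?_ (Set.toFinite _)) (h.1 T hsink)
  rintro ⟨x, y⟩ ⟨h1, h2, h3⟩
  refine ⟨?_, ?_, h3⟩
  · rw [hT]
    exact fun hx => h1 ⟨hx, Relation.ReflTransGen.head h3 h2.2⟩
  · rw [hT]
    exact h2.1

end StrongAux

open StrongAux

/-- The number of arcs inside the strong component of `v` that follow no arc inside it. -/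
theorem ncard_letters_le {k : ℕ} (h : NearlyEulerian k E) (v : V) :
    {e : V × V | (e.1 ∈ strong E v ∧ e.2 ∈ strong E v ∧ E e.1 e.2) ∧
      ∀ a : V × V, a.1 ∈ strong E v → a.2 ∈ strong E v → ¬ Follows E a e}.ncard ≤ 3 * k := by
  classical
  cases nonempty_fintype V
  obtain ⟨S, hS⟩ : ∃ S : Set V, S = strong E v := ⟨_, rfl⟩
  have hleave := leave_le h v
  have henter := enter_le h v
  have himb := h.2 v
  rw [← hS] at hleave henter himb ⊢
  obtain ⟨L1, hL1⟩ : ∃ L1 : Set (V × V), L1 = {e | (e.1 ∈ S ∧ E e.1 e.2) ∧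
      ¬ ∃ w, Follows E (w, e.1) e} := ⟨_, rfl⟩
  obtain ⟨L2, hL2⟩ : ∃ L2 : Set (V × V), L2 = {e | ∃ w, w ∉ S ∧ e.1 ∈ S ∧
      Follows E (w, e.1) e} := ⟨_, rfl⟩
  have hsub : {e : V × V | (e.1 ∈ S ∧ e.2 ∈ S ∧ E e.1 e.2) ∧
      ∀ a : V × V, a.1 ∈ S → a.2 ∈ S → ¬ Follows E a e} ⊆ L1 ∪ L2 := by
    rintro e ⟨⟨h1, h2, h3⟩, h4⟩
    by_cases h5 : ∃ w, Follows E (w, e.1) e
    · right
      obtain ⟨w, hw⟩ := h5
      rw [hL2]
      exact ⟨w, fun hwS => h4 (w, e.1) hwS h1 hw, h1, hw⟩
    · left
      rw [hL1]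
      exact ⟨⟨h1, h3⟩, h5⟩
  -- the second kind
  have h2 : L2.ncard ≤ k := by
    refine le_trans ?_ henter
    have hch : ∀ e ∈ L2, ∃ w, w ∉ S ∧ e.1 ∈ S ∧ Follows E (w, e.1) e := by
      intro e he
      rw [hL2] at he
      exact he
    have hne : Nonempty V := ⟨v⟩
    choose! f hf using hch
    refine Set.ncard_le_ncard_of_injOn (fun e => (f e, e.1)) ?_ ?_ (Set.toFinite _)
    · intro e he
      obtain ⟨h3, h4, h5⟩ := hf e he
      exact ⟨h3, h4, h5.2.1⟩
    · intro e he e' he' hee
      have h3 := (hf e he).2.2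
      have h4 := (hf e' he').2.2
      have hee' : (f e, e.1) = (f e', e'.1) := hee
      rw [hee'] at h3
      exact follows_right_unique h3 h4
  -- the first kind
  have h1 : L1.ncard ≤ ∑ x ∈ Finset.univ.filter (fun x => x ∈ S),
      ({z | E x z}.ncard - {w | E w x}.ncard) := by
    rw [nc L1, Finset.card_eq_sum_card_fiberwise (f := Prod.fst)
      (t := Finset.univ.filter (fun x => x ∈ S)) (by
        intro e he
        rw [Finset.mem_coe, Finset.mem_filter, hL1] at he
        rw [Finset.mem_coe, Finset.mem_filter]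
        exact ⟨Finset.mem_univ _, he.2.1.1⟩)]
    refine Finset.sum_le_sum fun x _ => ?_
    refine le_trans ?_ (ncard_start_le (E := E) x)
    rw [nc]
    refine Finset.card_le_card_of_injOn Prod.snd ?_ ?_
    · intro e he
      rw [Finset.mem_coe, Finset.mem_filter, Finset.mem_filter, hL1] at he
      rw [Finset.mem_coe, Finset.mem_filter]
      obtain ⟨⟨-, ⟨⟨-, h4⟩, h5⟩⟩, h6⟩ := he
      refine ⟨Finset.mem_univ _, ?_, ?_⟩
      · rw [← h6]
        exact h4
      · rintro ⟨w, hw⟩
        refine h5 ⟨w, ?_⟩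
        rw [← h6] at hw
        exact hw
    · intro e he e' he' hee
      rw [Finset.mem_coe, Finset.mem_filter] at he he'
      exact Prod.ext (he.2.trans he'.2.symm) hee
  have h3 : ∀ x, {z | E x z}.ncard - {w | E w x}.ncard ≤
      ((outIn E S x : ℤ) - inIn E S x).natAbs + {z | z ∉ S ∧ E x z}.ncard := by
    intro x
    have e1 : {z | E x z}.ncard ≤ outIn E S x + {z | z ∉ S ∧ E x z}.ncard := by
      unfold outIn
      refine le_trans (Set.ncard_le_ncard ?_ (Set.toFinite _)) (Set.ncard_union_le _ _)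
      intro z hz
      by_cases hzS : z ∈ S
      · left
        exact ⟨hzS, hz⟩
      · right
        exact ⟨hzS, hz⟩
    have e2 : inIn E S x ≤ {w | E w x}.ncard := by
      unfold inIn
      exact Set.ncard_le_ncard (fun w hw => hw.2) (Set.toFinite _)
    omega
  have h4 : ∑ x ∈ Finset.univ.filter (fun x => x ∈ S), ({z | z ∉ S ∧ E x z}.ncard) ≤ k := by
    refine le_trans (le_of_eq ?_) hleave
    rw [nc {e : V × V | e.1 ∈ S ∧ e.2 ∉ S ∧ E e.1 e.2},
      Finset.card_eq_sum_card_fiberwise (f := Prod.fst)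
      (t := Finset.univ.filter (fun x => x ∈ S)) (by
        intro e he
        rw [Finset.mem_coe, Finset.mem_filter] at he
        rw [Finset.mem_coe, Finset.mem_filter]
        exact ⟨Finset.mem_univ _, he.2.1⟩)]
    refine Finset.sum_congr rfl fun x hx => ?_
    rw [nc]
    refine Finset.card_bij (fun z _ => (x, z)) ?_ ?_ ?_
    · intro z hz
      rw [Finset.mem_filter] at hz hx
      rw [Finset.mem_filter, Finset.mem_filter]
      exact ⟨⟨Finset.mem_univ _, hx.2, hz.2.1, hz.2.2⟩, rfl⟩
    · intro z _ z' _ hzz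
      exact (Prod.mk.inj hzz).2
    · rintro ⟨x', z⟩ he
      rw [Finset.mem_filter, Finset.mem_filter] at he
      obtain ⟨⟨-, -, h5, h6⟩, h7⟩ := he
      have h7' : x' = x := h7
      subst h7'
      exact ⟨z, by rw [Finset.mem_filter]; exact ⟨Finset.mem_univ _, h5, h6⟩, rfl⟩
  have h5 : ∑ x ∈ Finset.univ.filter (fun x => x ∈ S),
      ((outIn E S x : ℤ) - inIn E S x).natAbs ≤ k := by
    refine le_trans (le_of_eq ?_) himb
    rw [finsum_mem_eq_finite_toFinset_sum _ (Set.toFinite S)]
    refine Finset.sum_congr ?_ fun _ _ => rfl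
    ext x
    rw [Set.Finite.mem_toFinset, Finset.mem_filter]
    exact ⟨fun hx => hx.2, fun hx => ⟨Finset.mem_univ _, hx⟩⟩
  have h6 := Finset.sum_le_sum fun x (_ : x ∈ Finset.univ.filter (fun x => x ∈ S)) => h3 x
  rw [Finset.sum_add_distrib] at h6
  have h7 := (Set.ncard_le_ncard hsub (Set.toFinite _)).trans (Set.ncard_union_le _ _)
  omega

namespace StrongAux

/-- Chains with `l` steps. -/
def Ch (R : V → V → Prop) : ℕ → V → V → Prop
  | 0 => Sim R
  | l + 1 => fun a b => ∃ x y, Sim R a x ∧ R x y ∧ Ch R l y b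

omit [Finite V] [LinearOrder V] in
theorem Ch.sim {R : V → V → Prop} {n : ℕ} {a b c : V} (h : Sim R a b) (h' : Ch R n b c) :
    Ch R n a c := by
  cases n with
  | zero => exact Sim.trans h h'
  | succ n =>
    obtain ⟨x, y, h1, h2, h3⟩ := h'
    exact ⟨x, y, h.trans h1, h2, h3⟩

omit [Finite V] [LinearOrder V] in
theorem Ch.comp {R : V → V → Prop} {m n : ℕ} {a b c : V} (h : Ch R m a b) (h' : Ch R n b c) :
    Ch R (m + n) a c := by
  induction m generalizing a with
  | zero =>
    rw [Nat.zero_add]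
    exact Ch.sim h h'
  | succ m ih =>
    obtain ⟨x, y, h1, h2, h3⟩ := h
    rw [show m + 1 + n = (m + n) + 1 by omega]
    exact ⟨x, y, h1, h2, ih h3⟩

omit [Finite V] [LinearOrder V] in
theorem Ch.step {R : V → V → Prop} {a b : V} (h : R a b) : Ch R 1 a b :=
  ⟨a, b, Sim.refl a, h, Sim.refl b⟩

omit [Finite V] in
theorem Ch.sound {n : ℕ} {a b : V} (h : Ch (OnTrail E) n a b) : Reach E a b := by
  have hs : ∀ {x y : V}, Sim (OnTrail E) x y → Reach E x y := fun h =>
    Sim.sound (Q := Reach E) (fun _ => Relation.ReflTransGen.refl)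
      (fun _ _ _ h h' => Relation.ReflTransGen.trans h h') (fun _ _ h => onTrail_sound h) h
  induction n generalizing a with
  | zero => exact hs h
  | succ n ih =>
    obtain ⟨x, y, h1, h2, h3⟩ := h
    exact (hs h1).trans ((onTrail_sound h2).trans (ih h3))

omit [Finite V] [LinearOrder V] in
theorem Ch.extract {R : V → V → Prop} {l : ℕ} {a b : V} (h : Ch R l a b) : ∃ u v : ℕ → V,
    (∀ p < l, R (u p) (v p)) ∧ (∀ p, p + 1 < l → Sim R (v p) (u (p + 1))) ∧
    (∀ p < l, Ch R p a (u p)) ∧ (∀ p < l, Ch R (l - 1 - p) (v p) b) := by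
  induction l generalizing a with
  | zero => exact ⟨fun _ => a, fun _ => a, by omega, by omega, by omega, by omega⟩
  | succ l ih =>
    obtain ⟨x, y, h1, h2, h3⟩ := h
    obtain ⟨u, v, g1, g2, g3, g4⟩ := ih h3
    refine ⟨fun p => Nat.casesOn p x u, fun p => Nat.casesOn p y v, ?_, ?_, ?_, ?_⟩
    · intro p hp
      cases p with
      | zero => exact h2
      | succ p => exact g1 p (by omega)
    · intro p hp
      cases p with
      | zero => exact g3 0 (by omega)
      | succ p => exact g2 p (by omega)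
    · intro p hp
      cases p with
      | zero => exact h1
      | succ p => exact ⟨x, y, h1, h2, g3 p (by omega)⟩
    · intro p hp
      cases p with
      | zero => exact h3
      | succ p =>
        have := g4 p (by omega)
        rw [show l + 1 - 1 - (p + 1) = l - 1 - p by omega]
        exact this

omit [Finite V] in
theorem follows_reach {e f : V × V} (h : Relation.ReflTransGen (Follows E) e f) :
    Reach E e.2 f.2 := by
  induction h with
  | refl => exact Relation.ReflTransGen.refl
  | tail _ h1 ih =>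
    refine ih.tail ?_
    rw [h1.1]
    exact h1.2.2.1

theorem cyc {e e' : V × V} (h : Follows E e' e) (h' : Relation.ReflTransGen (Follows E) e e')
    {f : V × V} (hf : Relation.ReflTransGen (Follows E) e f) :
    Relation.ReflTransGen (Follows E) f e' := by
  induction hf with
  | refl => exact h'
  | tail _ h1 ih =>
    rcases Relation.ReflTransGen.cases_head ih with h2 | ⟨g, h2, h3⟩
    · rw [h2] at h1
      rw [follows_right_unique h1 h]
      exact h'
    · rw [follows_right_unique h1 h2]
      exact h3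

omit [Finite V] in
/-- An orbit leaving `x` at the arc after `f` and entering `y`. -/
theorem onTrail_of_follows {f e' : V × V} {x y : V} (hx : f.2 = x) (hy : e'.2 = y)
    (he' : E e'.1 e'.2) (h : Relation.ReflTransGen (Follows E) f e') : OnTrail E x y := by
  rcases Relation.ReflTransGen.cases_head h with h1 | ⟨g, h1, h2⟩
  · left
    rw [← hx, ← hy, h1]
  · right
    obtain ⟨h3, -, h5, -⟩ := h1
    have h6 : g.1 = x := by rw [← h3, hx]
    refine ⟨g.2, e'.1, ?_, ?_, ?_⟩
    · rw [← h6]
      exact h5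
    · rw [← hy]
      exact he'
    · have e1 : ((x, g.2) : V × V) = g := Prod.ext h6.symm rfl
      have e2 : ((e'.1, y) : V × V) = e' := Prod.ext rfl hy.symm
      rw [e1, e2]
      exact h2

theorem rt_mono {α : Type} {r p : α → α → Prop} (h : ∀ a b, r a b → p a b) {a b : α}
    (hab : Relation.ReflTransGen r a b) : Relation.ReflTransGen p a b := by
  induction hab with
  | refl => exact Relation.ReflTransGen.refl
  | tail _ h1 ih => exact ih.tail (h _ _ h1)

theorem right_unique : Relator.RightUnique (Follows E) :=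
  fun _ _ _ h h' => follows_right_unique h h'

omit [Finite V] in
theorem exists_ch {a b : V} (h : Reach E a b) : ∃ l, Ch (OnTrail E) l a b := by
  induction h using Relation.ReflTransGen.head_induction_on with
  | refl => exact ⟨0, Sim.refl _⟩
  | head h1 _ ih =>
    obtain ⟨l, hl⟩ := ih
    exact ⟨l + 1, _, _, Sim.refl _, onTrail_of_arc h1, hl⟩

/-- The main step: two vertices of a strong component. -/
theorem main_step {k : ℕ} (h : NearlyEulerian k E) {v a b : V} (ha : a ∈ strong E v)
    (hb : b ∈ strong E v) : iter (OnTrail E) (3 * Nat.log 2 (3 * k) + 6) a b := by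
  classical
  have hr : ∀ x, OnTrail E x x := fun x => Or.inl rfl
  obtain ⟨l, hl, hmin⟩ : ∃ l, Ch (OnTrail E) l a b ∧ ∀ m < l, ¬ Ch (OnTrail E) m a b := by
    have hex := exists_ch (ha.2.trans hb.1)
    exact ⟨Nat.find hex, Nat.find_spec hex, fun m hm => Nat.find_min hex hm⟩
  rcases Nat.eq_zero_or_pos l with h0 | hpos
  · rw [h0] at hl
    have h1 : iter (OnTrail E) 1 a b := Phi.of_sim hr hl
    exact iter_le hr (by omega) h1
  obtain ⟨u, v', g1, g2, g3, g4⟩ := Ch.extract hl
  have hne : ∀ p < l, u p ≠ v' p := by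
    intro p hp heq
    have h1 := g3 p hp
    have h2 := g4 p hp
    rw [← heq] at h2
    exact hmin (p + (l - 1 - p)) (by omega) (Ch.comp h1 h2)
  have hback : ∀ p < l, ¬ OnTrail E (v' p) (u p) := by
    intro p hp hb'
    exact hmin (p + (l - 1 - p)) (by omega)
      (Ch.comp (g3 p hp) (Ch.sim (Sim.of (g1 p hp) hb') (g4 p hp)))
  have hshort : ∀ p q, p < q → q < l → ¬ OnTrail E (u p) (v' q) := by
    intro p q hpq hq hR
    exact hmin _ (by omega) (Ch.comp (Ch.comp (g3 p (by omega)) (Ch.step hR)) (g4 q hq))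
  have hau : ∀ p < l, Reach E a (u p) := fun p hp => (g3 p hp).sound
  have hvb : ∀ p < l, Reach E (v' p) b := fun p hp => (g4 p hp).sound
  obtain ⟨A, hA⟩ : ∃ A : Set (V × V),
      A = {e | e.1 ∈ strong E v ∧ e.2 ∈ strong E v ∧ E e.1 e.2} := ⟨_, rfl⟩
  have hlet : ∀ p < l, ∃ w z, ∃ b' : V × V, E (u p) w ∧ E z (v' p) ∧
      Relation.ReflTransGen (Follows E) (u p, w) (z, v' p) ∧ b' ∈ A ∧
      (∀ a' ∈ A, ¬ Follows E a' b') ∧ Relation.ReflTransGen (Follows E) b' (u p, w) := by
    intro p hp
    rcases g1 p hp with h1 | ⟨w, z, h1, h2, h3⟩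
    · exact absurd h1 (hne p hp)
    have h4 : Reach E w (v' p) := follows_reach h3
    have hmem : (u p, w) ∈ A := by
      rw [hA]
      refine ⟨⟨ha.1.trans (hau p hp), ?_⟩, ⟨?_, ?_⟩, h1⟩
      · exact Relation.ReflTransGen.head h1 (h4.trans ((hvb p hp).trans hb.2))
      · exact (ha.1.trans (hau p hp)).tail h1
      · exact h4.trans ((hvb p hp).trans hb.2)
    rcases exists_start A hmem with ⟨e', he'A, he', hcl⟩ | ⟨b', hb'A, hb', hcl⟩
    · exfalso
      have hcl' : Relation.ReflTransGen (Follows E) (u p, w) e' :=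
        rt_mono (fun _ _ h => h.1) hcl
      have h5 := cyc he' hcl' h3
      rw [hA] at he'A
      exact hback p hp (onTrail_of_follows rfl he'.1 he'A.2.2 h5)
    · exact ⟨w, z, b', h1, h2, h3, hb'A, hb', rt_mono (fun _ _ h => h.1) hcl⟩
  have hneV : Nonempty V := ⟨v⟩
  choose! w z β hβ using hlet
  obtain ⟨k', hk'⟩ : ∃ k', k' = max (3 * k) 1 := ⟨_, rfl⟩
  have hk'1 : 1 ≤ k' := by omega
  have hk'3 : 3 * k ≤ k' := by omega
  have hlog : Nat.log 2 (3 * k) = Nat.log 2 k' := by
    rcases Nat.eq_zero_or_pos k with h0 | h0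
    · rw [hk', h0]
      simp
    · rw [hk', max_eq_left (by omega)]
  rw [hlog]
  have hend : Sim (OnTrail E) (v' (l - 1)) b := by
    have h1 := g4 (l - 1) (by omega)
    rw [Nat.sub_self] at h1
    exact h1
  refine word_lemma hr hk'1 hpos u v' g1 g2 (fun p q => β p = β q) ?_ ?_ (g3 0 hpos) hend
  · intro p q hpq hq hβeq
    have hp : p < l := by omega
    obtain ⟨p1, p2, p3, p4, p5, p6⟩ := hβ p hp
    obtain ⟨q1, q2, q3, q4, q5, q6⟩ := hβ q hq
    have hβq : Relation.ReflTransGen (Follows E) (β p) (z q, v' q) := by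
      have hβeq' : β p = β q := hβeq
      rw [hβeq']
      exact q6.trans q3
    have hno : ¬ Relation.ReflTransGen (Follows E) (u p, w p) (z q, v' q) := fun h5 =>
      hshort p q (by omega) hq (Or.inr ⟨w p, z q, p1, q2, h5⟩)
    have hvu : OnTrail E (v' q) (u p) := by
      rcases Relation.ReflTransGen.total_of_right_unique right_unique p6 hβq with h5 | h5
      · exact absurd h5 hno
      · rcases Relation.ReflTransGen.cases_tail h5 with h6 | ⟨g, h6, h7⟩
        · exact absurd (h6 ▸ Relation.ReflTransGen.refl) hno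
        · exact onTrail_of_follows rfl h7.1 h7.2.1 h6
    have h8 : iter (OnTrail E) 1 (u q) (u p) := iter_comp (j := 0) (g1 q hq) hvu
    have h9 : iter (OnTrail E) 1 (u p) (v' p) := iter_le hr (Nat.zero_le 1) (g1 p hp)
    exact iter_comp h8 h9
  · intro I hI hc
    obtain ⟨Λ, hΛ⟩ : ∃ Λ : Set (V × V), Λ = {e : V × V |
        (e.1 ∈ strong E v ∧ e.2 ∈ strong E v ∧ E e.1 e.2) ∧
        ∀ a : V × V, a.1 ∈ strong E v → a.2 ∈ strong E v → ¬ Follows E a e} := ⟨_, rfl⟩
    have hcard := ncard_letters_le h v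
    rw [← hΛ, Set.ncard_eq_toFinset_card Λ (Set.toFinite Λ)] at hcard
    have hmaps : ∀ i ∈ I, β i ∈ (Set.toFinite Λ).toFinset := by
      intro i hi
      obtain ⟨-, -, -, i4, i5, -⟩ := hβ i (hI i hi)
      rw [Set.Finite.mem_toFinset, hΛ]
      rw [hA] at i4 i5
      exact ⟨i4, fun a' h1 h2 h3 => i5 a' ⟨h1, h2, h3.2.1⟩ h3⟩
    obtain ⟨p, hp, q, hq, hpq, heq⟩ :=
      Finset.exists_ne_map_eq_of_card_lt_of_maps_to (by omega) hmaps
    rcases lt_or_gt_of_ne hpq with h1 | h1
    · exact ⟨p, hp, q, hq, h1, heq⟩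
    · exact ⟨q, hq, p, hp, h1, heq.symm⟩

end StrongAux

/-- Vertices of one strong component are identified after `3 * log (3 * k) + 6` rounds. -/
theorem strong_sim {k : ℕ} (h : NearlyEulerian k E) {v w : V} (hw : w ∈ strong E v) :
    Sim (iter (OnTrail E) (3 * Nat.log 2 (3 * k) + 6)) v w := by
  have hv : v ∈ strong E v := ⟨Relation.ReflTransGen.refl, Relation.ReflTransGen.refl⟩
  exact Sim.of (main_step h hv hw) (main_step h hw hv)

end Pool.Agent.Lib.Pe46137S
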