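import Pool.Agent.Lib.Pe46137S.Op

/-!
# Trails: at every vertex the arc from the `i`-th in-neighbour is followed by the arc to the `i`-th
# out-neighbour
-/

namespace Pool.Agent.Lib.Pe46137S

variable {V : Type} [LinearOrder V]

/-- The number of in-neighbours of `y` before `x`. -/
noncomputable def inRank (E : V → V → Prop) (y x : V) : ℕ := {x' | x' < x ∧ E x' y}.ncard

/-- The number of out-neighbours of `y` before `z`. -/
noncomputable def outRank (E : V → V → Prop) (y z : V) : ℕ := {z' | z' < z ∧ E y z'}.ncard

/-- The arc `f` follows the arc `e` on a trail. -/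
def Follows (E : V → V → Prop) (e f : V × V) : Prop :=
  e.2 = f.1 ∧ E e.1 e.2 ∧ E f.1 f.2 ∧ inRank E e.2 e.1 = outRank E f.1 f.2

/-- `u = v`, or some arc leaving `u` is followed, after any number of steps, by an arc
entering `v`. -/
def OnTrail (E : V → V → Prop) (u v : V) : Prop :=
  u = v ∨ ∃ w z, E u w ∧ E z v ∧ Relation.ReflTransGen (Follows E) (u, w) (z, v)

end Pool.Agent.Lib.Pe46137S
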