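import Pool.Agent.Lib.Pe46137S.FewOne
import Pool.Agent.Lib.Pe46137S.Strong
import Pool.Agent.Lib.Pe46137S.FmlPhi
import Pool.Agent.Lib.Pe46137S.FmlTrail
import Pool.Agent.Lib.Pe46137S.FmlLead

/-!
# Short formulas for reachability
-/

namespace Pool.Agent.Lib.Pe46137S

variable {V : Type}

theorem iter_formula {ρ : Type} (φ : Fml ρ) (j : ℕ) : ∃ ψ : Fml ρ,
    ψ.length ≤ φ.length + 100 * j ∧ ∀ (V : Type) (R : ρ → V → V → Prop) (Q : V → V → Prop),
      (∀ x, Q x x) → (∀ a, Sat R φ a ↔ Q (a 0) (a 1)) →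
      ∀ a, Sat R ψ a ↔ iter Q j (a 0) (a 1) := by
  induction j with
  | zero => exact ⟨φ, by simp, fun V R Q _ h a => h a⟩
  | succ j ih =>
    obtain ⟨ψ, h1, h2⟩ := ih
    refine ⟨ψ.phi, (length_phi ψ).trans (by omega), fun V R Q hQ h a => ?_⟩
    exact sat_phi (iter_refl hQ j) (h2 V R Q hQ h) a

theorem reach_trans {E : V → V → Prop} : ∀ x y z, Reach E x y → Reach E y z → Reach E x z :=
  fun _ _ _ h h' => Relation.ReflTransGen.trans h h'

theorem reach_refl {E : V → V → Prop} : ∀ x, Reach E x x := fun _ => Relation.ReflTransGen.refl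

theorem upper : ∃ C : ℕ, ∀ k : ℕ, ∃ φ : Fml Voc, φ.length ≤ C * (1 + Nat.log 2 (k + 1)) ∧
    ∀ (V : Type) [Finite V] [LinearOrder V] (E : V → V → Prop),
      FewOneWay k E ∨ NearlyEulerian k E →
        ∀ a : ℕ → V, Sat (str E) φ a ↔ Reach E (a 0) (a 1) := by
  obtain ⟨τ, hτ⟩ := trail_formula
  obtain ⟨c, hc⟩ := lead_formula
  refine ⟨c * (2 * (τ.length + 1500) + 101) + 1500, fun k => ?_⟩
  obtain ⟨J, hJ⟩ : ∃ J, J = 3 * Nat.log 2 (3 * k) + 6 := ⟨_, rfl⟩
  obtain ⟨m, hm⟩ : ∃ m, m = 3 * Nat.log 2 k + 6 := ⟨_, rfl⟩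
  obtain ⟨ψ, hψ1, hψ2⟩ := iter_formula τ J
  obtain ⟨χ, hχ1, hχ2⟩ := hc ψ.sim
  obtain ⟨φ, hφ1, hφ2⟩ := iter_formula χ m
  refine ⟨φ, ?_, fun V _ _ E hE a => ?_⟩
  · have l1 : Nat.log 2 k ≤ Nat.log 2 (k + 1) := Nat.log_mono_right (by omega)
    have l2 : Nat.log 2 (3 * k) ≤ Nat.log 2 (k + 1) + 2 := by
      rcases Nat.eq_zero_or_pos k with h0 | h0
      · rw [h0]; simp
      · calc Nat.log 2 (3 * k) ≤ Nat.log 2 (k * 2 ^ 2) := Nat.log_mono_right (by omega)
          _ = Nat.log 2 k + 2 := by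
            rw [pow_two, ← mul_assoc, Nat.log_mul_base (by norm_num) (by omega),
              Nat.log_mul_base (by norm_num) (by omega)]
          _ ≤ Nat.log 2 (k + 1) + 2 := by omega
    have l3 := length_sim ψ
    set L := Nat.log 2 (k + 1) with hL
    have e1 : ψ.sim.length + 1 ≤ (2 * (τ.length + 1500) + 101) * (1 + L) := by
      have : ψ.length ≤ (τ.length + 1500) * (1 + L) := by
        nlinarith [Nat.zero_le L, Nat.zero_le τ.length]
      nlinarith [Nat.zero_le L, Nat.zero_le τ.length]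
    have e2 : c * (ψ.sim.length + 1) ≤ c * ((2 * (τ.length + 1500) + 101) * (1 + L)) :=
      Nat.mul_le_mul_left _ e1
    have e3 : φ.length ≤ c * ((2 * (τ.length + 1500) + 101) * (1 + L)) + 100 * m := by omega
    refine e3.trans ?_
    have e4 : 100 * m ≤ 1500 * (1 + L) := by omega
    calc c * ((2 * (τ.length + 1500) + 101) * (1 + L)) + 100 * m
        ≤ c * ((2 * (τ.length + 1500) + 101) * (1 + L)) + 1500 * (1 + L) := by omega
      _ = (c * (2 * (τ.length + 1500) + 101) + 1500) * (1 + L) := by ring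
  · set S := Sim (iter (OnTrail E) J) with hS
    have hsim : ∀ a : ℕ → V, Sat (str E) ψ.sim a ↔ S (a 0) (a 1) := fun a =>
      sat_sim (hψ2 V (str E) (OnTrail E) (fun x => Or.inl rfl) (hτ V E)) a
    have hSsound : ∀ x y, S x y → Reach E x y := fun x y h =>
      Sim.sound reach_refl reach_trans
        (fun _ _ h => iter_sound reach_refl reach_trans (fun _ _ h => onTrail_sound h) J h) h
    have hSeq : Equivalence S := ⟨Sim.refl, Sim.symm, Sim.trans⟩
    have hQr : ∀ x, Lead E S x x ∨ E x x := fun x => Or.inl Relation.ReflTransGen.refl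
    rw [hφ2 V (str E) (fun x y => Lead E S x y ∨ E x y) hQr (hχ2 V E S hsim) a]
    constructor
    · intro h
      refine iter_sound reach_refl reach_trans (fun x y h => ?_) m h
      rcases h with h | h
      · exact lead_sound hSeq hSsound h
      · exact Relation.ReflTransGen.single h
    · intro h
      rcases hE with hE | hE
      · have hf := few_one_way hE h
        rw [← hm] at hf
        refine iter_mono (fun x y h => ?_) m hf
        rcases h with rfl | h
        · exact hQr x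
        · exact Or.inr h
      · have hSE : ∀ x y, S x y ↔ Reach E x y ∧ Reach E y x := fun x y =>
          ⟨fun h => ⟨hSsound x y h, hSsound y x (Sim.symm h)⟩, fun h => by
            rw [hS, hJ]; exact strong_sim hE h⟩
        exact iter_le hQr (by omega) (lead_complete hE.1 hSE h)

end Pool.Agent.Lib.Pe46137S
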