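import Pool.Agent.Lib.Pe46137S.Op

/-!
# The word lemma
-/

namespace Pool.Agent.Lib.Pe46137S

variable {V : Type}

/-- Among any `k + 1` indices in `[a, b)` two are related. -/
def Good (Adj : ℕ → ℕ → Prop) (k a b : ℕ) : Prop :=
  ∀ I : Finset ℕ, (∀ i ∈ I, a ≤ i ∧ i < b) → k < I.card → ∃ p ∈ I, ∃ q ∈ I, p < q ∧ Adj p q

theorem Good.mono {Adj : ℕ → ℕ → Prop} {k a b a' b' : ℕ} (h : Good Adj k a b) (ha : a ≤ a')
    (hb : b' ≤ b) : Good Adj k a' b' :=
  fun I hI hc => h I (fun i hi => ⟨ha.trans (hI i hi).1, (hI i hi).2.trans_le hb⟩) hc

/-- Composition through a link. -/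
theorem iter_link {R : V → V → Prop} {j : ℕ} {x y y' z : V} (hr : ∀ x, R x x)
    (h : iter R j x y) (h' : Sim R y y') (h'' : iter R j y' z) : iter R (j + 1) x z :=
  ⟨y, y', h, h'.mono (fun _ _ h => iter_le hr (Nat.zero_le j) h), h''⟩

theorem word_interval {R : V → V → Prop} (hr : ∀ x, R x x) {l : ℕ}
    (u v : ℕ → V) (h1 : ∀ p < l, R (u p) (v p))
    (h2 : ∀ p, p + 1 < l → Sim R (v p) (u (p + 1))) (Adj : ℕ → ℕ → Prop)
    (h3 : ∀ p q, p + 3 ≤ q → q < l → Adj p q → iter R 2 (u q) (v p)) :
    ∀ k, 1 ≤ k → ∀ a b, a < b → b ≤ l → Good Adj k a b →
      iter R (3 * Nat.log 2 k + 4) (u a) (v (b - 1)) := by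
  classical
  -- one step from `v`
  have hstep : ∀ r, r + 1 < l → iter R 1 (v r) (v (r + 1)) := fun r hr' =>
    iter_link hr (j := 0) (hr _) (h2 r hr') (h1 _ hr')
  have hsteps3 : ∀ r, r + 3 < l → iter R 3 (v r) (v (r + 3)) := fun r hr' =>
    iter_comp (iter_comp (hstep r (by omega)) (hstep (r + 1) (by omega)))
      (iter_le hr (by omega) (hstep (r + 2) (by omega)))
  intro k
  induction k using Nat.strong_induction_on with
  | _ k ih =>
    intro hk a b hab hbl hgood
    rcases Nat.lt_or_ge 1 k with hk2 | hk2
    · -- the induction step
      set h := k / 2 with hh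
      have hh1 : 1 ≤ h := by omega
      have hhk : h < k := by omega
      have hkh : k < 2 * (h + 1) := by omega
      set J := 3 * Nat.log 2 h + 4 with hJ
      have hlog : Nat.log 2 k = Nat.log 2 h + 1 := by
        rw [Nat.log_of_one_lt_of_le (by norm_num) hk2]
      have hJk : 3 * Nat.log 2 k + 4 = J + 3 := by rw [hlog]; omega
      rw [hJk]
      have piece : ∀ c d, c < d → d ≤ l → Good Adj h c d → iter R J (u c) (v (d - 1)) :=
        fun c d hcd hd hg => ih h hhk hh1 c d hcd hd hg
      by_cases hg0 : Good Adj h a b
      · exact iter_le hr (by omega) (piece a b hab hbl hg0)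
      -- the first index at which the initial interval is not good
      have hex0 : ∃ r, a ≤ r ∧ r < b ∧ ¬ Good Adj h a (r + 1) := ⟨b - 1, by omega, by omega, by
        rwa [Nat.sub_add_cancel (by omega)]⟩
      set r0 := Nat.find hex0 with hr0
      obtain ⟨ha0, hb0, hng0⟩ := Nat.find_spec hex0
      rw [← hr0] at ha0 hb0 hng0
      have hmin0 : ∀ r, a ≤ r → r < r0 → Good Adj h a (r + 1) := by
        intro r har hrr
        by_contra hc
        exact Nat.find_min hex0 hrr ⟨har, by omega, hc⟩
      have hng : ∀ r, r0 ≤ r → ¬ Good Adj h a (r + 1) := fun r hrr hc =>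
        hng0 (hc.mono le_rfl (by omega))
      -- reach `v r0`
      have hstart : iter R (J + 1) (u a) (v r0) := by
        rcases Nat.eq_or_lt_of_le ha0 with h0 | h0
        · rw [← h0]
          exact iter_le hr (Nat.zero_le _) (h1 a (by omega))
        · have hp := piece a r0 h0 (by omega) (by
            have := hmin0 (r0 - 1) (by omega) (by omega)
            rwa [Nat.sub_add_cancel (by omega)] at this)
          refine iter_link hr hp ?_ (iter_le hr (Nat.zero_le _) (h1 r0 (by omega)))
          have := h2 (r0 - 1) (by omega)
          rwa [Nat.sub_add_cancel (by omega)] at this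
      -- the collapse
      have hcol : ∀ r, r0 ≤ r → r + 4 < b → ¬ Good Adj h (r + 4) b →
          Sim (iter R (J + 2)) (v r) (v (r + 1)) := by
        intro r hrr hrb hngr
        -- left end
        have hexc : ∃ c, a ≤ c ∧ c ≤ r + 1 ∧ Good Adj h c (r + 1) := ⟨r + 1, by omega, le_rfl, by
          intro I hI hc
          have : I = ∅ := Finset.eq_empty_of_forall_notMem fun i hi => by
            have := hI i hi
            omega
          rw [this] at hc
          simp at hc⟩
        set c := Nat.find hexc with hc
        obtain ⟨hac, hcr, hgc⟩ := Nat.find_spec hexc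
        rw [← hc] at hac hcr hgc
        have hca : a < c := by
          rcases Nat.eq_or_lt_of_le hac with h0 | h0
          · rw [← h0] at hgc
            exact absurd hgc (hng r hrr)
          · exact h0
        have hngc : ¬ Good Adj h (c - 1) (r + 1) := by
          intro hg
          exact Nat.find_min hexc (show c - 1 < Nat.find hexc by omega)
            ⟨by omega, by omega, hg⟩
        -- right end
        have hexd : ∃ d, r + 4 ≤ d ∧ d < b ∧ ¬ Good Adj h (r + 4) (d + 1) :=
          ⟨b - 1, by omega, by omega, by rwa [Nat.sub_add_cancel (by omega)]⟩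
        set d := Nat.find hexd with hd
        obtain ⟨hrd, hdb, hngd⟩ := Nat.find_spec hexd
        rw [← hd] at hrd hdb hngd
        have hgd : Good Adj h (r + 4) d := by
          rcases Nat.eq_or_lt_of_le hrd with h0 | h0
          · intro I hI hc
            have : I = ∅ := Finset.eq_empty_of_forall_notMem fun i hi => by
              have := hI i hi
              omega
            rw [this] at hc
            simp at hc
          · by_contra hcon
            exact Nat.find_min hexd (show d - 1 < Nat.find hexd by omega)
              ⟨by omega, by omega, by rwa [Nat.sub_add_cancel (by omega)]⟩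
        -- independent sets
        unfold Good at hngc hngd
        push Not at hngc hngd
        obtain ⟨I, hI1, hI2, hI3⟩ := hngc
        obtain ⟨I', hI'1, hI'2, hI'3⟩ := hngd
        have hdisj : Disjoint I I' := by
          rw [Finset.disjoint_left]
          intro i hi hi'
          have := hI1 i hi
          have := hI'1 i hi'
          omega
        obtain ⟨p, hp, q, hq, hpq, hadj⟩ := hgood (I ∪ I') (by
          intro i hi
          rcases Finset.mem_union.mp hi with hi | hi
          · have := hI1 i hi; omega
          · have := hI'1 i hi; omega) (by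
          rw [Finset.card_union_of_disjoint hdisj]; omega)
        have hpI : p ∈ I := by
          rcases Finset.mem_union.mp hp with hp | hp
          · exact hp
          · exfalso
            rcases Finset.mem_union.mp hq with hq | hq
            · have := hI1 q hq; have := hI'1 p hp; omega
            · exact hI'3 p hp q hq hpq hadj
        have hqI : q ∈ I' := by
          rcases Finset.mem_union.mp hq with hq | hq
          · exfalso
            exact hI3 p hpI q hq hpq hadj
          · exact hq
        have hp1 := hI1 p hpI
        have hq1 := hI'1 q hqI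
        have hback : iter R 2 (u q) (v p) := h3 p q (by omega) (by omega) hadj
        -- forward from `v p` to `v r`
        have hpr : iter R (J + 1) (v p) (v r) := by
          rcases Nat.eq_or_lt_of_le (show p ≤ r by omega) with h0 | h0
          · rw [h0]; exact iter_refl hr _ _
          · exact iter_link hr (iter_refl hr _ _) (h2 p (by omega))
              (by
                have := piece (p + 1) (r + 1) (by omega) (by omega) (hgc.mono (by omega) le_rfl)
                simpa using this)
        -- forward to `v (q - 1)`
        have hfor : ∀ r', r ≤ r' → r' ≤ r + 1 → iter R (J + 1) (v r') (v (q - 1)) := by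
          intro r' hr1 hr2
          have e1 : iter R J (v r') (v (r + 3)) := by
            rcases Nat.eq_or_lt_of_le hr1 with h0 | h0
            · rw [← h0]
              exact iter_le hr (by omega) (hsteps3 r (by omega))
            · have : r' = r + 1 := by omega
              rw [this]
              exact iter_le hr (show 2 ≤ J by omega)
                (iter_comp (hstep (r + 1) (by omega)) (hstep (r + 2) (by omega)))
          rcases Nat.eq_or_lt_of_le (show r + 4 ≤ q by omega) with h0 | h0
          · rw [← h0]
            exact iter_succ_of hr _ e1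
          · exact iter_link hr e1 (h2 (r + 3) (by omega))
              (piece (r + 4) q h0 (by omega) (hgd.mono le_rfl (by omega)))
        have hlast : Sim R (v (q - 1)) (u q) := by
          have := h2 (q - 1) (by omega)
          rwa [Nat.sub_add_cancel (by omega)] at this
        have hret : ∀ r', r ≤ r' → r' ≤ r + 1 → iter R (J + 2) (v r') (v p) := fun r' hr1 hr2 =>
          iter_link hr (hfor r' hr1 hr2) hlast (iter_le hr (by omega) hback)
        refine Sim.trans (y := v p) (Sim.of (hret r le_rfl (by omega)) (iter_succ_of hr _ hpr)) ?_
        exact Sim.of (iter_comp hpr (iter_le hr (by omega) (hstep r (by omega))))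
          (hret (r + 1) (by omega) le_rfl)
      -- the last part
      by_cases hfin : r0 + 4 < b ∧ ¬ Good Adj h (r0 + 4) b
      · -- collapse from `r0` to the last index that collapses
        have hchain : ∀ m, (∀ i < m, r0 + i + 4 < b ∧ ¬ Good Adj h (r0 + i + 4) b) →
            Sim (iter R (J + 2)) (v r0) (v (r0 + m)) := by
          intro m
          induction m with
          | zero => intro _; exact Sim.refl _
          | succ m ihm =>
            intro hm
            refine (ihm fun i hi => hm i (by omega)).trans ?_
            have := hm m (by omega)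
            exact hcol (r0 + m) (by omega) this.1 this.2
        have hexm : ∃ m, ¬ (r0 + m + 4 < b ∧ ¬ Good Adj h (r0 + m + 4) b) :=
          ⟨b, fun hc => by omega⟩
        set m := Nat.find hexm with hm
        have hm1 := Nat.find_spec hexm
        rw [← hm] at hm1
        have hm2 : ∀ i < m, r0 + i + 4 < b ∧ ¬ Good Adj h (r0 + i + 4) b := by
          intro i hi
          by_contra hc
          exact Nat.find_min hexm hi hc
        have hm0 : 0 < m := by
          rcases Nat.eq_zero_or_pos m with h0 | h0
          · rw [h0] at hm1
            exact absurd hfin (by simpa using hm1)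
          · exact h0
        have hmb : r0 + m + 3 < b := by
          have := (hm2 (m - 1) (by omega)).1
          omega
        have hend : iter R (J + 1) (v (r0 + m)) (v (b - 1)) := by
          have e1 : iter R J (v (r0 + m)) (v (r0 + m + 3)) :=
            iter_le hr (by omega) (hsteps3 _ (by omega))
          rcases Nat.lt_or_ge (r0 + m + 4) b with h0 | h0
          · have hg : Good Adj h (r0 + m + 4) b := by
              by_contra hc
              exact hm1 ⟨h0, hc⟩
            exact iter_link hr e1 (h2 _ (by omega)) (piece _ b h0 hbl hg)
          · have : b - 1 = r0 + m + 3 := by omega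
            rw [this]
            exact iter_succ_of hr _ e1
        exact ⟨_, _, iter_succ_of hr _ hstart, hchain m hm2, iter_succ_of hr _ hend⟩
      · -- few pieces
        have hend : iter R (J + 1) (v r0) (v (b - 1)) := by
          rcases Nat.lt_or_ge (r0 + 4) b with h0 | h0
          · have hg : Good Adj h (r0 + 4) b := by
              by_contra hc
              exact hfin ⟨h0, hc⟩
            exact iter_link hr (iter_le hr (by omega) (hsteps3 r0 (by omega))) (h2 _ (by omega))
              (piece _ b h0 hbl hg)
          · have h3' : b - 1 = r0 ∨ b - 1 = r0 + 1 ∨ b - 1 = r0 + 2 ∨ b - 1 = r0 + 3 := by omega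
            rcases h3' with h' | h' | h' | h' <;> rw [h']
            · exact iter_refl hr _ _
            · exact iter_le hr (by omega) (hstep r0 (by omega))
            · exact iter_le hr (show 2 ≤ J + 1 by omega)
                (iter_comp (hstep r0 (by omega)) (hstep (r0 + 1) (by omega)))
            · exact iter_le hr (by omega) (hsteps3 r0 (by omega))
        exact iter_succ_of hr _ (iter_comp hstart hend)
    · -- `k = 1`
      have hk1 : k = 1 := by omega
      subst hk1
      simp only [Nat.log_one_right, mul_zero, zero_add]
      have hadj : ∀ p q, a ≤ p → p < q → q < b → Adj p q := by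
        intro p q hap hpq hqb
        obtain ⟨p', hp', q', hq', hpq', hA⟩ := hgood {p, q} (by
          intro i hi
          simp only [Finset.mem_insert, Finset.mem_singleton] at hi
          omega) (by rw [Finset.card_pair (by omega)]; norm_num)
        simp only [Finset.mem_insert, Finset.mem_singleton] at hp' hq'
        have e1 : p' = p := by omega
        have e2 : q' = q := by omega
        rwa [e1, e2] at hA
      have hcol : ∀ r, a ≤ r → r + 3 < b → Sim (iter R 3) (v r) (v (r + 1)) := by
        intro r har hrb
        have hback := h3 r (r + 3) le_rfl (by omega) (hadj r (r + 3) har (by omega) hrb)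
        refine Sim.of (iter_le hr (by omega) (hstep r (by omega))) ?_
        exact iter_link hr (iter_le hr (by omega) (hstep (r + 1) (by omega)))
          (h2 (r + 2) (by omega)) hback
      have hchain : ∀ m, a + m + 2 < b → Sim (iter R 3) (v a) (v (a + m)) := by
        intro m
        induction m with
        | zero => intro _; exact Sim.refl _
        | succ m ihm =>
          intro hm
          exact (ihm (by omega)).trans (hcol (a + m) (by omega) (by omega))
      rcases Nat.lt_or_ge (a + 2) b with h0 | h0
      · have e1 := hchain (b - a - 3) (by omega)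
        have e2 : a + (b - a - 3) = b - 3 := by omega
        rw [e2] at e1
        have e3 : iter R 2 (v (b - 3)) (v (b - 1)) := by
          have f1 := hstep (b - 3) (by omega)
          have f2 := hstep (b - 2) (by omega)
          rw [show b - 3 + 1 = b - 2 by omega] at f1
          rw [show b - 2 + 1 = b - 1 by omega] at f2
          exact iter_comp f1 f2
        exact (⟨_, _, iter_le hr (Nat.zero_le _) (h1 a (by omega)), e1,
          iter_le hr (show 2 ≤ 3 by norm_num) e3⟩ : Phi (iter R 3) _ _)
      · rcases Nat.eq_or_lt_of_le (show a + 1 ≤ b by omega) with h' | h'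
        · rw [← h', Nat.add_sub_cancel]
          exact iter_le hr (Nat.zero_le _) (h1 a (by omega))
        · have : b = a + 2 := by omega
          rw [this, show a + 2 - 1 = a + 1 by omega]
          exact iter_le hr (show 2 ≤ 4 by omega) (iter_comp
            (iter_le hr (Nat.zero_le _) (h1 a (by omega))) (hstep a (by omega)))

/-- A chain of `R`-steps `u p → v p`, joined by `Sim R`, such that among any `k + 1` steps there
are two related by `Adj`, and related steps at distance at least three are joined backwards. -/
theorem word_lemma {R : V → V → Prop} (hr : ∀ x, R x x) {k : ℕ} (hk : 1 ≤ k) {l : ℕ}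
    (hl : 0 < l) (u v : ℕ → V) (h1 : ∀ p < l, R (u p) (v p))
    (h2 : ∀ p, p + 1 < l → Sim R (v p) (u (p + 1))) (Adj : ℕ → ℕ → Prop)
    (h3 : ∀ p q, p + 3 ≤ q → q < l → Adj p q → iter R 2 (u q) (v p))
    (h4 : ∀ I : Finset ℕ, (∀ i ∈ I, i < l) → k < I.card → ∃ p ∈ I, ∃ q ∈ I, p < q ∧ Adj p q)
    {x y : V} (hx : Sim R x (u 0)) (hy : Sim R (v (l - 1)) y) :
    iter R (3 * Nat.log 2 k + 6) x y := by
  have h := word_interval hr u v h1 h2 Adj h3 k hk 0 l hl le_rfl
    fun I hI hc => h4 I (fun i hi => (hI i hi).2) hc
  have e1 : iter R (3 * Nat.log 2 k + 5) x (v (l - 1)) :=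
    iter_link hr (iter_refl hr _ _) hx h
  exact iter_link hr e1 hy (iter_refl hr _ _)

end Pool.Agent.Lib.Pe46137S
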